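import Pool.Agent.LibHall43.Defs

set_option autoImplicit false

namespace LibHall

/-- Existence of a reduced basis. -/
theorem exists_basis (A : ℝ) (hA : 1 ≤ A) (x : ℤ) (hx : A ^ 2 ≤ (x : ℝ)) :
    ∃ v1 v2 : ℤ × ℤ, v1.1 * v2.2 - v2.1 * v1.2 = 1 ∧ 0 < Qn A x v1 ∧ Qn A x v1 ≤ 2 ∧
      Qn A x v1 * Qn A x v2 ≤ 2 := by
  have hA0 : 0 < A := lt_of_lt_of_le one_pos hA
  have hs : A ≤ √(x : ℝ) := Real.le_sqrt_of_sq_le hx
  have hs0 : 0 < √(x : ℝ) := lt_of_lt_of_le hA0 hs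
  set s := √(x : ℝ) with hsdef
  -- Dirichlet
  have hn : 0 < ⌊s / A⌋₊ := Nat.floor_pos.2 ((one_le_div hA0).2 hs)
  obtain ⟨j, k, hk0, hkn, hjk⟩ := Real.exists_int_int_abs_mul_sub_le s hn
  have hfl : s / A < (⌊s / A⌋₊ : ℝ) + 1 := Nat.lt_floor_add_one _
  have hfl' : ((⌊s / A⌋₊ : ℕ) : ℝ) ≤ s / A := Nat.floor_le (by positivity)
  have hkR : (k : ℝ) ≤ s / A := le_trans (by exact_mod_cast hkn) hfl'
  have hk0R : (0 : ℝ) < k := by exact_mod_cast hk0
  have he : |(k : ℝ) * s - j| ≤ A / s := by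
    refine hjk.trans ?_
    rw [div_le_div_iff₀ (by positivity) hs0, one_mul]
    rw [div_lt_iff₀ hA0] at hfl
    linarith
  -- the primitive vector
  set g : ℤ := (Int.gcd j k : ℤ) with hg
  have hgpos : 0 < g := by
    have : Int.gcd j k ≠ 0 := by
      rw [Ne, Int.gcd_eq_zero_iff]
      rintro ⟨-, h⟩
      exact hk0.ne' h
    have : 0 < Int.gcd j k := Nat.pos_of_ne_zero this
    rw [hg]
    exact_mod_cast this
  obtain ⟨p1, hp1⟩ : g ∣ j := Int.gcd_dvd_left j k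
  obtain ⟨q1, hq1⟩ : g ∣ k := Int.gcd_dvd_right j k
  have hbez := Int.gcd_eq_gcd_ab j k
  set α := Int.gcdA j k
  set β := Int.gcdB j k
  have hbez1 : p1 * α + q1 * β = 1 := by
    have h1 : g * (p1 * α + q1 * β) = g * 1 := by
      rw [mul_one]
      calc g * (p1 * α + q1 * β) = (g * p1) * α + (g * q1) * β := by ring
        _ = j * α + k * β := by rw [← hp1, ← hq1]
        _ = g := hbez.symm
    exact mul_left_cancel₀ hgpos.ne' h1
  have hgR : (1 : ℝ) ≤ g := by exact_mod_cast hgpos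
  have hq1pos : 0 < q1 := by
    have : 0 < g * q1 := hq1 ▸ hk0
    exact (mul_pos_iff_of_pos_left hgpos).1 this
  have hq1R : (0 : ℝ) < q1 := by exact_mod_cast hq1pos
  have hX1 : |((p1 : ℝ) - s * q1) * s / A| ≤ 1 := by
    have h1 : (g : ℝ) * ((p1 : ℝ) - s * q1) = j - k * s := by
      rw [hp1, hq1]; push_cast; ring
    have h2 : |(g : ℝ) * ((p1 : ℝ) - s * q1)| ≤ A / s := by
      rw [h1, abs_sub_comm]; exact he
    rw [abs_mul, abs_of_pos (by linarith : (0 : ℝ) < g)] at h2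
    have h3 : |(p1 : ℝ) - s * q1| ≤ A / s := by
      have : |(p1 : ℝ) - s * q1| ≤ (g : ℝ) * |(p1 : ℝ) - s * q1| :=
        le_mul_of_one_le_left (abs_nonneg _) hgR
      linarith
    rw [abs_div, abs_mul, abs_of_pos hs0, abs_of_pos hA0, div_le_one hA0]
    rw [le_div_iff₀ hs0] at h3
    exact h3
  have hY1 : |(q1 : ℝ) * A / s| ≤ 1 := by
    have h1 : (q1 : ℝ) ≤ k := by
      have : q1 ≤ g * q1 := le_mul_of_one_le_left hq1pos.le hgpos
      rw [← hq1] at this
      exact_mod_cast this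
    have h2 : (q1 : ℝ) * A ≤ s := by
      have := h1.trans hkR
      rwa [le_div_iff₀ hA0] at this
    rw [abs_of_pos (by positivity), div_le_one hs0]
    exact h2
  -- the quadratic form
  have hQ : ∀ v : ℤ × ℤ, Qn A x v = (((v.1 : ℝ) - s * v.2) * s / A) ^ 2 + ((v.2 : ℝ) * A / s) ^ 2 :=
    fun v => rfl
  have hQ1 : Qn A x (p1, q1) ≤ 2 := by
    rw [hQ]
    have h1 := (sq_le_one_iff_abs_le_one _).2 hX1
    have h2 := (sq_le_one_iff_abs_le_one _).2 hY1
    simp only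
    linarith
  have hQ1pos : 0 < Qn A x (p1, q1) := by
    rw [hQ]
    have h1 : 0 < ((q1 : ℝ) * A / s) ^ 2 := by positivity
    have h2 : 0 ≤ (((p1 : ℝ) - s * q1) * s / A) ^ 2 := sq_nonneg _
    simp only
    linarith
  -- the second vector
  set X1 := ((p1 : ℝ) - s * q1) * s / A with hX1d
  set Y1 := (q1 : ℝ) * A / s with hY1d
  set X2 := ((-β : ℝ) - s * α) * s / A with hX2d
  set Y2 := (α : ℝ) * A / s with hY2d
  have hdetR : X1 * Y2 - X2 * Y1 = 1 := by
    have h1 : (p1 : ℝ) * α + q1 * β = 1 := by exact_mod_cast hbez1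
    rw [hX1d, hY2d, hX2d, hY1d]
    field_simp
    linear_combination h1
  set L := X1 * X2 + Y1 * Y2 with hL
  set t : ℤ := round (-L / Qn A x (p1, q1)) with ht
  refine ⟨(p1, q1), (-β + t * p1, α + t * q1), ?_, hQ1pos, hQ1, ?_⟩
  · simp only
    linear_combination hbez1
  · have hQ2 : Qn A x (-β + t * p1, α + t * q1) = (X2 + t * X1) ^ 2 + (Y2 + t * Y1) ^ 2 := by
      rw [hQ, hX1d, hY1d, hX2d, hY2d]
      simp only
      push_cast
      congr 1
      · congr 1
        field_simp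
        ring
      · congr 1
        field_simp
    have hQ1' : Qn A x (p1, q1) = X1 ^ 2 + Y1 ^ 2 := hQ _
    have hround : |L + t * Qn A x (p1, q1)| ≤ Qn A x (p1, q1) / 2 := by
      have h1 := abs_sub_round (-L / Qn A x (p1, q1))
      have h2 : L + t * Qn A x (p1, q1) =
          -(Qn A x (p1, q1)) * (-L / Qn A x (p1, q1) - t) := by
        field_simp
        ring
      rw [h2, abs_mul, abs_neg, abs_of_pos hQ1pos]
      calc Qn A x (p1, q1) * |-L / Qn A x (p1, q1) - t| ≤ Qn A x (p1, q1) * (1 / 2) :=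
            mul_le_mul_of_nonneg_left h1 hQ1pos.le
        _ = _ := by ring
    have hle1 : |L + t * Qn A x (p1, q1)| ≤ 1 := by linarith
    have hsq := (sq_le_one_iff_abs_le_one _).2 hle1
    have hid : Qn A x (p1, q1) * Qn A x (-β + t * p1, α + t * q1) =
        (L + t * Qn A x (p1, q1)) ^ 2 + (X1 * Y2 - X2 * Y1) ^ 2 := by
      rw [hQ2, hQ1', hL]
      ring
    rw [hid, hdetR]
    linarith

end LibHall
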