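import Pool.Agent.LibHall43.Defs

set_option autoImplicit false

namespace LibHall

/-- Without integral root the form has no zero. -/
theorem T3_ne_zero (x y : ℤ) (h : ∀ r : ℤ, r ^ 3 - 3 * x * r + 2 * y ≠ 0) (v : ℤ × ℤ)
    (hv : v ≠ 0) : T3 x y v v v ≠ 0 := by
  obtain ⟨p, q⟩ := v
  intro h0
  have e : p ^ 3 - 3 * x * p * q ^ 2 + 2 * y * q ^ 3 = 0 := by
    have : T3 x y (p, q) (p, q) (p, q) = p ^ 3 - 3 * x * p * q ^ 2 + 2 * y * q ^ 3 := by
      simp only [T3]; ring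
    rw [← this, h0]
  have hd : 0 < Int.gcd p q := by
    rw [Nat.pos_iff_ne_zero]
    intro hg
    rw [Int.gcd_eq_zero_iff] at hg
    exact hv (Prod.ext hg.1 hg.2)
  obtain ⟨p', q', hc, hp, hq⟩ := Int.exists_gcd_one hd
  set d : ℤ := (Int.gcd p q : ℤ) with hdd
  have hd0 : d ≠ 0 := by
    rw [hdd]; exact_mod_cast hd.ne'
  have e2 : d ^ 3 * (p' ^ 3 - 3 * x * p' * q' ^ 2 + 2 * y * q' ^ 3) = 0 := by
    rw [← e, hp, hq]; ring
  have e3 : p' ^ 3 - 3 * x * p' * q' ^ 2 + 2 * y * q' ^ 3 = 0 :=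
    (mul_eq_zero.1 e2).resolve_left (pow_ne_zero 3 hd0)
  have hcop : IsCoprime q' (p' ^ 3) := by
    have : IsCoprime p' q' := Int.isCoprime_iff_gcd_eq_one.2 hc
    exact this.symm.pow_right
  have hdvd : q' ∣ p' ^ 3 := ⟨3 * x * p' * q' - 2 * y * q' ^ 2, by linear_combination e3⟩
  have hu := hcop.isUnit_of_dvd hdvd
  rcases Int.isUnit_iff.1 hu with h1 | h1
  · rw [h1] at e3
    exact h p' (by linear_combination e3)
  · rw [h1] at e3
    exact h (-p') (by linear_combination -e3)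

end LibHall
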