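import Pool.Agent.LibHall43.C2a

set_option autoImplicit false

namespace LibHall

private lemma C2_one_le {n : ℤ} (h : n ≠ 0) : (1:ℝ) ≤ |(n:ℝ)| := by
  have h1 : (1:ℤ) ≤ |n| := Int.one_le_abs h
  have h2 : ((1:ℤ):ℝ) ≤ ((|n| : ℤ) : ℝ) := by exact_mod_cast h1
  simpa using h2

private lemma C2_s {A s x : ℝ} (hA : 100 ≤ A) (hs : 0 < s) (hsx : s ^ 2 = x)
    (hx : A ^ 12 ≤ x ^ 5) : 40 * A ^ 2 ≤ s ^ 3 := by
  have hA0 : 0 < A := by linarith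
  have h1 : (40 * A ^ 2) ^ 10 ≤ (s ^ 3) ^ 10 := by
    have h2 : (s ^ 3) ^ 10 = (x ^ 5) ^ 3 := by
      rw [← hsx]; ring
    have h3 : (A ^ 12) ^ 3 ≤ (x ^ 5) ^ 3 := pow_le_pow_left₀ (by positivity) hx 3
    have h4 : (40:ℝ) ^ 10 ≤ A ^ 16 := by
      calc (40:ℝ) ^ 10 ≤ 100 ^ 16 := by norm_num
        _ ≤ A ^ 16 := pow_le_pow_left₀ (by norm_num) hA 16
    calc (40 * A ^ 2) ^ 10 = 40 ^ 10 * A ^ 20 := by ring
      _ ≤ A ^ 16 * A ^ 20 := mul_le_mul_of_nonneg_right h4 (by positivity)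
      _ = (A ^ 12) ^ 3 := by ring
      _ ≤ (s ^ 3) ^ 10 := by rw [h2]; exact h3
  exact le_of_pow_le_pow_left₀ (by norm_num) (by positivity) h1

/-- All the inequalities for the tuple attached to a basis of type `(N1, N2)`. -/
theorem W_facts (C : ℕ) (A N1 N2 : ℝ) (hA : 100 ≤ A) (hN1 : 0 < N1) (hN2 : 0 < N2)
    (hN : N1 * N2 = 6) (x y : ℤ) (w1 w2 : ℤ × ℤ) (hG : IsG A C x y)
    (hW : IsW A N1 N2 x y w1 w2) :
    1 ≤ 6 * A * N1 ^ 3 ∧ 1 ≤ 6 * A * N2 ^ 3 ∧ w1.2 ≠ 0 ∧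
    |(T3 x y w1 w1 w1 : ℝ)| ≤ 6 * A * N1 ^ 3 ∧ |(T3 x y w1 w1 w2 : ℝ)| ≤ 36 * A * N1 ∧
    |(T3 x y w1 w2 w2 : ℝ)| ≤ 36 * A * N2 ∧ |(T3 x y w2 w2 w2 : ℝ)| ≤ 6 * A * N2 ^ 3 ∧
    |(w1.2 : ℝ)| ≤ √(x : ℝ) ∧
    IsS (20 * N2 / N1) (A * N2 ^ 3 / 2) (T3 x y w1 w1 w1) (T3 x y w1 w1 w2) (T3 x y w1 w2 w2)
      (T3 x y w2 w2 w2, w2.2, -w1.2) := by
  obtain ⟨hdet, he1, hq1, he2, hq2, hlow, hT1, hT2⟩ := hW
  have hG' := hG
  obtain ⟨hx0, hx12, -, -, -, -⟩ := hG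
  have hA0 : 0 < A := by linarith
  have hA1 : 1 ≤ A := by linarith
  have hxr : (0:ℝ) < (x:ℝ) := by exact_mod_cast hx0
  have hs : 0 < √(x:ℝ) := Real.sqrt_pos.mpr hxr
  have hs2 : √(x:ℝ) ^ 2 = (x:ℝ) := Real.sq_sqrt hxr.le
  have b1 := T3_bound A hA1 C x y hG' w1 w1 w1 N1 N1 N1 hN1.le hN1.le hN1.le he1 hq1 he1 hq1 he1 hq1
  have b2 := T3_bound A hA1 C x y hG' w1 w1 w2 N1 N1 N2 hN1.le hN1.le hN2.le he1 hq1 he1 hq1 he2 hq2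
  have b3 := T3_bound A hA1 C x y hG' w1 w2 w2 N1 N2 N2 hN1.le hN2.le hN2.le he1 hq1 he2 hq2 he2 hq2
  have b4 := T3_bound A hA1 C x y hG' w2 w2 w2 N2 N2 N2 hN2.le hN2.le hN2.le he2 hq2 he2 hq2 he2 hq2
  have e1 : 6 * A * (N1 * N1 * N1) = 6 * A * N1 ^ 3 := by ring
  have e2 : 6 * A * (N1 * N1 * N2) = 36 * A * N1 := by
    have : 6 * A * (N1 * N1 * N2) = 6 * A * N1 * (N1 * N2) := by ring
    rw [this, hN]; ring
  have e3 : 6 * A * (N1 * N2 * N2) = 36 * A * N2 := by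
    have : 6 * A * (N1 * N2 * N2) = 6 * A * N2 * (N1 * N2) := by ring
    rw [this, hN]; ring
  have e4 : 6 * A * (N2 * N2 * N2) = 6 * A * N2 ^ 3 := by ring
  rw [e1] at b1
  rw [e2] at b2
  rw [e3] at b3
  rw [e4] at b4
  have g1 : 1 ≤ 6 * A * N1 ^ 3 := (C2_one_le hT1).trans b1
  have g2 : 1 ≤ 6 * A * N2 ^ 3 := (C2_one_le hT2).trans b4
  have hq0 : (0:ℝ) < |(w1.2:ℝ)| := by
    have h1 : 0 < N1 * √(x:ℝ) := mul_pos hN1 hs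
    by_contra h
    have h2 : |(w1.2:ℝ)| = 0 := le_antisymm (not_lt.mp h) (abs_nonneg _)
    rw [h2] at hlow
    linarith
  have hqne : w1.2 ≠ 0 := by
    intro h
    rw [h] at hq0
    simp at hq0
  have hN1A : N1 ≤ A := by
    have h1 : N1 ^ 3 ≤ 1296 * A := by
      have h2 : N1 ^ 3 * N2 ^ 3 = 216 := by
        rw [← mul_pow, hN]; norm_num
      have h3 : N1 ^ 3 * 1 ≤ N1 ^ 3 * (6 * A * N2 ^ 3) :=
        mul_le_mul_of_nonneg_left g2 (by positivity)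
      have h4 : N1 ^ 3 * (6 * A * N2 ^ 3) = 6 * A * (N1 ^ 3 * N2 ^ 3) := by ring
      rw [h4, h2] at h3
      linarith
    have h5 : N1 ^ 3 ≤ A ^ 3 := by
      refine h1.trans ?_
      have : (1296:ℝ) ≤ A ^ 2 := by nlinarith
      calc 1296 * A ≤ A ^ 2 * A := mul_le_mul_of_nonneg_right this hA0.le
        _ = A ^ 3 := by ring
    exact le_of_pow_le_pow_left₀ (by norm_num) hA0.le h5
  have hqs : |(w1.2:ℝ)| ≤ √(x:ℝ) := by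
    have h1 : |(w1.2:ℝ)| * A ≤ √(x:ℝ) * A := by
      refine hq1.trans ?_
      rw [mul_comm (√(x:ℝ)) A]
      exact mul_le_mul_of_nonneg_right hN1A hs.le
    exact le_of_mul_le_mul_right h1 hA0
  refine ⟨g1, g2, hqne, b1, b2, b3, b4, hqs, ?_, ?_, ?_, ?_⟩
  · exact CF_basis x y w1 w2 hdet
  · simpa using hqne
  · simp only [Int.cast_neg, abs_neg]
    have h1 : |(w2.2:ℝ)| * A ≤ (20 * N2 / N1 * |(w1.2:ℝ)|) * A := by
      refine hq2.trans ?_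
      have h2 : √(x:ℝ) ≤ 20 * |(w1.2:ℝ)| * A / N1 := by
        rw [le_div_iff₀ hN1]
        linarith
      calc N2 * √(x:ℝ) ≤ N2 * (20 * |(w1.2:ℝ)| * A / N1) := mul_le_mul_of_nonneg_left h2 hN2.le
        _ = 20 * N2 / N1 * |(w1.2:ℝ)| * A := by field_simp
    exact le_of_mul_le_mul_right h1 hA0
  · have hqr : (w1.2:ℝ) ≠ 0 := by exact_mod_cast hqne
    have hd := deriv_basis x y w1 w2 hdet
    have hdr : (T3 x y w1 w1 w1 : ℝ) * (w2.2:ℝ) ^ 2 + 2 * (T3 x y w1 w1 w2 : ℝ) * w2.2 * (-w1.2)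
      + (T3 x y w1 w2 w2 : ℝ) * (-w1.2) ^ 2 = w1.1 := by exact_mod_cast hd
    have hval : (T3 x y w1 w1 w1 : ℝ) * ((w2.2:ℝ) / ((-w1.2 : ℤ) : ℝ)) ^ 2 +
        2 * (T3 x y w1 w1 w2 : ℝ) * ((w2.2:ℝ) / ((-w1.2 : ℤ) : ℝ)) + (T3 x y w1 w2 w2 : ℝ) =
        w1.1 / (w1.2:ℝ) ^ 2 := by
      rw [← hdr]
      push_cast
      field_simp
    simp only
    rw [hval, abs_mul, abs_div, abs_of_pos (by norm_num : (0:ℝ) < 3),
      abs_of_nonneg (sq_nonneg (w1.2:ℝ))]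
    -- lower bound for p
    have hp : √(x:ℝ) * |(w1.2:ℝ)| / 2 ≤ |(w1.1:ℝ)| := by
      have h1 : √(x:ℝ) * |(w1.2:ℝ)| ≤ |(w1.1:ℝ)| + |ee x w1| := by
        have : √(x:ℝ) * (w1.2:ℝ) = (w1.1:ℝ) - ee x w1 := by
          unfold ee; ring
        calc √(x:ℝ) * |(w1.2:ℝ)| = |√(x:ℝ) * (w1.2:ℝ)| := by rw [abs_mul, abs_of_pos hs]
          _ = |(w1.1:ℝ) - ee x w1| := by rw [this]
          _ ≤ |(w1.1:ℝ)| + |ee x w1| := abs_sub _ _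
      have h2 : |ee x w1| ≤ √(x:ℝ) * |(w1.2:ℝ)| / 2 := by
        have h3 := C2_s hA hs hs2 hx12
        have h4 : |ee x w1| * √(x:ℝ) ≤ (√(x:ℝ) * |(w1.2:ℝ)| / 2) * √(x:ℝ) := by
          refine he1.trans ?_
          have h5 : N1 * A * (40 * A ^ 2) ≤ N1 * A * √(x:ℝ) ^ 3 :=
            mul_le_mul_of_nonneg_left h3 (by positivity)
          have h6 : N1 * √(x:ℝ) * (A * √(x:ℝ) ^ 2) ≤ 20 * |(w1.2:ℝ)| * A * (A * √(x:ℝ) ^ 2) :=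
            mul_le_mul_of_nonneg_right hlow (by positivity)
          have h7 : A ^ 2 * (40 * (N1 * A)) ≤ A ^ 2 * (40 * ((√(x:ℝ) * |(w1.2:ℝ)| / 2) * √(x:ℝ))) := by
            nlinarith
          have h8 := le_of_mul_le_mul_left h7 (by positivity)
          linarith
        exact le_of_mul_le_mul_right h4 hs
      linarith
    have h9 : 3 * (√(x:ℝ) * |(w1.2:ℝ)| / 2 / (w1.2:ℝ) ^ 2) ≤ 3 * (|(w1.1:ℝ)| / (w1.2:ℝ) ^ 2) := by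
      have : 0 < (w1.2:ℝ) ^ 2 := by positivity
      gcongr
    have h10 : √(x:ℝ) * |(w1.2:ℝ)| / 2 / (w1.2:ℝ) ^ 2 = √(x:ℝ) / (2 * |(w1.2:ℝ)|) := by
      rw [← sq_abs]
      field_simp
    have h11 : A / N1 / 2 ≤ √(x:ℝ) / (2 * |(w1.2:ℝ)|) := by
      rw [div_div, div_le_div_iff₀ (by positivity) (by positivity)]
      nlinarith
    calc A * N2 ^ 3 / 2 ≤ 20 * N2 / N1 * (3 * (A / N1 / 2)) := by
          have h12 : 20 * N2 / N1 * (3 * (A / N1 / 2)) = 30 * A * N2 / N1 ^ 2 := by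
            field_simp
            ring
          rw [h12, le_div_iff₀ (by positivity)]
          have h13 : A * N2 ^ 3 / 2 * N1 ^ 2 = A * N2 / 2 * (N1 * N2) ^ 2 := by ring
          rw [h13, hN]
          nlinarith [mul_pos hA0 hN2]
      _ ≤ 20 * N2 / N1 * (3 * (|(w1.1:ℝ)| / (w1.2:ℝ) ^ 2)) := by
          refine mul_le_mul_of_nonneg_left ?_ (by positivity)
          refine le_trans ?_ h9
          rw [h10]
          linarith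

end LibHall
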