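import Pool.Agent.LibHall43.B3
import Pool.Agent.LibHall43.C2

set_option autoImplicit false

namespace LibHall

/-- the size of a symmetric interval of integers -/
theorem C3b_card_le (R : ℝ) (hR : 1 ≤ R) :
    ((Finset.Icc (-⌊R⌋) ⌊R⌋).card : ℝ) ≤ 3 * R := by
  have h0 : (0 : ℤ) ≤ ⌊R⌋ := Int.floor_nonneg.2 (by linarith)
  have h1 : (⌊R⌋ : ℝ) ≤ R := Int.floor_le R
  rw [Int.card_Icc]
  have h2 : (((⌊R⌋ + 1 - -⌊R⌋).toNat : ℕ) : ℝ) = 2 * (⌊R⌋ : ℝ) + 1 := by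
    have h3 : (((⌊R⌋ + 1 - -⌊R⌋).toNat : ℕ) : ℤ) = 2 * ⌊R⌋ + 1 := by
      rw [Int.toNat_of_nonneg (by omega)]
      ring
    exact_mod_cast h3
  rw [h2]
  linarith

theorem C3b_mem (R : ℝ) (z : ℤ) (h : |(z : ℝ)| ≤ R) : z ∈ Finset.Icc (-⌊R⌋) ⌊R⌋ := by
  rw [Finset.mem_Icc]
  have h1 := abs_le.1 h
  constructor
  · have : -z ≤ ⌊R⌋ := Int.le_floor.2 (by push_cast; linarith)
    omega
  · exact Int.le_floor.2 h1.2

theorem C3b_prod (a1 a2 a3 a4 a5 a6 : ℕ) (r1 r2 r3 r4 r5 r6 : ℝ) (h1 : (a1 : ℝ) ≤ r1)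
    (h2 : (a2 : ℝ) ≤ r2) (h3 : (a3 : ℝ) ≤ r3) (h4 : (a4 : ℝ) ≤ r4) (h5 : (a5 : ℝ) ≤ r5)
    (h6 : (a6 : ℝ) ≤ r6) :
    ((a1 * (a2 * (a3 * (a4 * (a5 * a6)))) : ℕ) : ℝ) ≤ r1 * (r2 * (r3 * (r4 * (r5 * r6)))) := by
  have k1 : (0 : ℝ) ≤ a1 := Nat.cast_nonneg _
  have k2 : (0 : ℝ) ≤ a2 := Nat.cast_nonneg _
  have k3 : (0 : ℝ) ≤ a3 := Nat.cast_nonneg _
  have k4 : (0 : ℝ) ≤ a4 := Nat.cast_nonneg _
  have k5 : (0 : ℝ) ≤ a5 := Nat.cast_nonneg _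
  have k6 : (0 : ℝ) ≤ a6 := Nat.cast_nonneg _
  push_cast
  have l1 : 0 ≤ r1 := k1.trans h1
  have l2 : 0 ≤ r2 := k2.trans h2
  have l3 : 0 ≤ r3 := k3.trans h3
  have l4 : 0 ≤ r4 := k4.trans h4
  have l5 : 0 ≤ r5 := k5.trans h5
  gcongr

/-- the label of a basis -/
noncomputable def C3b_lab (M Θ : ℝ) (s : (ℤ × ℤ) × (ℤ × ℤ) × (ℤ × ℤ)) :
    ℤ × ℤ × ℤ × ℤ × ℕ × ℤ :=
  (T3 s.1.1 s.1.2 s.2.1 s.2.1 s.2.1, T3 s.1.1 s.1.2 s.2.1 s.2.1 s.2.2,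
    T3 s.1.1 s.1.2 s.2.1 s.2.2 s.2.2, T3 s.1.1 s.1.2 s.2.2 s.2.2 s.2.2,
    Nat.log 2 s.2.1.2.natAbs,
    ⌊((s.2.2.2 : ℝ) / ((-s.2.1.2 : ℤ) : ℝ)) * M / Θ⌋)

theorem C3b_log (b : ℤ) (hb : b ≠ 0) :
    (2 : ℝ) ^ Nat.log 2 b.natAbs ≤ |((-b : ℤ) : ℝ)| ∧
      |((-b : ℤ) : ℝ)| ≤ 2 * 2 ^ Nat.log 2 b.natAbs := by
  have h0 : b.natAbs ≠ 0 := Int.natAbs_ne_zero.2 hb
  have h1 : |((-b : ℤ) : ℝ)| = (b.natAbs : ℝ) := by
    rw [Int.cast_neg, abs_neg, ← Int.cast_abs, Int.abs_eq_natAbs]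
    simp
  rw [h1]
  constructor
  · exact_mod_cast Nat.pow_log_le_self 2 h0
  · have := (Nat.lt_pow_succ_log_self (by norm_num : 1 < 2) b.natAbs).le
    rw [pow_succ'] at this
    exact_mod_cast this

/-- The number of `(x, y, w1, w2)` of type `(N1, N2)`: general bound. -/
theorem W_count_triv (C : ℕ) : ∃ c A0 : ℝ, 0 < c ∧ 1 < A0 ∧ ∀ A : ℝ, A0 ≤ A → ∀ N1 N2 : ℝ,
    0 < N1 → 0 < N2 → N1 * N2 = 6 →
    ∀ S : Finset ((ℤ × ℤ) × (ℤ × ℤ) × (ℤ × ℤ)),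
    (∀ s ∈ S, IsG A C s.1.1 s.1.2 ∧ IsW A N1 N2 s.1.1 s.1.2 s.2.1 s.2.2) →
    (S.card : ℝ) ≤ c * A ^ 4 * Real.log A := by
  refine ⟨81 * 46656 * 1296 * ((2 * C) / Real.log 2 + 1) * (3 * 1344000), 3000, ?_, by norm_num, ?_⟩
  · have := Real.log_pos (by norm_num : (1 : ℝ) < 2)
    positivity
  intro A hA N1 N2 hN1 hN2 hN S hS
  have hA0 : 0 < A := by linarith
  have hlog2 := Real.log_pos (by norm_num : (1 : ℝ) < 2)
  have hlogA : 1 ≤ Real.log A := by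
    rw [Real.le_log_iff_exp_le hA0]
    have := Real.exp_one_lt_d9
    linarith
  by_cases hne : S.Nonempty
  swap
  · rw [Finset.not_nonempty_iff_eq_empty.1 hne]
    simp only [Finset.card_empty, Nat.cast_zero]
    positivity
  have hfacts := fun s hs => W_facts C A N1 N2 (by linarith) hN1 hN2 hN s.1.1 s.1.2 s.2.1 s.2.2
    (hS s hs).1 (hS s hs).2
  obtain ⟨s0, hs0⟩ := hne
  obtain ⟨hR0, hR3, -⟩ := hfacts s0 hs0
  set Θ := 20 * N2 / N1 with hΘ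
  have hΘ0 : 0 < Θ := by positivity
  -- consequences of the product relation
  have hN2' : N2 = 6 / N1 := by rw [eq_div_iff hN1.ne']; linarith
  have hN1' : N1 = 6 / N2 := by rw [eq_div_iff hN2.ne']; linarith
  have hN1low : 100 ≤ A * N1 := by
    by_contra hcon
    push Not at hcon
    have h1 : (A * N1) ^ 3 < 100 ^ 3 := pow_lt_pow_left₀ hcon (by positivity) (by norm_num)
    have h2 : A ^ 2 ≤ 6 * (A * N1) ^ 3 := by
      calc A ^ 2 = A ^ 2 * 1 := (mul_one _).symm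
        _ ≤ A ^ 2 * (6 * A * N1 ^ 3) := by gcongr
        _ = 6 * (A * N1) ^ 3 := by ring
    nlinarith
  have hN2low : 110 ≤ A * N2 := by
    by_contra hcon
    push Not at hcon
    have h1 : (A * N2) ^ 3 < 110 ^ 3 := pow_lt_pow_left₀ hcon (by positivity) (by norm_num)
    have h2 : A ^ 2 ≤ 6 * (A * N2) ^ 3 := by
      calc A ^ 2 = A ^ 2 * 1 := (mul_one _).symm
        _ ≤ A ^ 2 * (6 * A * N2 ^ 3) := by gcongr
        _ = 6 * (A * N2) ^ 3 := by ring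
    nlinarith
  -- the box
  obtain ⟨M, hM⟩ : ∃ M : ℝ, M = 1344000 := ⟨_, rfl⟩
  have hM0 : 0 < M := by rw [hM]; norm_num
  have hMint : M = ((1344000 : ℤ) : ℝ) := by rw [hM]; norm_num
  have hMfl : ⌊M⌋ = 1344000 := by rw [hMint]; exact Int.floor_intCast _
  set K : ℕ := ⌊(2 * C) * Real.log A / Real.log 2⌋₊ with hK
  set Bx : Finset (ℤ × ℤ × ℤ × ℤ × ℕ × ℤ) :=
    Finset.Icc (-⌊6 * A * N1 ^ 3⌋) ⌊6 * A * N1 ^ 3⌋ ×ˢ
      Finset.Icc (-⌊36 * A * N1⌋) ⌊36 * A * N1⌋ ×ˢ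
      Finset.Icc (-⌊36 * A * N2⌋) ⌊36 * A * N2⌋ ×ˢ
      Finset.Icc (-⌊6 * A * N2 ^ 3⌋) ⌊6 * A * N2 ^ 3⌋ ×ˢ
      Finset.range (K + 1) ×ˢ Finset.Icc (-⌊M⌋) ⌊M⌋ with hBx
  have hmaps : ∀ s ∈ S, C3b_lab M Θ s ∈ Bx := by
    intro s hs
    obtain ⟨-, -, hb0, h0, h1, h2, h3, hbx, hIsS⟩ := hfacts s hs
    simp only [hBx, C3b_lab, Finset.mem_product]
    refine ⟨C3b_mem _ _ h0, C3b_mem _ _ h1, C3b_mem _ _ h2, C3b_mem _ _ h3, ?_, ?_⟩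
    · rw [Finset.mem_range, Nat.lt_succ_iff, hK, Nat.le_floor_iff (by positivity),
        le_div_iff₀ hlog2]
      have h4 := (C3b_log s.2.1.2 hb0).1
      have h5 : |((-s.2.1.2 : ℤ) : ℝ)| ≤ A ^ (2 * C) := by
        rw [Int.cast_neg, abs_neg]
        refine hbx.trans ?_
        have h6 : (s.1.1 : ℝ) ≤ (A ^ (2 * C)) ^ 2 := by
          rw [← pow_mul, show 2 * C * 2 = 4 * C by ring]
          exact (hS s hs).1.2.2.1
        calc √(s.1.1 : ℝ) ≤ √((A ^ (2 * C)) ^ 2) := Real.sqrt_le_sqrt h6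
          _ = A ^ (2 * C) := Real.sqrt_sq (by positivity)
      have h7 := Real.log_le_log (by positivity) (h4.trans h5)
      rw [Real.log_pow, Real.log_pow] at h7
      push_cast at h7
      exact h7
    · have hbR : ((-s.2.1.2 : ℤ) : ℝ) ≠ 0 := by exact_mod_cast neg_ne_zero.2 hb0
      have h4 : |(s.2.2.2 : ℝ)| ≤ Θ * |((-s.2.1.2 : ℤ) : ℝ)| := hIsS.2.2.1
      have h5 : |(s.2.2.2 : ℝ) / ((-s.2.1.2 : ℤ) : ℝ) * M / Θ| ≤ M := by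
        rw [abs_div, abs_mul, abs_div, abs_of_pos hM0, abs_of_pos hΘ0, div_le_iff₀ hΘ0]
        have h6 : |(s.2.2.2 : ℝ)| / |((-s.2.1.2 : ℤ) : ℝ)| ≤ Θ :=
          (div_le_iff₀ (abs_pos.2 hbR)).2 h4
        calc |(s.2.2.2 : ℝ)| / |((-s.2.1.2 : ℤ) : ℝ)| * M ≤ Θ * M :=
              mul_le_mul_of_nonneg_right h6 hM0.le
          _ = M * Θ := mul_comm _ _
      have h7 := abs_le.1 h5
      rw [Finset.mem_Icc]
      constructor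
      · rw [hMfl]
        refine Int.le_floor.2 ?_
        have h8 : ((-1344000 : ℤ) : ℝ) = -M := by rw [hM]; norm_num
        rw [h8]
        exact h7.1
      · exact Int.floor_le_floor h7.2
  have hinj : Set.InjOn (C3b_lab M Θ) (S : Set ((ℤ × ℤ) × (ℤ × ℤ) × (ℤ × ℤ))) := by
    intro s hs s' hs' heq
    have hs := Finset.mem_coe.1 hs
    have hs' := Finset.mem_coe.1 hs'
    obtain ⟨-, -, hb0, h0, h1, h2, h3, hbx, hIsS⟩ := hfacts s hs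
    obtain ⟨-, -, hb0', h0', h1', h2', h3', hbx', hIsS'⟩ := hfacts s' hs'
    simp only [C3b_lab, Prod.mk.injEq] at heq
    obtain ⟨e0, e1, e2, e3, ek, ef⟩ := heq
    rw [← e0, ← e1, ← e2, ← e3] at hIsS'
    have hl := C3b_log s.2.1.2 hb0
    have hl' := C3b_log s'.2.1.2 hb0'
    rw [← ek] at hl'
    have hB1 : (1 : ℝ) ≤ 2 ^ Nat.log 2 s.2.1.2.natAbs := one_le_pow₀ (by norm_num)
    have hclose : |(s.2.2.2 : ℝ) / ((-s.2.1.2 : ℤ) : ℝ) - (s'.2.2.2 : ℝ) / ((-s'.2.1.2 : ℤ) : ℝ)| *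
        (14 * (48000 * A * N2 ^ 3)) ≤ Θ * (A * N2 ^ 3 / 2) := by
      have h4 := Int.abs_sub_lt_one_of_floor_eq_floor ef
      have h5 : (s.2.2.2 : ℝ) / ((-s.2.1.2 : ℤ) : ℝ) * M / Θ -
          (s'.2.2.2 : ℝ) / ((-s'.2.1.2 : ℤ) : ℝ) * M / Θ =
          ((s.2.2.2 : ℝ) / ((-s.2.1.2 : ℤ) : ℝ) - (s'.2.2.2 : ℝ) / ((-s'.2.1.2 : ℤ) : ℝ)) *
            (M / Θ) := by ring
      rw [h5, abs_mul, abs_of_pos (div_pos hM0 hΘ0), ← mul_div_assoc, div_lt_one hΘ0] at h4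
      calc |(s.2.2.2 : ℝ) / ((-s.2.1.2 : ℤ) : ℝ) - (s'.2.2.2 : ℝ) / ((-s'.2.1.2 : ℤ) : ℝ)| *
            (14 * (48000 * A * N2 ^ 3))
          = (|(s.2.2.2 : ℝ) / ((-s.2.1.2 : ℤ) : ℝ) - (s'.2.2.2 : ℝ) / ((-s'.2.1.2 : ℤ) : ℝ)| * M) *
            (A * N2 ^ 3 / 2) := by rw [hM]; ring
        _ ≤ Θ * (A * N2 ^ 3 / 2) := mul_le_mul_of_nonneg_right h4.le (by positivity)
    have hc0 : |(T3 s.1.1 s.1.2 s.2.1 s.2.1 s.2.1 : ℝ)| * Θ ^ 3 ≤ 48000 * A * N2 ^ 3 := by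
      calc |(T3 s.1.1 s.1.2 s.2.1 s.2.1 s.2.1 : ℝ)| * Θ ^ 3 ≤ (6 * A * N1 ^ 3) * Θ ^ 3 := by
            gcongr
        _ = 48000 * A * N2 ^ 3 := by
            rw [hΘ]
            field_simp
            ring
    have hc1 : |(T3 s.1.1 s.1.2 s.2.1 s.2.1 s.2.2 : ℝ)| * Θ ^ 2 ≤ 48000 * A * N2 ^ 3 := by
      calc |(T3 s.1.1 s.1.2 s.2.1 s.2.1 s.2.2 : ℝ)| * Θ ^ 2 ≤ (36 * A * N1) * Θ ^ 2 := by
            gcongr
        _ = 2400 * A * N2 ^ 3 := by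
            rw [hΘ, hN1']
            field_simp
            ring
        _ ≤ 48000 * A * N2 ^ 3 := by
            have : 0 < A * N2 ^ 3 := by positivity
            linarith
    have hc2 : |(T3 s.1.1 s.1.2 s.2.1 s.2.2 s.2.2 : ℝ)| * Θ ≤ 48000 * A * N2 ^ 3 := by
      calc |(T3 s.1.1 s.1.2 s.2.1 s.2.2 s.2.2 : ℝ)| * Θ ≤ (36 * A * N2) * Θ := by
            gcongr
        _ = 120 * A * N2 ^ 3 := by
            rw [hΘ, hN1']
            field_simp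
            ring
        _ ≤ 48000 * A * N2 ^ 3 := by
            have : 0 < A * N2 ^ 3 := by positivity
            linarith
    have hbig : 4 * (2 : ℝ) ^ 2 * Θ < A * N2 ^ 3 / 2 * 2 ^ Nat.log 2 s.2.1.2.natAbs := by
      have h6 : 4 * (2 : ℝ) ^ 2 * Θ < A * N2 ^ 3 / 2 := by
        have h7 : Θ = 10 / 3 * N2 ^ 2 := by
          rw [hΘ, hN1']
          field_simp
          ring
        rw [h7]
        have h8 : 0 < N2 ^ 2 := by positivity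
        nlinarith
      calc 4 * (2 : ℝ) ^ 2 * Θ < A * N2 ^ 3 / 2 := h6
        _ ≤ A * N2 ^ 3 / 2 * 2 ^ Nat.log 2 s.2.1.2.natAbs :=
          le_mul_of_one_le_right (by positivity) hB1
    obtain ⟨ha, hb⟩ := uniq _ _ _ _ _ _ _ _ Θ (A * N2 ^ 3 / 2) (48000 * A * N2 ^ 3)
      (2 ^ Nat.log 2 s.2.1.2.natAbs) 2 hΘ0 (by positivity) hB1 (by norm_num) hc0 hc1 hc2
      hIsS hIsS' hl.1 hl'.1 hl.2 hl'.2 hclose hbig
    have hb' : s.2.1.2 = s'.2.1.2 := neg_injective hb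
    obtain ⟨r1, r2, r3, r4⟩ := tuple_inj s.1.1 s.1.2 s'.1.1 s'.1.2 s.2.1 s.2.2 s'.2.1 s'.2.2
      (hS s hs).2.1 (hS s' hs').2.1 hb0 e0 e1 e2 ha hb'
    exact Prod.ext (Prod.ext r1 r2) (Prod.ext r3 r4)
  have hcard : S.card ≤ Bx.card := Finset.card_le_card_of_injOn _ hmaps hinj
  have hBcard : (Bx.card : ℝ) ≤ (3 * (6 * A * N1 ^ 3)) * ((3 * (36 * A * N1)) *
      ((3 * (36 * A * N2)) * ((3 * (6 * A * N2 ^ 3)) *
        ((((2 * C) / Real.log 2 + 1) * Real.log A) * (3 * M))))) := by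
    rw [hBx, Finset.card_product, Finset.card_product, Finset.card_product, Finset.card_product,
      Finset.card_product, Finset.card_range]
    apply C3b_prod
    · exact C3b_card_le _ hR0
    · exact C3b_card_le _ (by linarith)
    · exact C3b_card_le _ (by linarith)
    · exact C3b_card_le _ hR3
    · have h1 : (K : ℝ) ≤ (2 * C) * Real.log A / Real.log 2 := Nat.floor_le (by positivity)
      rw [Nat.cast_add, Nat.cast_one]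
      calc (K : ℝ) + 1 ≤ (2 * C) * Real.log A / Real.log 2 + Real.log A := by linarith
        _ = _ := by ring
    · exact C3b_card_le _ (by rw [hM]; norm_num)
  have hcard' : (S.card : ℝ) ≤ (Bx.card : ℝ) := by exact_mod_cast hcard
  refine hcard'.trans (hBcard.trans (le_of_eq ?_))
  have h1 : N1 ^ 3 * N1 * (N2 * N2 ^ 3) = 1296 := by
    calc N1 ^ 3 * N1 * (N2 * N2 ^ 3) = (N1 * N2) ^ 4 := by ring
      _ = 1296 := by rw [hN]; norm_num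
  rw [hM]
  linear_combination (81 * 46656 * (((2 * C) / Real.log 2 + 1) * (3 * 1344000)) * A ^ 4 * Real.log A) * h1

end LibHall
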