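import Pool.Agent.LibHall43.Defs

set_option autoImplicit false

namespace LibHall

theorem D2_X_le (A s : ℝ) (hA : 0 < A) (hs : 0 < s) (e ρ : ℝ) (hρ : 0 ≤ ρ)
    (h : (e * s / A) ^ 2 ≤ ρ ^ 2) : |e| * s ≤ ρ * A := by
  have h2 : |e * s / A| ≤ ρ := abs_le_of_sq_le_sq h hρ
  rwa [abs_div, abs_mul, abs_of_pos hs, abs_of_pos hA, div_le_iff₀ hA] at h2

theorem D2_Y_le (A s : ℝ) (hA : 0 < A) (hs : 0 < s) (q ρ : ℝ) (hρ : 0 ≤ ρ)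
    (h : (q * A / s) ^ 2 ≤ ρ ^ 2) : |q| * A ≤ ρ * s := by
  have h2 : |q * A / s| ≤ ρ := abs_le_of_sq_le_sq h hρ
  rwa [abs_div, abs_mul, abs_of_pos hs, abs_of_pos hA, div_le_iff₀ hs] at h2

/-- real version of the norm estimate for the second vector -/
theorem D2_norm2 (N X1 Y1 X2 Y2 n : ℝ) (hN : 0 < N) (hn0 : 0 ≤ n) (hn : n * N ^ 2 ≤ 1)
    (h1 : N ^ 2 / 4 < X1 ^ 2 + Y1 ^ 2) (h2 : X1 ^ 2 + Y1 ^ 2 ≤ N ^ 2)
    (h12 : (X1 ^ 2 + Y1 ^ 2) * (X2 ^ 2 + Y2 ^ 2) ≤ 2) :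
    (X2 + n * X1) ^ 2 ≤ (6 / N) ^ 2 ∧ (Y2 + n * Y1) ^ 2 ≤ (6 / N) ^ 2 := by
  have hN2 : 0 < N ^ 2 := by positivity
  have hQ2 : N ^ 2 * (X2 ^ 2 + Y2 ^ 2) ≤ 8 := by
    have h3 : N ^ 2 / 4 * (X2 ^ 2 + Y2 ^ 2) ≤ (X1 ^ 2 + Y1 ^ 2) * (X2 ^ 2 + Y2 ^ 2) :=
      mul_le_mul_of_nonneg_right h1.le (by positivity)
    linarith
  have key : ∀ u1 u2 : ℝ, u1 ^ 2 ≤ N ^ 2 → N ^ 2 * u2 ^ 2 ≤ 8 → (u2 + n * u1) ^ 2 ≤ (6 / N) ^ 2 := by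
    intro u1 u2 hu1 hu2
    have h4 : |u1| ≤ N := abs_le_of_sq_le_sq hu1 hN.le
    have h5 : |N * u2| ≤ 3 := by
      have : (N * u2) ^ 2 ≤ 3 ^ 2 := by
        rw [mul_pow]
        linarith
      exact abs_le_of_sq_le_sq this (by norm_num)
    have h6 : |N * (n * u1)| ≤ 1 := by
      rw [abs_mul, abs_mul, abs_of_pos hN, abs_of_nonneg hn0]
      calc N * (n * |u1|) ≤ N * (n * N) := by gcongr
        _ = n * N ^ 2 := by ring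
        _ ≤ 1 := hn
    have h7 : |N * (u2 + n * u1)| ≤ 4 := by
      calc |N * (u2 + n * u1)| = |N * u2 + N * (n * u1)| := by ring_nf
        _ ≤ |N * u2| + |N * (n * u1)| := abs_add_le _ _
        _ ≤ 4 := by linarith
    have h8 : (N * (u2 + n * u1)) ^ 2 ≤ 4 ^ 2 := by
      rw [← sq_abs]
      exact pow_le_pow_left₀ (abs_nonneg _) h7 2
    rw [div_pow, le_div_iff₀ hN2]
    rw [mul_pow] at h8
    linarith
  constructor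
  · refine key X1 X2 (le_trans (le_add_of_nonneg_right (sq_nonneg Y1)) h2) ?_
    have := mul_nonneg hN2.le (sq_nonneg Y2)
    linarith
  · refine key Y1 Y2 (le_trans (le_add_of_nonneg_left (sq_nonneg X1)) h2) ?_
    have := mul_nonneg hN2.le (sq_nonneg X2)
    linarith

theorem D2_ne_zero_left {v1 v2 : ℤ × ℤ} (hdet : v1.1 * v2.2 - v2.1 * v1.2 = 1) : v1 ≠ 0 := by
  rintro rfl
  simp at hdet

theorem D2_ne_zero_right {v1 v2 : ℤ × ℤ} (hdet : v1.1 * v2.2 - v2.1 * v1.2 = 1) : v2 ≠ 0 := by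
  rintro rfl
  simp at hdet

/-- Case A: the second coordinate of `v1` is large. -/
theorem family_A (A N : ℝ) (hA : 1 ≤ A) (hN : 0 < N) (hN2 : N ≤ 2) (x y : ℤ)
    (hx : A ^ 2 ≤ (x : ℝ)) (hirr : ∀ v : ℤ × ℤ, v ≠ 0 → T3 x y v v v ≠ 0)
    (v1 v2 : ℤ × ℤ) (hdet : v1.1 * v2.2 - v2.1 * v1.2 = 1)
    (h1 : N ^ 2 / 4 < Qn A x v1) (h2 : Qn A x v1 ≤ N ^ 2) (h3 : Qn A x v1 ≤ 2)
    (h12 : Qn A x v1 * Qn A x v2 ≤ 2)
    (hcase : Qn A x v1 ≤ 100 * ((v1.2 : ℝ) * A / √(x : ℝ)) ^ 2) (n : ℕ)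
    (hn : (n : ℝ) * N ^ 2 ≤ 1) :
    IsW A N (6 / N) x y v1 (v2 + (n : ℤ) • v1) := by
  have hA0 : 0 < A := lt_of_lt_of_le one_pos hA
  have hs : A ≤ √(x : ℝ) := Real.le_sqrt_of_sq_le hx
  have hs0 : 0 < √(x : ℝ) := lt_of_lt_of_le hA0 hs
  have hdet' : v1.1 * (v2 + (n : ℤ) • v1).2 - (v2 + (n : ℤ) • v1).1 * v1.2 = 1 := by
    simp only [Prod.fst_add, Prod.snd_add, Prod.smul_fst, Prod.smul_snd, smul_eq_mul]
    linear_combination hdet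
  have hnorm := D2_norm2 N (ee x v1 * √(x : ℝ) / A) ((v1.2 : ℝ) * A / √(x : ℝ))
    (ee x v2 * √(x : ℝ) / A) ((v2.2 : ℝ) * A / √(x : ℝ)) n hN (Nat.cast_nonneg _) hn h1 h2 h12
  have hX : ee x v2 * √(x : ℝ) / A + n * (ee x v1 * √(x : ℝ) / A) =
      ee x (v2 + (n : ℤ) • v1) * √(x : ℝ) / A := by
    simp only [ee, Prod.fst_add, Prod.snd_add, Prod.smul_fst, Prod.smul_snd, smul_eq_mul]
    push_cast
    ring
  have hY : (v2.2 : ℝ) * A / √(x : ℝ) + n * ((v1.2 : ℝ) * A / √(x : ℝ)) =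
      (((v2 + (n : ℤ) • v1).2 : ℤ) : ℝ) * A / √(x : ℝ) := by
    simp only [Prod.snd_add, Prod.smul_snd, smul_eq_mul]
    push_cast
    ring
  rw [hX, hY] at hnorm
  have hQ : Qn A x v1 = (ee x v1 * √(x : ℝ) / A) ^ 2 + ((v1.2 : ℝ) * A / √(x : ℝ)) ^ 2 := rfl
  refine ⟨hdet', ?_, ?_, ?_, ?_, ?_, ?_, ?_⟩
  · refine D2_X_le A _ hA0 hs0 _ N hN.le ?_
    have := sq_nonneg ((v1.2 : ℝ) * A / √(x : ℝ))
    linarith
  · refine D2_Y_le A _ hA0 hs0 _ N hN.le ?_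
    have := sq_nonneg (ee x v1 * √(x : ℝ) / A)
    linarith
  · exact D2_X_le A _ hA0 hs0 _ (6 / N) (by positivity) hnorm.1
  · exact D2_Y_le A _ hA0 hs0 _ (6 / N) (by positivity) hnorm.2
  · have h4 : N ^ 2 ≤ (20 * ((v1.2 : ℝ) * A / √(x : ℝ))) ^ 2 := by nlinarith
    have h5 := sq_le_sq.1 h4
    rw [abs_of_pos hN, abs_mul, abs_div, abs_mul, abs_of_pos hA0, abs_of_pos hs0,
      abs_of_pos (by norm_num : (0 : ℝ) < 20)] at h5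
    rw [← mul_div_assoc, le_div_iff₀ hs0] at h5
    linarith
  · exact hirr _ (D2_ne_zero_left hdet)
  · exact hirr _ (D2_ne_zero_right hdet')

/-- Case B: the second coordinate of `v1` is small. -/
theorem family_B (A N : ℝ) (hA : 1 ≤ A) (hN : 0 < N) (hN2 : N ≤ 2) (x y : ℤ)
    (hx : A ^ 2 ≤ (x : ℝ)) (hirr : ∀ v : ℤ × ℤ, v ≠ 0 → T3 x y v v v ≠ 0)
    (v1 v2 : ℤ × ℤ) (hdet : v1.1 * v2.2 - v2.1 * v1.2 = 1)
    (h1 : N ^ 2 / 4 < Qn A x v1) (h2 : Qn A x v1 ≤ N ^ 2) (h3 : Qn A x v1 ≤ 2)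
    (h12 : Qn A x v1 * Qn A x v2 ≤ 2)
    (hcase : 100 * ((v1.2 : ℝ) * A / √(x : ℝ)) ^ 2 < Qn A x v1) (n : ℕ)
    (hn : (n : ℝ) * N ^ 2 ≤ 1) :
    IsW A (6 / N) N x y (v2 + (n : ℤ) • v1) (-v1) := by
  have hA0 : 0 < A := lt_of_lt_of_le one_pos hA
  have hs : A ≤ √(x : ℝ) := Real.le_sqrt_of_sq_le hx
  have hs0 : 0 < √(x : ℝ) := lt_of_lt_of_le hA0 hs
  have hdet' : (v2 + (n : ℤ) • v1).1 * (-v1).2 - (-v1).1 * (v2 + (n : ℤ) • v1).2 = 1 := by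
    simp only [Prod.fst_add, Prod.snd_add, Prod.smul_fst, Prod.smul_snd, smul_eq_mul,
      Prod.fst_neg, Prod.snd_neg]
    linear_combination hdet
  have hnorm := D2_norm2 N (ee x v1 * √(x : ℝ) / A) ((v1.2 : ℝ) * A / √(x : ℝ))
    (ee x v2 * √(x : ℝ) / A) ((v2.2 : ℝ) * A / √(x : ℝ)) n hN (Nat.cast_nonneg _) hn h1 h2 h12
  have hX : ee x v2 * √(x : ℝ) / A + n * (ee x v1 * √(x : ℝ) / A) =
      ee x (v2 + (n : ℤ) • v1) * √(x : ℝ) / A := by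
    simp only [ee, Prod.fst_add, Prod.snd_add, Prod.smul_fst, Prod.smul_snd, smul_eq_mul]
    push_cast
    ring
  have hY : (v2.2 : ℝ) * A / √(x : ℝ) + n * ((v1.2 : ℝ) * A / √(x : ℝ)) =
      (((v2 + (n : ℤ) • v1).2 : ℤ) : ℝ) * A / √(x : ℝ) := by
    simp only [Prod.snd_add, Prod.smul_snd, smul_eq_mul]
    push_cast
    ring
  have hQ : Qn A x v1 = (ee x v1 * √(x : ℝ) / A) ^ 2 + ((v1.2 : ℝ) * A / √(x : ℝ)) ^ 2 := rfl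
  have hQ' : Qn A x v2 = (ee x v2 * √(x : ℝ) / A) ^ 2 + ((v2.2 : ℝ) * A / √(x : ℝ)) ^ 2 := rfl
  -- the lower bound
  have hdetR : (ee x v1 * √(x : ℝ) / A) * ((v2.2 : ℝ) * A / √(x : ℝ)) -
      (ee x v2 * √(x : ℝ) / A) * ((v1.2 : ℝ) * A / √(x : ℝ)) = 1 := by
    have h4 : (v1.1 : ℝ) * v2.2 - v2.1 * v1.2 = 1 := by exact_mod_cast hdet
    unfold ee
    field_simp
    linear_combination h4
  have hlow : ∀ X1 Y1 X2 Y2 : ℝ, X1 * Y2 - X2 * Y1 = 1 → X1 ^ 2 + Y1 ^ 2 ≤ N ^ 2 →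
      100 * Y1 ^ 2 < X1 ^ 2 + Y1 ^ 2 → (X1 ^ 2 + Y1 ^ 2) * (X2 ^ 2 + Y2 ^ 2) ≤ 2 →
      6 / N ≤ 20 * |Y2 + n * Y1| := by
    intro X1 Y1 X2 Y2 hd hq hc hqq
    have hn0 : (0 : ℝ) ≤ n := Nat.cast_nonneg _
    -- `|X2 Y1| ≤ √2 / 10`
    have h5 : |X2 * Y1| ≤ 1 / 5 := by
      have : (X2 * Y1) ^ 2 ≤ (1 / 5) ^ 2 := by
        have h6a : X2 ^ 2 ≤ X2 ^ 2 + Y2 ^ 2 := le_add_of_nonneg_right (sq_nonneg Y2)
        have h6 : X2 ^ 2 * (100 * Y1 ^ 2) ≤ (X2 ^ 2 + Y2 ^ 2) * (X1 ^ 2 + Y1 ^ 2) :=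
          mul_le_mul h6a hc.le (by positivity) (by positivity)
        have h6b : (X2 ^ 2 + Y2 ^ 2) * (X1 ^ 2 + Y1 ^ 2) ≤ 2 := by
          rw [mul_comm]; exact hqq
        have h6c : X2 ^ 2 * (100 * Y1 ^ 2) = 100 * (X2 * Y1) ^ 2 := by ring
        rw [h6c] at h6
        linarith
      exact abs_le_of_sq_le_sq this (by norm_num)
    have hXN : |X1| ≤ N := by
      have h6 : X1 ^ 2 ≤ N ^ 2 := le_trans (le_add_of_nonneg_right (sq_nonneg Y1)) hq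
      exact abs_le_of_sq_le_sq h6 hN.le
    have hYN : |Y1| ≤ N / 10 := by
      have : Y1 ^ 2 ≤ (N / 10) ^ 2 := by
        rw [div_pow]
        linarith
      exact abs_le_of_sq_le_sq this (by positivity)
    have h7 : |n * X1 * Y1| ≤ 1 / 10 := by
      rw [abs_mul, abs_mul, abs_of_nonneg hn0]
      calc (n : ℝ) * |X1| * |Y1| ≤ n * N * (N / 10) := by gcongr
        _ = n * N ^ 2 / 10 := by ring
        _ ≤ 1 / 10 := by linarith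
    have h8 : X1 * (Y2 + n * Y1) = 1 + X2 * Y1 + n * X1 * Y1 := by linear_combination hd
    have h9 : 7 / 10 ≤ |X1 * (Y2 + n * Y1)| := by
      rw [h8]
      refine le_trans ?_ (le_abs_self _)
      have := (abs_le.1 h5).1
      have := (abs_le.1 h7).1
      linarith
    have h10 : |X1 * (Y2 + n * Y1)| ≤ N * |Y2 + n * Y1| := by
      rw [abs_mul]
      exact mul_le_mul_of_nonneg_right hXN (abs_nonneg _)
    rw [div_le_iff₀ hN]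
    linarith
  have hlow' := hlow _ _ _ _ hdetR h2 hcase h12
  rw [hX, hY] at hnorm
  rw [hY] at hlow'
  refine ⟨hdet', ?_, ?_, ?_, ?_, ?_, ?_, ?_⟩
  · exact D2_X_le A _ hA0 hs0 _ (6 / N) (by positivity) hnorm.1
  · exact D2_Y_le A _ hA0 hs0 _ (6 / N) (by positivity) hnorm.2
  · have h4 : ee x (-v1) = -ee x v1 := by
      simp only [ee, Prod.fst_neg, Prod.snd_neg]
      push_cast
      ring
    rw [h4, abs_neg]
    refine D2_X_le A _ hA0 hs0 _ N hN.le ?_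
    have := sq_nonneg ((v1.2 : ℝ) * A / √(x : ℝ))
    linarith
  · rw [Prod.snd_neg, Int.cast_neg, abs_neg]
    refine D2_Y_le A _ hA0 hs0 _ N hN.le ?_
    have := sq_nonneg (ee x v1 * √(x : ℝ) / A)
    linarith
  · rw [abs_div, abs_mul, abs_of_pos hA0, abs_of_pos hs0, ← mul_div_assoc, le_div_iff₀ hs0] at hlow'
    linarith
  · exact hirr _ (D2_ne_zero_left hdet')
  · exact hirr _ (D2_ne_zero_right hdet')

end LibHall
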