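import Mathlib

set_option autoImplicit false

namespace LibHall

/-- Multiplicity of the types: the abstract counting lemma. -/
theorem mult_count {α β : Type} [DecidableEq α] [DecidableEq β] (T : Finset α) (N B : ℝ)
    (hN : 0 < N) (F : α → ℕ → β)
    (hF : ∀ p ∈ T, ∀ n n' : ℕ, F p n = F p n' → n = n')
    (hB : ∀ S : Finset (α × β), (∀ s ∈ S, s.1 ∈ T ∧ ∃ n : ℕ, (n : ℝ) * N ^ 2 ≤ 1 ∧ s.2 = F s.1 n) →
      (S.card : ℝ) ≤ B) :
    (T.card : ℝ) ≤ N ^ 2 * B := by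
  classical
  have hN2 : 0 < N ^ 2 := by positivity
  set M : ℕ := ⌊(N ^ 2)⁻¹⌋₊ with hM
  set S : Finset (α × β) := (T ×ˢ Finset.range (M + 1)).image (fun q => (q.1, F q.1 q.2)) with hS
  have hcard : S.card = T.card * (M + 1) := by
    rw [hS, Finset.card_image_of_injOn, Finset.card_product, Finset.card_range]
    rintro ⟨p, n⟩ hp ⟨p', n'⟩ hp' h
    have h1 : p = p' := congrArg Prod.fst h
    have h2 : F p n = F p' n' := congrArg Prod.snd h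
    subst h1
    have hpT : p ∈ T := (Finset.mem_product.1 (Finset.mem_coe.1 hp)).1
    rw [hF p hpT n n' h2]
  have hle : (S.card : ℝ) ≤ B := by
    apply hB
    intro s hs
    rw [hS, Finset.mem_image] at hs
    obtain ⟨⟨p, n⟩, hpn, rfl⟩ := hs
    rw [Finset.mem_product, Finset.mem_range] at hpn
    refine ⟨hpn.1, n, ?_, rfl⟩
    have h1 : (n : ℝ) ≤ (N ^ 2)⁻¹ := by
      have h2 : n ≤ M := Nat.lt_succ_iff.1 hpn.2
      have h3 : ((M : ℕ) : ℝ) ≤ (N ^ 2)⁻¹ := Nat.floor_le (by positivity)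
      have h4 : (n : ℝ) ≤ (M : ℝ) := by exact_mod_cast h2
      linarith
    calc (n : ℝ) * N ^ 2 ≤ (N ^ 2)⁻¹ * N ^ 2 := mul_le_mul_of_nonneg_right h1 hN2.le
      _ = 1 := inv_mul_cancel₀ hN2.ne'
  rw [hcard] at hle
  push_cast at hle
  have h5 : (N ^ 2)⁻¹ ≤ (M : ℝ) + 1 := (Nat.lt_floor_add_one _).le
  have h6 : (T.card : ℝ) * (N ^ 2)⁻¹ ≤ B := by
    have : (0 : ℝ) ≤ (T.card : ℝ) := Nat.cast_nonneg _
    calc (T.card : ℝ) * (N ^ 2)⁻¹ ≤ (T.card : ℝ) * ((M : ℝ) + 1) :=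
          mul_le_mul_of_nonneg_left h5 this
      _ ≤ B := hle
  calc (T.card : ℝ) = N ^ 2 * ((T.card : ℝ) * (N ^ 2)⁻¹) := by field_simp
    _ ≤ N ^ 2 * B := mul_le_mul_of_nonneg_left h6 hN2.le

end LibHall
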