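import Pool.Agent.LibHall43.C3a
import Pool.Agent.LibHall43.C3b
import Pool.Agent.LibHall43.D1a
import Pool.Agent.LibHall43.D1b
import Pool.Agent.LibHall43.D2
import Pool.Agent.LibHall43.D3a

set_option autoImplicit false

namespace LibHall

theorem D3_x_ge {A : ℝ} (hA : 1 ≤ A) {C : ℕ} {x y : ℤ} (h : IsG A C x y) :
    A ^ 2 ≤ (x : ℝ) := by
  by_contra hcon
  push Not at hcon
  have hx0 : (0 : ℝ) < x := by exact_mod_cast h.1
  have h1 : (x : ℝ) ^ 5 < (A ^ 2) ^ 5 := pow_lt_pow_left₀ hcon hx0.le (by norm_num)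
  have h2 : (A ^ 2) ^ 5 ≤ A ^ 12 := by
    rw [← pow_mul]
    exact pow_le_pow_right₀ hA (by norm_num)
  have h3 := h.2.1
  linarith

theorem D3_index (Q : ℝ) (h0 : 0 < Q) (h2 : Q ≤ 2) :
    ∃ i : ℕ, (2 / 2 ^ i : ℝ) ^ 2 / 4 < Q ∧ Q ≤ (2 / 2 ^ i : ℝ) ^ 2 := by
  have h1 : 1 ≤ 4 / Q := by
    rw [le_div_iff₀ h0]; linarith
  obtain ⟨i, hi1, hi2⟩ := exists_nat_pow_near h1 (by norm_num : (1 : ℝ) < 4)
  have e : ((2 : ℝ) ^ i) ^ 2 = 4 ^ i := by
    rw [← pow_mul, mul_comm, pow_mul]; norm_num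
  have h4 : (0 : ℝ) < 4 ^ i := by positivity
  refine ⟨i, ?_, ?_⟩
  · rw [div_pow, e]
    rw [div_lt_iff₀ h0, pow_succ] at hi2
    rw [div_div, div_lt_iff₀ (by positivity)]
    nlinarith
  · rw [div_pow, e]
    rw [le_div_iff₀ h0] at hi1
    rw [le_div_iff₀ h4]
    nlinarith

theorem D3_Q_ge {A : ℝ} (hA : 1 ≤ A) {C : ℕ} {x y : ℤ} (h : IsG A C x y) (v : ℤ × ℤ)
    (hQ : 0 < Qn A x v) (hT : T3 x y v v v ≠ 0) : 1 ≤ 6 * A * Qn A x v ∨ 1 ≤ Qn A x v := by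
  by_cases hq : 1 ≤ Qn A x v
  · exact Or.inr hq
  left
  push Not at hq
  have hx : A ^ 2 ≤ (x : ℝ) := D3_x_ge hA h
  have hx0 : (0 : ℝ) < x := by exact_mod_cast h.1
  have hs : 0 < √(x : ℝ) := Real.sqrt_pos.2 hx0
  have hA0 : 0 < A := by linarith
  set ρ := √(Qn A x v) with hρ
  have hρ2 : ρ ^ 2 = Qn A x v := Real.sq_sqrt hQ.le
  have hρ0 : 0 ≤ ρ := Real.sqrt_nonneg _
  have h1 : |ee x v| * √(x : ℝ) ≤ ρ * A := by
    have : |ee x v * √(x : ℝ) / A| ≤ ρ := by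
      rw [hρ]
      apply Real.abs_le_sqrt
      unfold Qn
      nlinarith [sq_nonneg ((v.2 : ℝ) * A / √(x : ℝ))]
    rw [abs_div, abs_mul, abs_of_pos hs, abs_of_pos hA0, div_le_iff₀ hA0] at this
    exact this
  have h2 : |(v.2 : ℝ)| * A ≤ ρ * √(x : ℝ) := by
    have : |(v.2 : ℝ) * A / √(x : ℝ)| ≤ ρ := by
      rw [hρ]
      apply Real.abs_le_sqrt
      unfold Qn
      nlinarith [sq_nonneg (ee x v * √(x : ℝ) / A)]
    rw [abs_div, abs_mul, abs_of_pos hs, abs_of_pos hA0, div_le_iff₀ hs] at this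
    exact this
  have h3 := T3_bound A hA C x y h v v v ρ ρ ρ hρ0 hρ0 hρ0 h1 h2 h1 h2 h1 h2
  have h4 : (1 : ℝ) ≤ |(T3 x y v v v : ℝ)| := by
    have : (1 : ℤ) ≤ |T3 x y v v v| := Int.one_le_abs hT
    exact_mod_cast this
  have h5 : ρ * ρ * ρ ≤ ρ ^ 2 := by
    have : ρ ≤ 1 := by
      rw [hρ]
      exact Real.sqrt_le_one.2 hq.le
    nlinarith [mul_nonneg hρ0 hρ0]
  rw [← hρ2]
  calc (1 : ℝ) ≤ 6 * A * (ρ * ρ * ρ) := le_trans h4 h3
    _ ≤ 6 * A * ρ ^ 2 := by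
      apply mul_le_mul_of_nonneg_left h5
      positivity

theorem D3_rpow_le (y : ℝ) (hy : 1 ≤ y) : y ^ (0.915 : ℝ) ≤ y := by
  calc y ^ (0.915 : ℝ) ≤ y ^ (1 : ℝ) := Real.rpow_le_rpow_of_exponent_le hy (by norm_num)
    _ = y := Real.rpow_one y

theorem D3_boundA (A N : ℝ) (hA : 1 ≤ A) (hN : 0 < N) (hN2 : N ≤ 2) :
    N ^ 2 * (10 ^ 8 * A ^ 3 * N ^ 3 * (A * (6 / N) ^ 3) ^ (0.915 : ℝ))
      ≤ 10 ^ 12 * A ^ (3.915 : ℝ) := by
  have hA0 : 0 < A := by linarith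
  have h6 : 0 < (6 / N) ^ 3 := by positivity
  have h7 : 1 ≤ (6 / N) ^ 3 := by
    apply one_le_pow₀
    rw [le_div_iff₀ hN]; linarith
  rw [Real.mul_rpow hA0.le h6.le]
  have e1 : A ^ (3.915 : ℝ) = A ^ 3 * A ^ (0.915 : ℝ) := by
    rw [← Real.rpow_natCast, ← Real.rpow_add hA0]; norm_num
  rw [e1]
  have h8 := D3_rpow_le _ h7
  have h9 : N ^ 5 * ((6 / N) ^ 3) ^ (0.915 : ℝ) ≤ 1000 := by
    calc N ^ 5 * ((6 / N) ^ 3) ^ (0.915 : ℝ) ≤ N ^ 5 * (6 / N) ^ 3 := by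
          apply mul_le_mul_of_nonneg_left h8; positivity
      _ = 216 * N ^ 2 := by field_simp; norm_num
      _ ≤ 1000 := by nlinarith
  have hp : 0 ≤ A ^ 3 * A ^ (0.915 : ℝ) := by positivity
  calc N ^ 2 * (10 ^ 8 * A ^ 3 * N ^ 3 * (A ^ (0.915 : ℝ) * ((6 / N) ^ 3) ^ (0.915 : ℝ)))
      = 10 ^ 8 * (N ^ 5 * ((6 / N) ^ 3) ^ (0.915 : ℝ)) * (A ^ 3 * A ^ (0.915 : ℝ)) := by ring
    _ ≤ 10 ^ 8 * 1000 * (A ^ 3 * A ^ (0.915 : ℝ)) := by
      apply mul_le_mul_of_nonneg_right _ hp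
      apply mul_le_mul_of_nonneg_left h9
      norm_num
    _ ≤ 10 ^ 12 * (A ^ 3 * A ^ (0.915 : ℝ)) := by
      apply mul_le_mul_of_nonneg_right _ hp
      norm_num

theorem D3_boundB (A N : ℝ) (hA : 1 ≤ A) (hN : 0 < N) (hN2 : N ≤ 2) :
    N ^ 2 * (10 ^ 8 * A ^ 3 * (6 / N) ^ 3 * (A * N ^ 3) ^ (0.915 : ℝ))
      ≤ 10 ^ 12 * A ^ (3.915 : ℝ) := by
  have hA0 : 0 < A := by linarith
  have h6 : 0 < N ^ 3 := by positivity
  rw [Real.mul_rpow hA0.le h6.le]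
  have e1 : A ^ (3.915 : ℝ) = A ^ 3 * A ^ (0.915 : ℝ) := by
    rw [← Real.rpow_natCast, ← Real.rpow_add hA0]; norm_num
  rw [e1]
  have h9 : (N ^ 3) ^ (0.915 : ℝ) ≤ 8 * N := by
    rcases le_or_gt N 1 with h | h
    · have h1 : N ^ 3 ≤ 1 := pow_le_one₀ hN.le h
      calc (N ^ 3) ^ (0.915 : ℝ) ≤ (N ^ 3) ^ (1 / 3 : ℝ) :=
            Real.rpow_le_rpow_of_exponent_ge h6 h1 (by norm_num)
        _ = N := by
          rw [← Real.rpow_natCast N 3, ← Real.rpow_mul hN.le]; norm_num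
        _ ≤ 8 * N := by linarith
    · have h1 : 1 ≤ N ^ 3 := one_le_pow₀ h.le
      calc (N ^ 3) ^ (0.915 : ℝ) ≤ N ^ 3 := D3_rpow_le _ h1
        _ ≤ 8 * N := by nlinarith [mul_pos hN hN]
  have hp : 0 ≤ A ^ 3 * A ^ (0.915 : ℝ) := by positivity
  have hN' : N ≠ 0 := hN.ne'
  calc N ^ 2 * (10 ^ 8 * A ^ 3 * (6 / N) ^ 3 * (A ^ (0.915 : ℝ) * (N ^ 3) ^ (0.915 : ℝ)))
      = 10 ^ 8 * 216 * (1 / N * (N ^ 3) ^ (0.915 : ℝ)) * (A ^ 3 * A ^ (0.915 : ℝ)) := by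
        field_simp; ring
    _ ≤ 10 ^ 8 * 216 * 8 * (A ^ 3 * A ^ (0.915 : ℝ)) := by
      apply mul_le_mul_of_nonneg_right _ hp
      apply mul_le_mul_of_nonneg_left _ (by norm_num)
      calc 1 / N * (N ^ 3) ^ (0.915 : ℝ) ≤ 1 / N * (8 * N) := by
            apply mul_le_mul_of_nonneg_left h9; positivity
        _ = 8 := by field_simp
    _ ≤ 10 ^ 12 * (A ^ 3 * A ^ (0.915 : ℝ)) := by
      apply mul_le_mul_of_nonneg_right _ hp
      norm_num

theorem D3_boundB' (A N c : ℝ) (hA : 1 ≤ A) (hc : 0 < c) (hN : 0 < N)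
    (h : (A * N ^ 3) ^ 2 < A) :
    N ^ 2 * (c * A ^ 4 * Real.log A) ≤ c * Real.log A * A ^ (11 / 3 : ℝ) := by
  have hA0 : 0 < A := by linarith
  have hlog : 0 ≤ Real.log A := Real.log_nonneg hA
  have h1 : (N ^ 2) ^ 3 ≤ A⁻¹ := by
    rw [le_inv_comm₀ (by positivity) hA0]
    have h2 : A * (N ^ 2) ^ 3 * A ≤ A := by nlinarith
    have h3 : A * (N ^ 2) ^ 3 ≤ 1 := by
      by_contra hcon
      push Not at hcon
      nlinarith
    rw [le_inv_comm₀ hA0 (by positivity)]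
    rw [← one_div, le_div_iff₀ hA0]
    linarith
  have h4 : N ^ 2 ≤ (A⁻¹) ^ (1 / 3 : ℝ) := by
    have h5 : N ^ 2 = ((N ^ 2) ^ 3) ^ (1 / 3 : ℝ) := by
      rw [← Real.rpow_natCast (N ^ 2) 3, ← Real.rpow_mul (by positivity)]; norm_num
    rw [h5]
    exact Real.rpow_le_rpow (by positivity) h1 (by norm_num)
  have e1 : (A⁻¹) ^ (1 / 3 : ℝ) * A ^ 4 = A ^ (11 / 3 : ℝ) := by
    rw [Real.inv_rpow hA0.le, ← Real.rpow_neg hA0.le, ← Real.rpow_natCast A 4,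
      ← Real.rpow_add hA0]
    norm_num
  calc N ^ 2 * (c * A ^ 4 * Real.log A) ≤ (A⁻¹) ^ (1 / 3 : ℝ) * (c * A ^ 4 * Real.log A) := by
        apply mul_le_mul_of_nonneg_right h4; positivity
    _ = c * Real.log A * ((A⁻¹) ^ (1 / 3 : ℝ) * A ^ 4) := by ring
    _ = _ := by rw [e1]

theorem D3_smul_inj (v w : ℤ × ℤ) (hv : v ≠ 0) (n n' : ℕ)
    (h : w + (n : ℤ) • v = w + (n' : ℤ) • v) : n = n' := by
  have h1 : (n : ℤ) • v = (n' : ℤ) • v := add_left_cancel h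
  have h2 : ((n : ℤ) - n') • v = 0 := by rw [sub_smul, h1, sub_self]
  rcases smul_eq_zero.1 h2 with h3 | h3
  · omega
  · exact absurd h3 hv

/-- The number of irreducible pairs in the main range. -/
theorem good_count (C : ℕ) : ∃ A0 : ℝ, 1 < A0 ∧ ∀ A : ℝ, A0 ≤ A → ∀ G : Finset (ℤ × ℤ),
    (∀ p ∈ G, IsG A C p.1 p.2 ∧ ∀ r : ℤ, r ^ 3 - 3 * p.1 * r + 2 * p.2 ≠ 0) →
    (G.card : ℝ) ≤ A ^ (3.92 : ℝ) := by
  classical
  obtain ⟨A1, hA1, hW1⟩ := W_count C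
  obtain ⟨c, A2, hc, hA2, hW2⟩ := W_count_triv C
  -- asymptotic inequality
  have hev : ∀ᶠ A : ℝ in Filter.atTop,
      (Real.log A + 10) * (2 * (10 ^ 12 * A ^ (3.915 : ℝ)) + c * Real.log A * A ^ (11 / 3 : ℝ))
        ≤ A ^ (3.92 : ℝ) := by
    have h1 : ∀ᶠ A : ℝ in Filter.atTop, Real.log A ≤ A ^ (0.001 : ℝ) := by
      have := (isLittleO_log_rpow_atTop (by norm_num : (0 : ℝ) < 0.001)).bound
        (by norm_num : (0 : ℝ) < 1)
      filter_upwards [this, Filter.eventually_ge_atTop (1 : ℝ)] with A hA h1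
      rw [one_mul, Real.norm_of_nonneg (Real.log_nonneg h1),
        Real.norm_of_nonneg (by positivity)] at hA
      exact hA
    have h2 : ∀ᶠ A : ℝ in Filter.atTop, 22 * (2 * 10 ^ 12 + c) ≤ A ^ (0.001 : ℝ) :=
      (tendsto_rpow_atTop (by norm_num : (0 : ℝ) < 0.001)).eventually_ge_atTop _
    filter_upwards [h1, h2, Filter.eventually_ge_atTop (1 : ℝ)] with A h3 h4 h5
    have hA0 : 0 < A := by linarith
    have hlog : 0 ≤ Real.log A := Real.log_nonneg h5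
    have hε : 1 ≤ A ^ (0.001 : ℝ) := Real.one_le_rpow h5 (by norm_num)
    have e1 : A ^ (0.001 : ℝ) * A ^ (11 / 3 : ℝ) ≤ A ^ (3.915 : ℝ) := by
      rw [← Real.rpow_add hA0]
      exact Real.rpow_le_rpow_of_exponent_le h5 (by norm_num)
    have e2 : Real.log A + 10 ≤ 11 * A ^ (0.001 : ℝ) := by linarith
    have e3 : c * Real.log A * A ^ (11 / 3 : ℝ) ≤ c * A ^ (3.915 : ℝ) := by
      calc c * Real.log A * A ^ (11 / 3 : ℝ) ≤ c * A ^ (0.001 : ℝ) * A ^ (11 / 3 : ℝ) := by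
            apply mul_le_mul_of_nonneg_right _ (by positivity)
            apply mul_le_mul_of_nonneg_left h3 hc.le
        _ = c * (A ^ (0.001 : ℝ) * A ^ (11 / 3 : ℝ)) := by ring
        _ ≤ c * A ^ (3.915 : ℝ) := mul_le_mul_of_nonneg_left e1 hc.le
    have e4 : A ^ (0.001 : ℝ) * A ^ (0.001 : ℝ) * A ^ (3.915 : ℝ) ≤ A ^ (3.92 : ℝ) := by
      rw [← Real.rpow_add hA0, ← Real.rpow_add hA0]
      exact Real.rpow_le_rpow_of_exponent_le h5 (by norm_num)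
    calc (Real.log A + 10) *
        (2 * (10 ^ 12 * A ^ (3.915 : ℝ)) + c * Real.log A * A ^ (11 / 3 : ℝ))
        ≤ (11 * A ^ (0.001 : ℝ)) * (2 * (10 ^ 12 * A ^ (3.915 : ℝ)) + c * A ^ (3.915 : ℝ)) := by
          apply mul_le_mul e2 _ (by positivity) (by positivity)
          linarith
      _ = (11 * (2 * 10 ^ 12 + c)) * A ^ (0.001 : ℝ) * A ^ (3.915 : ℝ) := by ring
      _ ≤ A ^ (0.001 : ℝ) * A ^ (0.001 : ℝ) * A ^ (3.915 : ℝ) := by
          apply mul_le_mul_of_nonneg_right _ (by positivity)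
          apply mul_le_mul_of_nonneg_right _ (by positivity)
          linarith
      _ ≤ A ^ (3.92 : ℝ) := e4
  obtain ⟨A3, hA3⟩ := Filter.eventually_atTop.1 hev
  refine ⟨max (max A1 A2) (max A3 100), lt_of_lt_of_le hA1 (le_trans (le_max_left _ _)
    (le_max_left _ _)), ?_⟩
  intro A hA G hG
  have hAA1 : A1 ≤ A := le_trans (le_trans (le_max_left _ _) (le_max_left _ _)) hA
  have hAA2 : A2 ≤ A := le_trans (le_trans (le_max_right _ _) (le_max_left _ _)) hA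
  have hAA3 : A3 ≤ A := le_trans (le_trans (le_max_left _ _) (le_max_right _ _)) hA
  have hA100 : 100 ≤ A := le_trans (le_trans (le_max_right _ _) (le_max_right _ _)) hA
  have hA1' : (1 : ℝ) ≤ A := by linarith
  have hA0 : (0 : ℝ) < A := by linarith
  -- the basis
  have hbasis : ∀ p : ℤ × ℤ, p ∈ G → ∃ v1 v2 : ℤ × ℤ, v1.1 * v2.2 - v2.1 * v1.2 = 1 ∧
      0 < Qn A p.1 v1 ∧ Qn A p.1 v1 ≤ 2 ∧ Qn A p.1 v1 * Qn A p.1 v2 ≤ 2 := by
    intro p hp
    exact exists_basis A hA1' p.1 (D3_x_ge hA1' (hG p hp).1)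
  choose! v1 v2 hv using hbasis
  have hidx : ∀ p : ℤ × ℤ, p ∈ G → ∃ i : ℕ, (2 / 2 ^ i : ℝ) ^ 2 / 4 < Qn A p.1 (v1 p) ∧
      Qn A p.1 (v1 p) ≤ (2 / 2 ^ i : ℝ) ^ 2 := by
    intro p hp
    exact D3_index _ (hv p hp).2.1 (hv p hp).2.2.1
  choose! idx hidx using hidx
  have hirr : ∀ p ∈ G, ∀ v : ℤ × ℤ, v ≠ 0 → T3 p.1 p.2 v v v ≠ 0 := by
    intro p hp v hv0
    exact T3_ne_zero p.1 p.2 (hG p hp).2 v hv0
  have hv1ne : ∀ p ∈ G, v1 p ≠ 0 := by
    intro p hp h0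
    have := (hv p hp).1
    rw [h0] at this
    simp at this
  set I : ℕ := ⌊Real.log A + 8⌋₊ with hI
  have hidxle : ∀ p ∈ G, idx p ∈ Finset.range (I + 1) := by
    intro p hp
    rw [Finset.mem_range, Nat.lt_succ_iff, hI]
    apply Nat.le_floor
    have h1 := (hidx p hp).2
    have h2 := D3_Q_ge hA1' (hG p hp).1 (v1 p) (hv p hp).2.1 (hirr p hp _ (hv1ne p hp))
    have h3 : 1 ≤ 6 * A * Qn A p.1 (v1 p) := by
      rcases h2 with h2 | h2
      · exact h2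
      · nlinarith
    have e : ((2 : ℝ) / 2 ^ (idx p)) ^ 2 = 4 / 4 ^ (idx p) := by
      rw [div_pow, ← pow_mul, mul_comm, pow_mul]; norm_num
    rw [e] at h1
    have h4 : (0 : ℝ) < 4 ^ (idx p) := by positivity
    have h5 : (4 : ℝ) ^ (idx p) ≤ 24 * A := by
      have h6 : 1 ≤ 6 * A * (4 / 4 ^ (idx p)) := by
        apply le_trans h3
        apply mul_le_mul_of_nonneg_left h1
        positivity
      rw [← mul_div_assoc, le_div_iff₀ h4] at h6
      linarith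
    have h7 : Real.log ((4 : ℝ) ^ (idx p)) ≤ Real.log (24 * A) := Real.log_le_log h4 h5
    rw [Real.log_pow, Real.log_mul (by norm_num) hA0.ne'] at h7
    have h8 : (1 : ℝ) ≤ Real.log 4 := by
      have : Real.log 4 = 2 * Real.log 2 := by
        rw [show (4 : ℝ) = 2 ^ 2 by norm_num, Real.log_pow]; norm_num
      have h9 := Real.log_two_gt_d9
      linarith
    have h10 : Real.log 24 ≤ 8 := by
      have h11 : Real.log 24 ≤ Real.log 32 := Real.log_le_log (by norm_num) (by norm_num)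
      have h12 : Real.log 32 = 5 * Real.log 2 := by
        rw [show (32 : ℝ) = 2 ^ 5 by norm_num, Real.log_pow]; norm_num
      have h13 := Real.log_two_lt_d9
      linarith
    have h14 : ((idx p : ℕ) : ℝ) ≤ (idx p : ℝ) * Real.log 4 := by
      have : (0 : ℝ) ≤ (idx p : ℝ) := Nat.cast_nonneg _
      nlinarith
    linarith
  -- the two cases
  set PA : ℤ × ℤ → Prop := fun p =>
    Qn A p.1 (v1 p) ≤ 100 * (((v1 p).2 : ℝ) * A / √(p.1 : ℝ)) ^ 2 with hPA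
  have hTA : ∀ i : ℕ, (((G.filter (fun p => idx p = i)).filter PA).card : ℝ)
      ≤ 10 ^ 12 * A ^ (3.915 : ℝ) := by
    intro i
    have hN : (0 : ℝ) < 2 / 2 ^ i := by positivity
    have hN2 : (2 / 2 ^ i : ℝ) ≤ 2 := by
      rw [div_le_iff₀ (by positivity)]
      have : (1 : ℝ) ≤ 2 ^ i := one_le_pow₀ (by norm_num)
      linarith
    have hmul := mult_count ((G.filter (fun p => idx p = i)).filter PA) (2 / 2 ^ i : ℝ)
      (10 ^ 8 * A ^ 3 * (2 / 2 ^ i : ℝ) ^ 3 * (A * (6 / (2 / 2 ^ i : ℝ)) ^ 3) ^ (0.915 : ℝ)) hN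
      (fun p n => (v1 p, v2 p + (n : ℤ) • v1 p)) (by
        intro p hp n n' h
        have hpG : p ∈ G := (Finset.mem_filter.1 (Finset.mem_filter.1 hp).1).1
        have h2 := congrArg Prod.snd h
        exact D3_smul_inj (v1 p) (v2 p) (hv1ne p hpG) n n' h2) (by
        intro S hS
        apply hW1 A hAA1 (2 / 2 ^ i : ℝ) (6 / (2 / 2 ^ i : ℝ)) hN (by positivity)
          (by field_simp)
        · have h1 : (3 : ℝ) ≤ 6 / (2 / 2 ^ i : ℝ) := by
            rw [le_div_iff₀ hN]; linarith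
          have h2 : (27 : ℝ) ≤ (6 / (2 / 2 ^ i : ℝ)) ^ 3 := by
            calc (27 : ℝ) = 3 ^ 3 := by norm_num
              _ ≤ _ := pow_le_pow_left₀ (by norm_num) h1 3
          have h3 : A ≤ A * (6 / (2 / 2 ^ i : ℝ)) ^ 3 := by nlinarith
          nlinarith
        · intro s hs
          obtain ⟨hs1, n, hn, hs2⟩ := hS s hs
          have hs1' := (Finset.mem_filter.1 hs1)
          have hs1'' := (Finset.mem_filter.1 hs1'.1)
          have hpG := hs1''.1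
          refine ⟨(hG _ hpG).1, ?_⟩
          rw [hs2]
          have hii : idx s.1 = i := hs1''.2
          have hb := hidx _ hpG
          rw [hii] at hb
          exact family_A A (2 / 2 ^ i) hA1' hN hN2 s.1.1 s.1.2 (D3_x_ge hA1' (hG _ hpG).1)
            (hirr _ hpG) (v1 s.1) (v2 s.1) (hv _ hpG).1 hb.1 hb.2 (hv _ hpG).2.2.1
            (hv _ hpG).2.2.2 hs1'.2 n hn)
    exact le_trans hmul (D3_boundA A _ hA1' hN hN2)
  have hTB : ∀ i : ℕ, (((G.filter (fun p => idx p = i)).filter (fun p => ¬ PA p)).card : ℝ)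
      ≤ 10 ^ 12 * A ^ (3.915 : ℝ) + c * Real.log A * A ^ (11 / 3 : ℝ) := by
    intro i
    have hN : (0 : ℝ) < 2 / 2 ^ i := by positivity
    have hN2 : (2 / 2 ^ i : ℝ) ≤ 2 := by
      rw [div_le_iff₀ (by positivity)]
      have : (1 : ℝ) ≤ 2 ^ i := one_le_pow₀ (by norm_num)
      linarith
    have hlog : 0 ≤ Real.log A := Real.log_nonneg hA1'
    have hfam : ∀ S : Finset ((ℤ × ℤ) × (ℤ × ℤ) × (ℤ × ℤ)), (∀ s ∈ S,
        s.1 ∈ ((G.filter (fun p => idx p = i)).filter (fun p => ¬ PA p)) ∧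
        ∃ n : ℕ, (n : ℝ) * (2 / 2 ^ i : ℝ) ^ 2 ≤ 1 ∧
          s.2 = (v2 s.1 + (n : ℤ) • v1 s.1, -(v1 s.1))) →
        ∀ s ∈ S, IsG A C s.1.1 s.1.2 ∧
          IsW A (6 / (2 / 2 ^ i : ℝ)) (2 / 2 ^ i : ℝ) s.1.1 s.1.2 s.2.1 s.2.2 := by
      intro S hS s hs
      obtain ⟨hs1, n, hn, hs2⟩ := hS s hs
      have hs1' := (Finset.mem_filter.1 hs1)
      have hs1'' := (Finset.mem_filter.1 hs1'.1)
      have hpG := hs1''.1
      refine ⟨(hG _ hpG).1, ?_⟩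
      rw [hs2]
      have hii : idx s.1 = i := hs1''.2
      have hb := hidx _ hpG
      rw [hii] at hb
      have hnot := hs1'.2
      rw [hPA] at hnot
      simp only [not_le] at hnot
      exact family_B A (2 / 2 ^ i) hA1' hN hN2 s.1.1 s.1.2 (D3_x_ge hA1' (hG _ hpG).1)
        (hirr _ hpG) (v1 s.1) (v2 s.1) (hv _ hpG).1 hb.1 hb.2 (hv _ hpG).2.2.1
        (hv _ hpG).2.2.2 hnot n hn
    have hinj : ∀ p ∈ ((G.filter (fun p => idx p = i)).filter (fun p => ¬ PA p)), ∀ n n' : ℕ,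
        (fun (p : ℤ × ℤ) (n : ℕ) => (v2 p + (n : ℤ) • v1 p, -(v1 p))) p n =
        (fun (p : ℤ × ℤ) (n : ℕ) => (v2 p + (n : ℤ) • v1 p, -(v1 p))) p n' → n = n' := by
      intro p hp n n' h
      have hpG : p ∈ G := (Finset.mem_filter.1 (Finset.mem_filter.1 hp).1).1
      have h2 := congrArg Prod.fst h
      exact D3_smul_inj (v1 p) (v2 p) (hv1ne p hpG) n n' h2
    have hpos1 : 0 ≤ c * Real.log A * A ^ (11 / 3 : ℝ) := by positivity
    have hpos2 : 0 ≤ 10 ^ 12 * A ^ (3.915 : ℝ) := by positivity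
    rcases le_or_gt A ((A * (2 / 2 ^ i : ℝ) ^ 3) ^ 2) with hcase | hcase
    · have hmul := mult_count ((G.filter (fun p => idx p = i)).filter (fun p => ¬ PA p))
        (2 / 2 ^ i : ℝ)
        (10 ^ 8 * A ^ 3 * (6 / (2 / 2 ^ i : ℝ)) ^ 3 * (A * (2 / 2 ^ i : ℝ) ^ 3) ^ (0.915 : ℝ)) hN
        (fun p n => (v2 p + (n : ℤ) • v1 p, -(v1 p))) hinj (by
          intro S hS
          exact hW1 A hAA1 (6 / (2 / 2 ^ i : ℝ)) (2 / 2 ^ i : ℝ) (by positivity) hN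
            (by field_simp) hcase S (hfam S hS))
      have := D3_boundB A _ hA1' hN hN2
      linarith
    · have hmul := mult_count ((G.filter (fun p => idx p = i)).filter (fun p => ¬ PA p))
        (2 / 2 ^ i : ℝ) (c * A ^ 4 * Real.log A) hN
        (fun p n => (v2 p + (n : ℤ) • v1 p, -(v1 p))) hinj (by
          intro S hS
          exact hW2 A hAA2 (6 / (2 / 2 ^ i : ℝ)) (2 / 2 ^ i : ℝ) (by positivity) hN
            (by field_simp) S (hfam S hS))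
      have := D3_boundB' A _ c hA1' hc hN hcase
      linarith
  -- summation
  have hsum : G.card = ∑ i ∈ Finset.range (I + 1), (G.filter (fun p => idx p = i)).card :=
    Finset.card_eq_sum_card_fiberwise (f := idx) (t := Finset.range (I + 1))
      (by intro p hp; exact hidxle p hp)
  have hcast : (G.card : ℝ) = ∑ i ∈ Finset.range (I + 1),
      ((G.filter (fun p => idx p = i)).card : ℝ) := by
    rw [hsum]; push_cast; rfl
  have hI' : (I : ℝ) ≤ Real.log A + 8 := by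
    rw [hI]
    apply Nat.floor_le
    have : 0 ≤ Real.log A := Real.log_nonneg hA1'
    linarith
  have hlog : 0 ≤ Real.log A := Real.log_nonneg hA1'
  calc (G.card : ℝ) = ∑ i ∈ Finset.range (I + 1),
        ((G.filter (fun p => idx p = i)).card : ℝ) := hcast
    _ ≤ ∑ _i ∈ Finset.range (I + 1),
        (2 * (10 ^ 12 * A ^ (3.915 : ℝ)) + c * Real.log A * A ^ (11 / 3 : ℝ)) := by
      apply Finset.sum_le_sum
      intro i _
      have h1 : (G.filter (fun p => idx p = i)).card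
          = ((G.filter (fun p => idx p = i)).filter PA).card
            + ((G.filter (fun p => idx p = i)).filter (fun p => ¬ PA p)).card :=
        (Finset.card_filter_add_card_filter_not _).symm
      rw [h1]
      push_cast
      have h2 := hTA i
      have h3 := hTB i
      linarith
    _ = ((I : ℝ) + 1) * (2 * (10 ^ 12 * A ^ (3.915 : ℝ)) + c * Real.log A * A ^ (11 / 3 : ℝ)) := by
      rw [Finset.sum_const, Finset.card_range, nsmul_eq_mul]; push_cast; ring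
    _ ≤ (Real.log A + 10) *
        (2 * (10 ^ 12 * A ^ (3.915 : ℝ)) + c * Real.log A * A ^ (11 / 3 : ℝ)) := by
      apply mul_le_mul_of_nonneg_right _ (by positivity)
      linarith
    _ ≤ A ^ (3.92 : ℝ) := hA3 A hAA3

end LibHall
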