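import Mathlib

set_option autoImplicit false

namespace LibHall

theorem E2_nonneg_count (P : Finset ℤ) (L D : ℝ) (_hD : 0 ≤ D)
    (h : ∀ r ∈ P, 0 ≤ r ∧ L ≤ (r : ℝ) ^ 2 ∧ (r : ℝ) ^ 2 ≤ L + D) :
    (P.card : ℝ) ≤ √D + 1 := by
  rcases P.eq_empty_or_nonempty with rfl | hne
  · simp only [Finset.card_empty, Nat.cast_zero]
    positivity
  · set a := P.min' hne with ha
    have haP : a ∈ P := P.min'_mem hne
    have hsub : P ⊆ Finset.Icc a (a + ⌊√D⌋) := by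
      intro r hr
      have h1 : a ≤ r := P.min'_le r hr
      rw [Finset.mem_Icc]
      refine ⟨h1, ?_⟩
      have h2 : (0 : ℝ) ≤ (r : ℝ) - a := by
        have : (a : ℝ) ≤ r := by exact_mod_cast h1
        linarith
      have ha0 : (0 : ℝ) ≤ a := by exact_mod_cast (h a haP).1
      have h3 : ((r : ℝ) - a) ^ 2 ≤ D := by
        have h4 := (h a haP).2.1
        have h5 := (h r hr).2.2
        nlinarith [mul_nonneg ha0 h2]
      have h4 : (r : ℝ) - a ≤ √D := Real.le_sqrt_of_sq_le h3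
      have h5 : r - a ≤ ⌊√D⌋ := by
        rw [Int.le_floor]
        push_cast
        exact h4
      linarith
    have h1 : P.card ≤ (Finset.Icc a (a + ⌊√D⌋)).card := Finset.card_le_card hsub
    rw [Int.card_Icc] at h1
    have h2 : (0 : ℤ) ≤ ⌊√D⌋ := Int.floor_nonneg.2 (Real.sqrt_nonneg _)
    have h3 : ((a + ⌊√D⌋ + 1 - a).toNat : ℤ) = ⌊√D⌋ + 1 := by
      rw [Int.toNat_of_nonneg (by linarith)]
      ring
    have h4 : (P.card : ℤ) ≤ ⌊√D⌋ + 1 := by
      rw [← h3]; exact_mod_cast h1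
    have h5 : (P.card : ℝ) ≤ (⌊√D⌋ : ℝ) + 1 := by exact_mod_cast h4
    exact h5.trans (by linarith [Int.floor_le (√D)])

theorem E2_sq_count (R : Finset ℤ) (L D : ℝ) (hD : 0 ≤ D)
    (h : ∀ r ∈ R, L ≤ (r : ℝ) ^ 2 ∧ (r : ℝ) ^ 2 ≤ L + D) :
    (R.card : ℝ) ≤ 2 * (√D + 1) := by
  have h1 := E2_nonneg_count (R.filter (fun r => 0 ≤ r)) L D hD (fun r hr => by
    rw [Finset.mem_filter] at hr
    exact ⟨hr.2, h r hr.1⟩)
  have h2 := E2_nonneg_count ((R.filter (fun r => ¬ 0 ≤ r)).image (fun r => -r)) L D hD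
    (fun r hr => by
      rw [Finset.mem_image] at hr
      obtain ⟨t, ht, rfl⟩ := hr
      rw [Finset.mem_filter] at ht
      refine ⟨by linarith [not_le.1 ht.2], ?_⟩
      have := h t ht.1
      push_cast
      rw [neg_sq]
      exact this)
  rw [Finset.card_image_of_injective _ neg_injective] at h2
  have h3 := Finset.card_filter_add_card_filter_not (s := R) (fun r => 0 ≤ r)
  have h4 : (R.card : ℝ) = ((R.filter (fun r => 0 ≤ r)).card : ℝ) +
      ((R.filter (fun r => ¬ 0 ≤ r)).card : ℝ) := by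
    rw [← h3]; push_cast; rfl
  rw [h4]
  linarith

/-- Reducible pairs. -/
theorem reducible_count : ∃ c : ℝ, 0 < c ∧ ∀ K : ℝ, 1 ≤ K → ∀ G : Finset (ℤ × ℤ),
    (∀ p ∈ G, (∃ r : ℤ, r ^ 3 - 3 * p.1 * r + 2 * p.2 = 0) ∧ p.2 ^ 2 ≠ p.1 ^ 3 ∧
      |((p.2 ^ 2 - p.1 ^ 3 : ℤ) : ℝ)| ≤ K) →
    (G.card : ℝ) ≤ c * K ^ (0.9 : ℝ) := by
  classical
  refine ⟨100, by norm_num, fun K hK G hG => ?_⟩
  have hK0 : 0 < K := by linarith
  -- choose the root
  have hr : ∀ p : ℤ × ℤ, ∃ r : ℤ, p ∈ G → r ^ 3 - 3 * p.1 * r + 2 * p.2 = 0 := by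
    intro p
    by_cases hp : p ∈ G
    · obtain ⟨r, hr⟩ := (hG p hp).1
      exact ⟨r, fun _ => hr⟩
    · exact ⟨0, fun h => absurd h hp⟩
  choose ρ hρ using hr
  set f : ℤ × ℤ → ℤ × ℤ := fun p => (p.1 - (ρ p) ^ 2, ρ p) with hf
  have hinj : Set.InjOn f (G : Set (ℤ × ℤ)) := by
    intro p hp p' hp' h
    simp only [hf, Prod.mk.injEq] at h
    have h1 := hρ p hp
    have h2 := hρ p' hp'
    rw [← h.2] at h2
    have h3 : p.1 = p'.1 := by rw [← h.2] at h; linarith [h.1]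
    have h4 : p.2 = p'.2 := by rw [h3] at h1; linarith
    exact Prod.ext h3 h4
  set T := G.image f with hT
  have hcard : G.card = T.card := (Finset.card_image_of_injOn hinj).symm
  -- the properties of T
  have hTp : ∀ t ∈ T, t.1 ≠ 0 ∧ (t.1 : ℝ) ^ 2 ≤ 4 * K ∧
      |3 * (t.2 : ℝ) ^ 2 + 4 * (t.1 : ℝ)| * (t.1 : ℝ) ^ 2 ≤ 4 * K := by
    intro t ht
    rw [hT, Finset.mem_image] at ht
    obtain ⟨p, hp, rfl⟩ := ht
    obtain ⟨-, h2, h3⟩ := hG p hp
    have h1 := hρ p hp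
    simp only [hf]
    set r := ρ p with hr
    set e := p.1 - r ^ 2 with he
    have hx : p.1 = e + r ^ 2 := by rw [he]; ring
    have hid : 4 * (p.2 ^ 2 - p.1 ^ 3) = -((3 * r ^ 2 + 4 * e) * e ^ 2) := by
      have hy : 2 * p.2 = 2 * r ^ 3 + 3 * e * r := by
        rw [hx] at h1; linarith
      have : 4 * p.2 ^ 2 = (2 * r ^ 3 + 3 * e * r) ^ 2 := by rw [← hy]; ring
      rw [hx]
      linear_combination this
    have hne : p.2 ^ 2 - p.1 ^ 3 ≠ 0 := sub_ne_zero.2 h2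
    have hprod : (3 * r ^ 2 + 4 * e) * e ^ 2 ≠ 0 := by
      intro h0
      rw [h0] at hid
      apply hne
      linarith
    have he0 : e ≠ 0 := by
      intro h0; apply hprod; rw [h0]; ring
    have hs0 : 3 * r ^ 2 + 4 * e ≠ 0 := left_ne_zero_of_mul hprod
    have hbound : |3 * (r : ℝ) ^ 2 + 4 * (e : ℝ)| * (e : ℝ) ^ 2 ≤ 4 * K := by
      have h5 : ((4 * (p.2 ^ 2 - p.1 ^ 3) : ℤ) : ℝ) = ((-((3 * r ^ 2 + 4 * e) * e ^ 2) : ℤ) : ℝ) := by
        rw [hid]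
      have h6 : |3 * (r : ℝ) ^ 2 + 4 * (e : ℝ)| * (e : ℝ) ^ 2 =
          4 * |((p.2 ^ 2 - p.1 ^ 3 : ℤ) : ℝ)| := by
        have h7 : |((4 * (p.2 ^ 2 - p.1 ^ 3) : ℤ) : ℝ)| = 4 * |((p.2 ^ 2 - p.1 ^ 3 : ℤ) : ℝ)| := by
          push_cast
          rw [abs_mul]
          norm_num
        rw [← h7, h5]
        push_cast
        rw [abs_neg, abs_mul, abs_of_nonneg (sq_nonneg (e : ℝ))]
      rw [h6]
      linarith
    refine ⟨he0, ?_, hbound⟩
    have h8 : (1 : ℝ) ≤ |3 * (r : ℝ) ^ 2 + 4 * (e : ℝ)| := by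
      have : (1 : ℤ) ≤ |3 * r ^ 2 + 4 * e| := Int.one_le_abs hs0
      exact_mod_cast this
    nlinarith [sq_nonneg (e : ℝ)]
  -- fibres
  set M : ℕ := ⌊2 * √K⌋₊ with hM
  have hmaps : ∀ t ∈ T, t.1.natAbs ∈ Finset.Icc 1 M := by
    intro t ht
    obtain ⟨h1, h2, -⟩ := hTp t ht
    rw [Finset.mem_Icc]
    refine ⟨Int.natAbs_pos.2 h1, ?_⟩
    rw [hM]
    refine Nat.le_floor ?_
    rw [Nat.cast_natAbs]
    push_cast
    have h3 : |(t.1 : ℝ)| ≤ √(4 * K) := by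
      apply Real.le_sqrt_of_sq_le
      rw [sq_abs]
      exact h2
    have h4 : √(4 * K) = 2 * √K := by
      rw [Real.sqrt_mul (by norm_num)]
      congr 1
      rw [show (4:ℝ) = 2 ^ 2 by norm_num]
      exact Real.sqrt_sq (by norm_num)
    rw [← h4]
    exact h3
  have hfib : ∀ e : ℤ, e ≠ 0 → ((T.filter (fun t => t.1 = e)).card : ℝ) ≤
      4 * √K / |(e : ℝ)| + 2 := by
    intro e he
    have hinj2 : Set.InjOn (fun t : ℤ × ℤ => t.2) ((T.filter (fun t => t.1 = e) : Finset (ℤ × ℤ)) : Set (ℤ × ℤ)) := by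
      intro t ht t' ht' h
      rw [Finset.mem_coe, Finset.mem_filter] at ht ht'
      exact Prod.ext (ht.2.trans ht'.2.symm) h
    rw [← Finset.card_image_of_injOn hinj2]
    have he2 : (0 : ℝ) < (e : ℝ) ^ 2 := by positivity
    have h1 := E2_sq_count ((T.filter (fun t => t.1 = e)).image (fun t => t.2))
      ((-(4 * K / (e : ℝ) ^ 2) - 4 * e) / 3) (8 * K / (3 * (e : ℝ) ^ 2)) (by positivity) ?_
    · refine h1.trans ?_
      have h2 : √(8 * K / (3 * (e : ℝ) ^ 2)) ≤ 2 * √K / |(e : ℝ)| := by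
        apply Real.sqrt_le_iff.2
        refine ⟨by positivity, ?_⟩
        rw [div_pow, mul_pow, Real.sq_sqrt hK0.le, sq_abs]
        rw [div_le_div_iff₀ (by positivity) he2]
        nlinarith [mul_pos hK0 he2]
      have h3 : 4 * √K / |(e : ℝ)| = 2 * (2 * √K / |(e : ℝ)|) := by ring
      rw [h3]
      linarith
    · intro r hr
      rw [Finset.mem_image] at hr
      obtain ⟨t, ht, rfl⟩ := hr
      rw [Finset.mem_filter] at ht
      obtain ⟨-, -, h3⟩ := hTp t ht.1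
      rw [ht.2] at h3
      have h4 : |3 * (t.2 : ℝ) ^ 2 + 4 * (e : ℝ)| ≤ 4 * K / (e : ℝ) ^ 2 := by
        rw [le_div_iff₀ he2]; exact h3
      rw [abs_le] at h4
      constructor
      · linarith [h4.1]
      · have h5 : 8 * K / (3 * (e : ℝ) ^ 2) = (2 * (4 * K / (e : ℝ) ^ 2)) / 3 := by
          field_simp
          ring
        rw [h5]
        linarith [h4.2]
  have hsum : (T.card : ℝ) ≤ ∑ n ∈ Finset.Icc 1 M, 2 * (4 * √K / (n : ℝ) + 2) := by
    rw [Finset.card_eq_sum_card_fiberwise hmaps]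
    push_cast
    refine Finset.sum_le_sum fun n hn => ?_
    rw [Finset.mem_Icc] at hn
    have hn0 : (n : ℤ) ≠ 0 := by
      have := hn.1
      omega
    have h1 : (T.filter (fun t => t.1.natAbs = n)) ⊆
        (T.filter (fun t => t.1 = (n : ℤ))) ∪ (T.filter (fun t => t.1 = -(n : ℤ))) := by
      intro t ht
      rw [Finset.mem_filter] at ht
      rw [Finset.mem_union, Finset.mem_filter, Finset.mem_filter]
      rcases Int.natAbs_eq t.1 with h | h
      · left; rw [ht.2] at h; exact ⟨ht.1, h⟩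
      · right; rw [ht.2] at h; exact ⟨ht.1, h⟩
    have h2 := (Finset.card_le_card h1).trans (Finset.card_union_le _ _)
    have h3 : ((T.filter (fun t => t.1.natAbs = n)).card : ℝ) ≤
        ((T.filter (fun t => t.1 = (n : ℤ))).card : ℝ) +
          ((T.filter (fun t => t.1 = -(n : ℤ))).card : ℝ) := by exact_mod_cast h2
    have h4 := hfib n hn0
    have h5 := hfib (-n) (neg_ne_zero.2 hn0)
    push_cast at h4 h5
    rw [abs_neg] at h5
    rw [abs_of_nonneg (Nat.cast_nonneg n)] at h4 h5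
    linarith
  have hharm : ∑ n ∈ Finset.Icc 1 M, 2 * (4 * √K / (n : ℝ) + 2) =
      8 * √K * (harmonic M : ℝ) + 4 * M := by
    rw [harmonic_eq_sum_Icc]
    push_cast
    rw [Finset.mul_sum]
    have : (4 * (M : ℝ)) = ∑ n ∈ Finset.Icc 1 M, (4 : ℝ) := by
      rw [Finset.sum_const, Nat.card_Icc]
      simp
      ring
    rw [this, ← Finset.sum_add_distrib]
    refine Finset.sum_congr rfl fun n hn => ?_
    rw [div_eq_mul_inv]
    ring
  have hMle : (M : ℝ) ≤ 2 * √K := Nat.floor_le (by positivity)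
  have hsq1 : 1 ≤ √K := Real.one_le_sqrt.2 hK
  have hM1 : 1 ≤ M := by
    rw [hM]
    exact Nat.le_floor (by push_cast; linarith)
  have hlog : (harmonic M : ℝ) ≤ 1 + Real.log M := harmonic_le_one_add_log M
  have hlog2 : Real.log M ≤ (2 * √K) ^ (0.5 : ℝ) / 0.5 := by
    have h1 : Real.log M ≤ (M : ℝ) ^ (0.5 : ℝ) / 0.5 :=
      Real.log_le_rpow_div (Nat.cast_nonneg M) (by norm_num)
    have h2 : (M : ℝ) ^ (0.5 : ℝ) ≤ (2 * √K) ^ (0.5 : ℝ) :=
      Real.rpow_le_rpow (Nat.cast_nonneg M) hMle (by norm_num)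
    refine h1.trans ?_
    exact div_le_div_of_nonneg_right h2 (by norm_num)
  -- powers of K
  have hsK : √K = K ^ (0.5 : ℝ) := by
    rw [Real.sqrt_eq_rpow]; norm_num
  have h25 : (2 * √K) ^ (0.5 : ℝ) ≤ 2 * K ^ (0.25 : ℝ) := by
    rw [Real.mul_rpow (by norm_num) (Real.sqrt_nonneg _), hsK, ← Real.rpow_mul hK0.le]
    have h1 : (2:ℝ) ^ (0.5 : ℝ) ≤ 2 ^ (1:ℝ) :=
      Real.rpow_le_rpow_of_exponent_le (by norm_num) (by norm_num)
    rw [Real.rpow_one] at h1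
    norm_num at h1 ⊢
    exact mul_le_mul_of_nonneg_right h1 (by positivity)
  have h75 : K ^ (0.5 : ℝ) * K ^ (0.25 : ℝ) ≤ K ^ (0.9 : ℝ) := by
    rw [← Real.rpow_add hK0]
    exact Real.rpow_le_rpow_of_exponent_le hK (by norm_num)
  have h59 : K ^ (0.5 : ℝ) ≤ K ^ (0.9 : ℝ) :=
    Real.rpow_le_rpow_of_exponent_le hK (by norm_num)
  rw [hcard]
  refine hsum.trans ?_
  rw [hharm]
  have hb : (harmonic M : ℝ) ≤ 1 + 4 * K ^ (0.25 : ℝ) := by
    have : (2 * √K) ^ (0.5 : ℝ) / 0.5 ≤ 4 * K ^ (0.25 : ℝ) := by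
      rw [div_le_iff₀ (by norm_num)]
      linarith
    linarith
  have hc : 8 * √K * (harmonic M : ℝ) ≤ 8 * √K * (1 + 4 * K ^ (0.25 : ℝ)) :=
    mul_le_mul_of_nonneg_left hb (by positivity)
  rw [hsK] at hc hMle
  rw [hsK]
  have hp5 : 0 < K ^ (0.5 : ℝ) := Real.rpow_pos_of_pos hK0 _
  nlinarith
end LibHall
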