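import Mathlib

set_option autoImplicit false

namespace LibHall

/-- A finite set of integers of diameter at most `D` has at most `D + 1` elements. -/
theorem E1_card_le_of_diam (S : Finset ℤ) (D : ℝ) (hD : 0 ≤ D)
    (h : ∀ a ∈ S, ∀ b ∈ S, (b : ℝ) - a ≤ D) : (S.card : ℝ) ≤ D + 1 := by
  rcases S.eq_empty_or_nonempty with rfl | hne
  · simp
    linarith
  · have hsub : S ⊆ Finset.Icc (S.min' hne) (S.max' hne) := by
      intro a ha
      exact Finset.mem_Icc.mpr ⟨Finset.min'_le S a ha, Finset.le_max' S a ha⟩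
    have hcard := Finset.card_le_card hsub
    rw [Int.card_Icc] at hcard
    have hle : S.min' hne ≤ S.max' hne := Finset.min'_le_max' S hne
    have h1 : (S.card : ℤ) ≤ S.max' hne + 1 - S.min' hne := by
      have := Int.toNat_of_nonneg (show (0 : ℤ) ≤ S.max' hne + 1 - S.min' hne by linarith)
      rw [← this]
      exact_mod_cast hcard
    have h2 := h _ (Finset.min'_mem S hne) _ (Finset.max'_mem S hne)
    have h3 : (S.card : ℝ) ≤ (S.max' hne : ℝ) + 1 - (S.min' hne : ℝ) := by exact_mod_cast h1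
    linarith

/-- Counting by fibres over the first coordinate. -/
theorem E1_fiber (G : Finset (ℤ × ℤ)) (a b : ℤ) (M N : ℝ) (hM : 0 ≤ M)
    (hN : ((b + 1 - a : ℤ) : ℝ) ≤ N) (hN0 : 0 ≤ N)
    (h1 : ∀ p ∈ G, a ≤ p.1 ∧ p.1 ≤ b)
    (h2 : ∀ p ∈ G, ∀ q ∈ G, p.1 = q.1 → (q.2 : ℝ) - p.2 ≤ M) :
    (G.card : ℝ) ≤ (M + 1) * N := by
  have hfib : ∀ x ∈ G.image Prod.fst, (G.filter fun p => p.1 = x).card ≤ ⌊M + 1⌋₊ := by
    intro x _
    apply Nat.le_floor
    have hinj : ((G.filter fun p => p.1 = x).image Prod.snd).card =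
        (G.filter fun p => p.1 = x).card := by
      apply Finset.card_image_of_injOn
      intro p hp q hq hpq
      simp only [Finset.coe_filter, Set.mem_setOf_eq] at hp hq
      exact Prod.ext (hp.2.trans hq.2.symm) hpq
    rw [← hinj]
    apply E1_card_le_of_diam _ M hM
    intro u hu v hv
    simp only [Finset.mem_image, Finset.mem_filter] at hu hv
    obtain ⟨p, ⟨hp, hpx⟩, rfl⟩ := hu
    obtain ⟨q, ⟨hq, hqx⟩, rfl⟩ := hv
    exact h2 p hp q hq (hpx.trans hqx.symm)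
  have hc := Finset.card_le_mul_card_image G ⌊M + 1⌋₊ hfib
  have himg : G.image Prod.fst ⊆ Finset.Icc a b := by
    intro x hx
    simp only [Finset.mem_image] at hx
    obtain ⟨p, hp, rfl⟩ := hx
    exact Finset.mem_Icc.mpr (h1 p hp)
  have hic := Finset.card_le_card himg
  rw [Int.card_Icc] at hic
  have hic' : ((G.image Prod.fst).card : ℝ) ≤ N := by
    rcases le_or_gt 0 (b + 1 - a) with h0 | h0
    · have := Int.toNat_of_nonneg h0
      have h3 : ((G.image Prod.fst).card : ℤ) ≤ b + 1 - a := by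
        rw [← this]
        exact_mod_cast hic
      calc ((G.image Prod.fst).card : ℝ) ≤ ((b + 1 - a : ℤ) : ℝ) := by exact_mod_cast h3
        _ ≤ N := hN
    · have := Int.toNat_of_nonpos h0.le
      rw [this] at hic
      have h3 : (G.image Prod.fst).card = 0 := Nat.le_zero.mp hic
      rw [h3]
      simpa using hN0
  calc (G.card : ℝ) ≤ (⌊M + 1⌋₊ : ℝ) * ((G.image Prod.fst).card : ℝ) := by exact_mod_cast hc
    _ ≤ (M + 1) * N := by
        apply mul_le_mul (Nat.floor_le (by linarith)) hic' (by positivity) (by linarith)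

/-- Bound for nonnegative `y` in terms of `k = K^(1/40)`. -/
theorem E1_pos (k : ℝ) (hk : 1 ≤ k) (G : Finset (ℤ × ℤ))
    (hG : ∀ p ∈ G, 0 ≤ p.2 ∧ (p.1 : ℝ) ^ 5 ≤ (k ^ 40) ^ 3 ∧
      |((p.2 ^ 2 - p.1 ^ 3 : ℤ) : ℝ)| ≤ k ^ 40) :
    (G.card : ℝ) ≤ 17 * k ^ 38 := by
  have hk0 : (0 : ℝ) < k := by linarith
  have key : ∀ p ∈ G, ((p.2 : ℝ) ^ 2 - (p.1 : ℝ) ^ 3 ≤ k ^ 40) ∧
      ((p.1 : ℝ) ^ 3 - (p.2 : ℝ) ^ 2 ≤ k ^ 40) := by
    intro p hp
    have h := (hG p hp).2.2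
    push_cast at h
    rw [abs_le] at h
    exact ⟨h.2, by linarith [h.1]⟩
  have hy0 : ∀ p ∈ G, (0 : ℝ) ≤ p.2 := fun p hp => by exact_mod_cast (hG p hp).1
  have hdiff : ∀ p ∈ G, ∀ q ∈ G, p.1 = q.1 → (q.2 : ℝ) ^ 2 - (p.2 : ℝ) ^ 2 ≤ 2 * k ^ 40 := by
    intro p hp q hq hpq
    have h1 := (key q hq).1
    have h2 := (key p hp).2
    rw [hpq] at h2
    linarith
  classical
  have hsplit := Finset.card_filter_add_card_filter_not (s := G)
    (fun p : ℤ × ℤ => |(p.1 : ℝ)| ≤ 2 * k ^ 18)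
  have hG1 : ((G.filter fun p => |(p.1 : ℝ)| ≤ 2 * k ^ 18).card : ℝ) ≤
      (2 * k ^ 20 + 1) * (5 * k ^ 18) := by
    apply E1_fiber _ (-⌊2 * k ^ 18⌋) ⌊2 * k ^ 18⌋ (2 * k ^ 20) (5 * k ^ 18) (by positivity)
      _ (by positivity)
    · intro p hp
      have h := (Finset.mem_filter.mp hp).2
      rw [abs_le] at h
      constructor
      · have : -p.1 ≤ ⌊2 * k ^ 18⌋ := by
          apply Int.le_floor.mpr
          push_cast
          linarith [h.1]
        linarith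
      · exact Int.le_floor.mpr h.2
    · intro p hp q hq hpq
      have hp' := (Finset.mem_filter.mp hp).1
      have hq' := (Finset.mem_filter.mp hq).1
      have h := hdiff p hp' q hq' hpq
      have hp0 := hy0 p hp'
      have hq0 := hy0 q hq'
      by_contra hlt
      push Not at hlt
      have hk20 : (0 : ℝ) ≤ k ^ 20 := by positivity
      have h1 : (2 * k ^ 20) ^ 2 ≤ ((q.2 : ℝ) - p.2) ^ 2 := by
        apply pow_le_pow_left₀ (by positivity) hlt.le
      have h2 : ((q.2 : ℝ) - p.2) ^ 2 ≤ (q.2 : ℝ) ^ 2 - (p.2 : ℝ) ^ 2 := by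
        nlinarith
      have h3 : (2 * k ^ 20) ^ 2 = 4 * k ^ 40 := by ring
      have h4 : (0 : ℝ) < k ^ 40 := by positivity
      linarith
    · have h1 : (⌊2 * k ^ 18⌋ : ℝ) ≤ 2 * k ^ 18 := Int.floor_le _
      have h2 : (1 : ℝ) ≤ k ^ 18 := one_le_pow₀ hk
      push_cast
      linarith
  have hG2 : ((G.filter fun p => ¬ |(p.1 : ℝ)| ≤ 2 * k ^ 18).card : ℝ) ≤
      (k ^ 13 + 1) * k ^ 24 := by
    have hx : ∀ p ∈ G.filter (fun p => ¬ |(p.1 : ℝ)| ≤ 2 * k ^ 18),
        2 * k ^ 18 < (p.1 : ℝ) := by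
      intro p hp
      have hp' := (Finset.mem_filter.mp hp).1
      have h := (Finset.mem_filter.mp hp).2
      push Not at h
      rcases le_or_gt 0 (p.1 : ℝ) with h0 | h0
      · rwa [abs_of_nonneg h0] at h
      · exfalso
        rw [abs_of_neg h0] at h
        have h1 := (key p hp').1
        have h2 : (2 * k ^ 18) ^ 3 ≤ (-(p.1 : ℝ)) ^ 3 := pow_le_pow_left₀ (by positivity) h.le 3
        have h3 : (2 * k ^ 18) ^ 3 = 8 * (k ^ 40 * k ^ 14) := by ring
        have h4 : (1 : ℝ) ≤ k ^ 14 := one_le_pow₀ hk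
        have h5 : (0 : ℝ) < k ^ 40 := by positivity
        nlinarith [sq_nonneg (p.2 : ℝ)]
    apply E1_fiber _ 1 ⌊k ^ 24⌋ (k ^ 13) (k ^ 24) (by positivity) _ (by positivity)
    · intro p hp
      have h := hx p hp
      have hp' := (Finset.mem_filter.mp hp).1
      have hpos : (0 : ℝ) < p.1 := by
        have : (0 : ℝ) < 2 * k ^ 18 := by positivity
        linarith
      constructor
      · have : (0 : ℤ) < p.1 := by exact_mod_cast hpos
        linarith
      · apply Int.le_floor.mpr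
        by_contra hlt
        push Not at hlt
        have h1 := (hG p hp').2.1
        have h2 : (k ^ 24) ^ 5 < (p.1 : ℝ) ^ 5 := pow_lt_pow_left₀ hlt (by positivity) (by norm_num)
        have h3 : (k ^ 24) ^ 5 = (k ^ 40) ^ 3 := by ring
        linarith
    · intro p hp q hq hpq
      have hp' := (Finset.mem_filter.mp hp).1
      have hq' := (Finset.mem_filter.mp hq).1
      have h := hdiff p hp' q hq' hpq
      have hbig : ∀ r ∈ G.filter (fun p => ¬ |(p.1 : ℝ)| ≤ 2 * k ^ 18), k ^ 27 ≤ (r.2 : ℝ) := by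
        intro r hr
        have hr' := (Finset.mem_filter.mp hr).1
        have hxr := hx r hr
        have h1 := (key r hr').2
        have h2 : (2 * k ^ 18) ^ 3 ≤ (r.1 : ℝ) ^ 3 := pow_le_pow_left₀ (by positivity) hxr.le 3
        have h3 : (2 * k ^ 18) ^ 3 = 8 * (k ^ 40 * k ^ 14) := by ring
        have h4 : (1 : ℝ) ≤ k ^ 14 := one_le_pow₀ hk
        have h5 : (0 : ℝ) < k ^ 40 := by positivity
        have h6 : k ^ 40 ≤ k ^ 40 * k ^ 14 := le_mul_of_one_le_right h5.le h4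
        have h7 : (k ^ 27) ^ 2 ≤ (r.2 : ℝ) ^ 2 := by
          have : (k ^ 27) ^ 2 = k ^ 40 * k ^ 14 := by ring
          rw [this]
          linarith
        exact le_of_sq_le_sq h7 (hy0 r hr')
      have hpb := hbig p hp
      have hqb := hbig q hq
      by_contra hlt
      push Not at hlt
      have h1 : k ^ 13 * (2 * k ^ 27) < ((q.2 : ℝ) - p.2) * ((q.2 : ℝ) + p.2) := by
        have hk27 : (0 : ℝ) < k ^ 27 := by positivity
        have hk13 : (0 : ℝ) < k ^ 13 := by positivity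
        apply mul_lt_mul hlt (by linarith) (by positivity) (by linarith)
      have h2 : k ^ 13 * (2 * k ^ 27) = 2 * k ^ 40 := by ring
      nlinarith
    · have h1 : (⌊k ^ 24⌋ : ℝ) ≤ k ^ 24 := Int.floor_le _
      push_cast
      linarith
  have hsplit' : (G.card : ℝ) =
      ((G.filter fun p => |(p.1 : ℝ)| ≤ 2 * k ^ 18).card : ℝ) +
      ((G.filter fun p => ¬ |(p.1 : ℝ)| ≤ 2 * k ^ 18).card : ℝ) := by
    exact_mod_cast hsplit.symm
  have e1 : (1 : ℝ) ≤ k ^ 20 := one_le_pow₀ hk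
  have e2 : (1 : ℝ) ≤ k ^ 13 := one_le_pow₀ hk
  have e3 : (2 * k ^ 20 + 1) * (5 * k ^ 18) ≤ 15 * k ^ 38 := by
    have : (2 * k ^ 20 + 1) * (5 * k ^ 18) ≤ (3 * k ^ 20) * (5 * k ^ 18) := by
      apply mul_le_mul_of_nonneg_right (by linarith) (by positivity)
    calc _ ≤ (3 * k ^ 20) * (5 * k ^ 18) := this
      _ = 15 * k ^ 38 := by ring
  have e4 : (k ^ 13 + 1) * k ^ 24 ≤ 2 * k ^ 38 := by
    have h1 : (k ^ 13 + 1) * k ^ 24 ≤ (2 * k ^ 13) * k ^ 24 := by
      apply mul_le_mul_of_nonneg_right (by linarith) (by positivity)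
    have h2 : (2 * k ^ 13) * k ^ 24 = 2 * k ^ 37 := by ring
    have h3 : k ^ 37 ≤ k ^ 38 := pow_le_pow_right₀ hk (by norm_num)
    linarith
  rw [hsplit']
  linarith

/-- Small values of `x`. -/
theorem small_x : ∃ c : ℝ, 0 < c ∧ ∀ K : ℝ, 1 ≤ K → ∀ G : Finset (ℤ × ℤ),
    (∀ p ∈ G, (p.1 : ℝ) ^ 5 ≤ K ^ 3 ∧ p.2 ^ 2 ≠ p.1 ^ 3 ∧
      |((p.2 ^ 2 - p.1 ^ 3 : ℤ) : ℝ)| ≤ K) →
    (G.card : ℝ) ≤ c * K ^ (0.95 : ℝ) := by
  refine ⟨34, by norm_num, fun K hK G hG => ?_⟩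
  have hK0 : (0 : ℝ) ≤ K := by linarith
  set k : ℝ := K ^ ((1 : ℝ) / 40) with hkdef
  have hk : 1 ≤ k := Real.one_le_rpow hK (by norm_num)
  have hk40 : k ^ 40 = K := by
    rw [hkdef, ← Real.rpow_natCast, ← Real.rpow_mul hK0]
    norm_num
  have hk38 : k ^ 38 = K ^ (0.95 : ℝ) := by
    rw [hkdef, ← Real.rpow_natCast, ← Real.rpow_mul hK0]
    norm_num
  rw [← hk38]
  classical
  have hsplit := Finset.card_filter_add_card_filter_not (s := G)
    (fun p : ℤ × ℤ => 0 ≤ p.2)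
  have h1 := E1_pos k hk (G.filter fun p => 0 ≤ p.2) (by
    intro p hp
    obtain ⟨hp1, hp2⟩ := Finset.mem_filter.mp hp
    obtain ⟨a, _, b⟩ := hG p hp1
    rw [hk40]
    exact ⟨hp2, a, b⟩)
  have h2 := E1_pos k hk ((G.filter fun p => ¬ 0 ≤ p.2).image fun p => (p.1, -p.2)) (by
    intro p hp
    obtain ⟨q, hq, rfl⟩ := Finset.mem_image.mp hp
    obtain ⟨hq1, hq2⟩ := Finset.mem_filter.mp hq
    obtain ⟨a, _, b⟩ := hG q hq1
    rw [hk40]
    refine ⟨?_, a, ?_⟩
    · push Not at hq2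
      show 0 ≤ -q.2
      linarith
    · show |(((-q.2) ^ 2 - q.1 ^ 3 : ℤ) : ℝ)| ≤ K
      rw [neg_sq]
      exact b)
  rw [Finset.card_image_of_injective] at h2
  · have hs : (G.card : ℝ) = ((G.filter fun p => 0 ≤ p.2).card : ℝ) +
        ((G.filter fun p => ¬ 0 ≤ p.2).card : ℝ) := by exact_mod_cast hsplit.symm
    rw [hs]
    linarith
  · intro p q hpq
    simp only [Prod.mk.injEq, neg_inj] at hpq
    exact Prod.ext hpq.1 hpq.2

end LibHall
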