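import Pool.Agent.LibHall43.D3
import Pool.Agent.LibHall43.E1
import Pool.Agent.LibHall43.E2

set_option autoImplicit false

namespace LibHall

/-- A finite set of pairs in a bounded region. -/
theorem E3_box (K0 : ℝ) (hK0 : 1 ≤ K0) (C : ℕ) (G : Finset (ℤ × ℤ))
    (hG : ∀ p ∈ G, |((p.2 ^ 2 - p.1 ^ 3 : ℤ) : ℝ)| ≤ K0 ∧ |(p.1 : ℝ)| ≤ K0 ^ C) :
    (G.card : ℝ) ≤ (2 * K0 ^ C + 1) * (2 * (K0 ^ (3 * C) + K0) + 1) := by
  have hsub : G ⊆ (Finset.Icc (-⌊K0 ^ C⌋) ⌊K0 ^ C⌋) ×ˢ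
      (Finset.Icc (-⌊K0 ^ (3 * C) + K0⌋) ⌊K0 ^ (3 * C) + K0⌋) := by
    intro p hp
    obtain ⟨h1, h2⟩ := hG p hp
    rw [Finset.mem_product, Finset.mem_Icc, Finset.mem_Icc, ← abs_le, ← abs_le]
    constructor
    · rw [Int.le_floor]
      push_cast
      exact h2
    · rw [Int.le_floor]
      push_cast
      push_cast at h1
      have h3 : (p.1 : ℝ) ^ 3 ≤ K0 ^ (3 * C) := by
        have h4 : (p.1 : ℝ) ^ 3 ≤ |(p.1 : ℝ)| ^ 3 := by
          rw [← abs_pow]; exact le_abs_self _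
        have h5 : |(p.1 : ℝ)| ^ 3 ≤ (K0 ^ C) ^ 3 := pow_le_pow_left₀ (abs_nonneg _) h2 3
        rw [← pow_mul, mul_comm C 3] at h5
        linarith
      have h6 : (p.2 : ℝ) ^ 2 ≤ K0 ^ (3 * C) + K0 := by
        have := (abs_le.1 h1).2
        linarith
      have h7 : |(p.2 : ℝ)| ≤ (p.2 : ℝ) ^ 2 := by
        rcases eq_or_ne p.2 0 with h0 | h0
        · rw [h0]; simp
        · have h8 : (1 : ℤ) ≤ |p.2| := Int.one_le_abs h0
          have h9 : (1 : ℝ) ≤ |(p.2 : ℝ)| := by exact_mod_cast h8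
          rw [← sq_abs]
          nlinarith
      linarith
  have h1 := Finset.card_le_card hsub
  rw [Finset.card_product, Int.card_Icc, Int.card_Icc] at h1
  have hpos1 : 0 ≤ K0 ^ C := by positivity
  have hpos2 : 0 ≤ K0 ^ (3 * C) + K0 := by positivity
  have key : ∀ t : ℝ, 0 ≤ t → (((⌊t⌋ + 1 - -⌊t⌋).toNat : ℕ) : ℝ) ≤ 2 * t + 1 := by
    intro t ht
    have h2 : (0 : ℤ) ≤ ⌊t⌋ := Int.floor_nonneg.2 ht
    have h3 : (((⌊t⌋ + 1 - -⌊t⌋).toNat : ℕ) : ℤ) = 2 * ⌊t⌋ + 1 := by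
      rw [Int.toNat_of_nonneg (by linarith)]
      ring
    have h4 : (((⌊t⌋ + 1 - -⌊t⌋).toNat : ℕ) : ℝ) = 2 * (⌊t⌋ : ℝ) + 1 := by exact_mod_cast h3
    rw [h4]
    linarith [Int.floor_le t]
  have h2 : (G.card : ℝ) ≤ (((⌊K0 ^ C⌋ + 1 - -⌊K0 ^ C⌋).toNat : ℕ) : ℝ) *
      (((⌊K0 ^ (3 * C) + K0⌋ + 1 - -⌊K0 ^ (3 * C) + K0⌋).toNat : ℕ) : ℝ) := by
    exact_mod_cast h1
  refine h2.trans ?_
  exact mul_le_mul (key _ hpos1) (key _ hpos2) (Nat.cast_nonneg _) (by positivity)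

/-- All pairs, as a bound for finite sets. -/
theorem total_count (C : ℕ) : ∃ c : ℝ, 0 < c ∧ ∀ K : ℝ, 1 ≤ K → ∀ G : Finset (ℤ × ℤ),
    (∀ p ∈ G, p.2 ^ 2 ≠ p.1 ^ 3 ∧ |((p.2 ^ 2 - p.1 ^ 3 : ℤ) : ℝ)| ≤ K ∧
      |(p.1 : ℝ)| ≤ K ^ C) →
    (G.card : ℝ) ≤ c * K ^ (0.98 : ℝ) := by
  classical
  obtain ⟨c1, hc1, h1⟩ := small_x
  obtain ⟨c2, hc2, h2⟩ := reducible_count
  obtain ⟨A0, hA0, h3⟩ := good_count C
  set K0 : ℝ := A0 ^ 4 with hK0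
  have hK01 : 1 ≤ K0 := one_le_pow₀ hA0.le
  set c3 : ℝ := (2 * K0 ^ C + 1) * (2 * (K0 ^ (3 * C) + K0) + 1) with hc3
  have hc3p : 0 < c3 := by positivity
  refine ⟨c1 + c2 + 2 + c3, by positivity, fun K hK G hG => ?_⟩
  have hKp : 0 < K := by linarith
  have h98 : 1 ≤ K ^ (0.98 : ℝ) := Real.one_le_rpow hK (by norm_num)
  rcases lt_or_ge K K0 with hKK | hKK
  · -- bounded `K`
    have h4 := E3_box K0 hK01 C G (fun p hp => ⟨(hG p hp).2.1.trans hKK.le,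
      (hG p hp).2.2.trans (pow_le_pow_left₀ hKp.le hKK.le C)⟩)
    rw [← hc3] at h4
    nlinarith
  · -- large `K`
    set A : ℝ := K ^ (0.25 : ℝ) with hA
    have hA4 : A ^ 4 = K := by
      rw [hA, ← Real.rpow_natCast, ← Real.rpow_mul hKp.le]
      norm_num
    have hAp : 0 < A := Real.rpow_pos_of_pos hKp _
    have hAA : A0 ≤ A := by
      have h5 : A0 ^ 4 ≤ A ^ 4 := by rw [hA4]; exact hKK
      exact le_of_pow_le_pow_left₀ (by norm_num) hAp.le h5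
    have hA392 : A ^ (3.92 : ℝ) = K ^ (0.98 : ℝ) := by
      rw [hA, ← Real.rpow_mul hKp.le]
      norm_num
    set G1 := G.filter (fun p => (p.1 : ℝ) ^ 5 ≤ K ^ 3) with hG1
    set G2 := G.filter (fun p => ∃ r : ℤ, r ^ 3 - 3 * p.1 * r + 2 * p.2 = 0) with hG2
    set G3 := G.filter (fun p => ¬ ((p.1 : ℝ) ^ 5 ≤ K ^ 3) ∧
      (¬ ∃ r : ℤ, r ^ 3 - 3 * p.1 * r + 2 * p.2 = 0) ∧ 0 ≤ p.2) with hG3
    set G4 := G.filter (fun p => ¬ ((p.1 : ℝ) ^ 5 ≤ K ^ 3) ∧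
      (¬ ∃ r : ℤ, r ^ 3 - 3 * p.1 * r + 2 * p.2 = 0) ∧ ¬ 0 ≤ p.2) with hG4
    have hcov : G ⊆ (G1 ∪ G2) ∪ (G3 ∪ G4) := by
      intro p hp
      simp only [hG1, hG2, hG3, hG4, Finset.mem_union, Finset.mem_filter]
      tauto
    have hcard : G.card ≤ (G1.card + G2.card) + (G3.card + G4.card) :=
      (Finset.card_le_card hcov).trans ((Finset.card_union_le _ _).trans
        (add_le_add (Finset.card_union_le _ _) (Finset.card_union_le _ _)))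
    have hcard' : (G.card : ℝ) ≤ ((G1.card : ℝ) + G2.card) + ((G3.card : ℝ) + G4.card) := by
      exact_mod_cast hcard
    have b1 : (G1.card : ℝ) ≤ c1 * K ^ (0.95 : ℝ) := h1 K hK G1 (fun p hp => by
      rw [hG1, Finset.mem_filter] at hp
      exact ⟨hp.2, (hG p hp.1).1, (hG p hp.1).2.1⟩)
    have b2 : (G2.card : ℝ) ≤ c2 * K ^ (0.9 : ℝ) := h2 K hK G2 (fun p hp => by
      rw [hG2, Finset.mem_filter] at hp
      exact ⟨hp.2, (hG p hp.1).1, (hG p hp.1).2.1⟩)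
    have hIsG : ∀ x y : ℤ, ¬ ((x : ℝ) ^ 5 ≤ K ^ 3) → 0 ≤ y → y ^ 2 ≠ x ^ 3 →
        |((y ^ 2 - x ^ 3 : ℤ) : ℝ)| ≤ K → |(x : ℝ)| ≤ K ^ C → IsG A C x y := by
      intro x y hx hy hne hk hxC
      have hx5 : K ^ 3 < (x : ℝ) ^ 5 := not_le.1 hx
      have hx0 : 0 < x := by
        by_contra hcon
        have hx1 : (x : ℝ) ≤ 0 := by exact_mod_cast (not_lt.1 hcon)
        have hx2 : (x : ℝ) ^ 5 ≤ 0 := by
          have : (x : ℝ) ^ 5 = (x : ℝ) * ((x : ℝ) ^ 2) ^ 2 := by ring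
          rw [this]
          exact mul_nonpos_of_nonpos_of_nonneg hx1 (sq_nonneg _)
        have : 0 < K ^ 3 := by positivity
        linarith
      refine ⟨hx0, ?_, ?_, hy, hne, ?_⟩
      · have : A ^ 12 = K ^ 3 := by rw [← hA4]; ring
        rw [this]; exact hx5.le
      · rw [pow_mul, hA4]
        exact (le_abs_self _).trans hxC
      · rw [hA4]; exact hk
    have b3 : (G3.card : ℝ) ≤ A ^ (3.92 : ℝ) := h3 A hAA G3 (fun p hp => by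
      rw [hG3, Finset.mem_filter] at hp
      obtain ⟨hp, hp1, hp2, hp3⟩ := hp
      obtain ⟨hq1, hq2, hq3⟩ := hG p hp
      refine ⟨hIsG p.1 p.2 hp1 hp3 hq1 hq2 hq3, fun r hr => hp2 ⟨r, hr⟩⟩)
    have b4 : (G4.card : ℝ) ≤ A ^ (3.92 : ℝ) := by
      have hinj : Function.Injective (fun p : ℤ × ℤ => (p.1, -p.2)) := by
        intro p p' h
        simp only [Prod.mk.injEq, neg_inj] at h
        exact Prod.ext h.1 h.2
      rw [← Finset.card_image_of_injective G4 hinj]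
      refine h3 A hAA _ (fun p hp => ?_)
      rw [Finset.mem_image] at hp
      obtain ⟨t, ht, rfl⟩ := hp
      rw [hG4, Finset.mem_filter] at ht
      obtain ⟨ht, ht1, ht2, ht3⟩ := ht
      obtain ⟨hq1, hq2, hq3⟩ := hG t ht
      refine ⟨hIsG t.1 (-t.2) ht1 (by linarith [not_le.1 ht3]) (by rw [neg_sq]; exact hq1)
        (by rw [neg_sq]; exact hq2) hq3, fun r hr => ht2 ⟨-r, ?_⟩⟩
      simp only at hr
      linear_combination -hr
    rw [hA392] at b3 b4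
    have k1 : K ^ (0.95 : ℝ) ≤ K ^ (0.98 : ℝ) :=
      Real.rpow_le_rpow_of_exponent_le hK (by norm_num)
    have k2 : K ^ (0.9 : ℝ) ≤ K ^ (0.98 : ℝ) :=
      Real.rpow_le_rpow_of_exponent_le hK (by norm_num)
    have m1 := mul_le_mul_of_nonneg_left k1 hc1.le
    have m2 := mul_le_mul_of_nonneg_left k2 hc2.le
    nlinarith

end LibHall
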