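import Pool.Agent.LibHall43.Defs

set_option autoImplicit false

namespace LibHall

private theorem C2a_prod3 {a b c a' b' c' : ℝ} (h1 : |a| ≤ a') (h2 : |b| ≤ b') (h3 : |c| ≤ c') :
    |a * b * c| ≤ a' * b' * c' := by
  rw [abs_mul, abs_mul]
  have ha' : 0 ≤ a' := (abs_nonneg a).trans h1
  have hb' : 0 ≤ b' := (abs_nonneg b).trans h2
  exact mul_le_mul (mul_le_mul h1 h2 (abs_nonneg _) ha') h3 (abs_nonneg _) (mul_nonneg ha' hb')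

/-- The trilinear bound. -/
theorem T3_bound (A : ℝ) (hA : 1 ≤ A) (C : ℕ) (x y : ℤ) (hG : IsG A C x y) (u v w : ℤ × ℤ)
    (ρ1 ρ2 ρ3 : ℝ) (h1 : 0 ≤ ρ1) (h2 : 0 ≤ ρ2) (h3 : 0 ≤ ρ3)
    (hu : |ee x u| * √(x : ℝ) ≤ ρ1 * A) (hu' : |(u.2 : ℝ)| * A ≤ ρ1 * √(x : ℝ))
    (hv : |ee x v| * √(x : ℝ) ≤ ρ2 * A) (hv' : |(v.2 : ℝ)| * A ≤ ρ2 * √(x : ℝ))
    (hw : |ee x w| * √(x : ℝ) ≤ ρ3 * A) (hw' : |(w.2 : ℝ)| * A ≤ ρ3 * √(x : ℝ)) :
    |(T3 x y u v w : ℝ)| ≤ 6 * A * (ρ1 * ρ2 * ρ3) := by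
  obtain ⟨hx, hx5, -, hy, -, hxy⟩ := hG
  obtain ⟨s, hs⟩ : ∃ s : ℝ, s = √(x : ℝ) := ⟨_, rfl⟩
  have hxpos : (0 : ℝ) < x := by exact_mod_cast hx
  have hs0 : 0 < s := by rw [hs]; exact Real.sqrt_pos.2 hxpos
  have hs2 : s ^ 2 = x := by rw [hs]; exact Real.sq_sqrt hxpos.le
  have hA0 : 0 < A := by linarith
  have hsA : A ≤ s := by
    have h4 : A ^ 10 ≤ s ^ 10 := by
      calc A ^ 10 ≤ A ^ 12 := pow_le_pow_right₀ hA (by norm_num)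
        _ ≤ (x : ℝ) ^ 5 := hx5
        _ = s ^ 10 := by rw [← hs2]; ring
    exact le_of_pow_le_pow_left₀ (by norm_num) hs0.le h4
  rw [← hs] at hu hu' hv hv' hw hw'
  obtain ⟨α, hα⟩ : ∃ α : ℝ, α = A / s := ⟨_, rfl⟩
  obtain ⟨β, hβ⟩ : ∃ β : ℝ, β = s / A := ⟨_, rfl⟩
  have hα0 : 0 < α := by rw [hα]; positivity
  have hβ0 : 0 < β := by rw [hβ]; positivity
  have hαβ : α * β = 1 := by rw [hα, hβ]; field_simp
  have hα1 : α ≤ 1 := by rw [hα, div_le_one hs0]; exact hsA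
  have hsα : s * α = A := by rw [hα]; field_simp
  have hE : ∀ {e ρ : ℝ}, |e| * s ≤ ρ * A → |e| ≤ ρ * α := by
    intro e ρ h
    rw [hα, ← mul_div_assoc, le_div_iff₀ hs0]
    exact h
  have hQ : ∀ {e ρ : ℝ}, |e| * A ≤ ρ * s → |e| ≤ ρ * β := by
    intro e ρ h
    rw [hβ, ← mul_div_assoc, le_div_iff₀ hA0]
    exact h
  have eu := hE hu
  have ev := hE hv
  have ew := hE hw
  have qu := hQ hu'
  have qv := hQ hv'
  have qw := hQ hw'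
  have hid : (T3 x y u v w : ℝ) = ee x u * ee x v * ee x w +
      s * (ee x u * ee x v * (w.2 : ℝ)) + s * (ee x u * (v.2 : ℝ) * ee x w) +
      s * ((u.2 : ℝ) * ee x v * ee x w) +
      2 * ((y : ℝ) - s ^ 3) * ((u.2 : ℝ) * (v.2 : ℝ) * (w.2 : ℝ)) := by
    unfold T3 ee
    rw [← hs]
    push_cast
    rw [← hs2]
    ring
  have hP0 : 0 ≤ ρ1 * ρ2 * ρ3 := by positivity
  have b1 : |ee x u * ee x v * ee x w| ≤ A * (ρ1 * ρ2 * ρ3) := by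
    refine (C2a_prod3 eu ev ew).trans ?_
    have : ρ1 * α * (ρ2 * α) * (ρ3 * α) = (ρ1 * ρ2 * ρ3) * (α * α * α) := by ring
    rw [this, mul_comm A]
    apply mul_le_mul_of_nonneg_left _ hP0
    have h5 : α * α ≤ 1 := by nlinarith
    nlinarith
  have b2 : |s * (ee x u * ee x v * (w.2 : ℝ))| ≤ A * (ρ1 * ρ2 * ρ3) := by
    rw [abs_mul, abs_of_pos hs0]
    calc s * |ee x u * ee x v * (w.2 : ℝ)| ≤ s * (ρ1 * α * (ρ2 * α) * (ρ3 * β)) :=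
          mul_le_mul_of_nonneg_left (C2a_prod3 eu ev qw) hs0.le
      _ = (s * α) * (α * β) * (ρ1 * ρ2 * ρ3) := by ring
      _ = A * (ρ1 * ρ2 * ρ3) := by rw [hsα, hαβ, mul_one]
  have b3 : |s * (ee x u * (v.2 : ℝ) * ee x w)| ≤ A * (ρ1 * ρ2 * ρ3) := by
    rw [abs_mul, abs_of_pos hs0]
    calc s * |ee x u * (v.2 : ℝ) * ee x w| ≤ s * (ρ1 * α * (ρ2 * β) * (ρ3 * α)) :=
          mul_le_mul_of_nonneg_left (C2a_prod3 eu qv ew) hs0.le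
      _ = (s * α) * (α * β) * (ρ1 * ρ2 * ρ3) := by ring
      _ = A * (ρ1 * ρ2 * ρ3) := by rw [hsα, hαβ, mul_one]
  have b4 : |s * ((u.2 : ℝ) * ee x v * ee x w)| ≤ A * (ρ1 * ρ2 * ρ3) := by
    rw [abs_mul, abs_of_pos hs0]
    calc s * |(u.2 : ℝ) * ee x v * ee x w| ≤ s * (ρ1 * β * (ρ2 * α) * (ρ3 * α)) :=
          mul_le_mul_of_nonneg_left (C2a_prod3 qu ev ew) hs0.le
      _ = (s * α) * (α * β) * (ρ1 * ρ2 * ρ3) := by ring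
      _ = A * (ρ1 * ρ2 * ρ3) := by rw [hsα, hαβ, mul_one]
  have hys : |(y : ℝ) - s ^ 3| * s ^ 3 ≤ A ^ 4 := by
    have hy0 : (0 : ℝ) ≤ y := by exact_mod_cast hy
    have h6 : |(y : ℝ) - s ^ 3| * (y + s ^ 3) = |((y ^ 2 - x ^ 3 : ℤ) : ℝ)| := by
      have h7 : ((y ^ 2 - x ^ 3 : ℤ) : ℝ) = ((y : ℝ) - s ^ 3) * (y + s ^ 3) := by
        push_cast
        rw [← hs2]
        ring
      have h8 : (0 : ℝ) ≤ y + s ^ 3 := by positivity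
      rw [h7, abs_mul, abs_of_nonneg h8]
    calc |(y : ℝ) - s ^ 3| * s ^ 3 ≤ |(y : ℝ) - s ^ 3| * (y + s ^ 3) :=
          mul_le_mul_of_nonneg_left (by linarith) (abs_nonneg _)
      _ = |((y ^ 2 - x ^ 3 : ℤ) : ℝ)| := h6
      _ ≤ A ^ 4 := hxy
  have b5 : |2 * ((y : ℝ) - s ^ 3) * ((u.2 : ℝ) * (v.2 : ℝ) * (w.2 : ℝ))| ≤
      2 * A * (ρ1 * ρ2 * ρ3) := by
    rw [abs_mul, abs_mul, abs_of_pos (by norm_num : (0 : ℝ) < 2)]
    have hβ3 : A ^ 3 * β ^ 3 = s ^ 3 := by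
      rw [← mul_pow]
      congr 1
      rw [hβ]
      field_simp
    calc 2 * |(y : ℝ) - s ^ 3| * |(u.2 : ℝ) * (v.2 : ℝ) * (w.2 : ℝ)|
        ≤ 2 * |(y : ℝ) - s ^ 3| * (ρ1 * β * (ρ2 * β) * (ρ3 * β)) :=
          mul_le_mul_of_nonneg_left (C2a_prod3 qu qv qw) (by positivity)
      _ = 2 * (|(y : ℝ) - s ^ 3| * β ^ 3) * (ρ1 * ρ2 * ρ3) := by ring
      _ ≤ 2 * A * (ρ1 * ρ2 * ρ3) := by
          apply mul_le_mul_of_nonneg_right _ hP0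
          apply mul_le_mul_of_nonneg_left _ (by norm_num)
          have h9 : |(y : ℝ) - s ^ 3| * (A ^ 3 * β ^ 3) ≤ A ^ 3 * A := by
            rw [hβ3]
            calc _ ≤ A ^ 4 := hys
              _ = A ^ 3 * A := by ring
          have h10 : A ^ 3 * (|(y : ℝ) - s ^ 3| * β ^ 3) ≤ A ^ 3 * A := by
            calc _ = |(y : ℝ) - s ^ 3| * (A ^ 3 * β ^ 3) := by ring
              _ ≤ _ := h9
          exact le_of_mul_le_mul_left h10 (by positivity)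
  rw [hid]
  have t1 := abs_add_le (ee x u * ee x v * ee x w +
      s * (ee x u * ee x v * (w.2 : ℝ)) + s * (ee x u * (v.2 : ℝ) * ee x w) +
      s * ((u.2 : ℝ) * ee x v * ee x w))
      (2 * ((y : ℝ) - s ^ 3) * ((u.2 : ℝ) * (v.2 : ℝ) * (w.2 : ℝ)))
  have t2 := abs_add_le (ee x u * ee x v * ee x w +
      s * (ee x u * ee x v * (w.2 : ℝ)) + s * (ee x u * (v.2 : ℝ) * ee x w))
      (s * ((u.2 : ℝ) * ee x v * ee x w))
  have t3 := abs_add_le (ee x u * ee x v * ee x w +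
      s * (ee x u * ee x v * (w.2 : ℝ))) (s * (ee x u * (v.2 : ℝ) * ee x w))
  have t4 := abs_add_le (ee x u * ee x v * ee x w) (s * (ee x u * ee x v * (w.2 : ℝ)))
  linarith

/-- The form in the basis `(w1, w2)` represents `1` at `(w2.2, -w1.2)`. -/
theorem CF_basis (x y : ℤ) (w1 w2 : ℤ × ℤ) (hdet : w1.1 * w2.2 - w2.1 * w1.2 = 1) :
    CF (T3 x y w1 w1 w1) (T3 x y w1 w1 w2) (T3 x y w1 w2 w2) (T3 x y w2 w2 w2) w2.2 (-w1.2)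
      = 1 := by
  have h : CF (T3 x y w1 w1 w1) (T3 x y w1 w1 w2) (T3 x y w1 w2 w2) (T3 x y w2 w2 w2) w2.2
      (-w1.2) = (w1.1 * w2.2 - w2.1 * w1.2) ^ 3 := by
    unfold CF T3
    ring
  rw [h, hdet]
  norm_num

theorem deriv_basis (x y : ℤ) (w1 w2 : ℤ × ℤ) (hdet : w1.1 * w2.2 - w2.1 * w1.2 = 1) :
    T3 x y w1 w1 w1 * w2.2 ^ 2 + 2 * T3 x y w1 w1 w2 * w2.2 * (-w1.2)
      + T3 x y w1 w2 w2 * (-w1.2) ^ 2 = w1.1 := by
  have h : T3 x y w1 w1 w1 * w2.2 ^ 2 + 2 * T3 x y w1 w1 w2 * w2.2 * (-w1.2)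
      + T3 x y w1 w2 w2 * (-w1.2) ^ 2 = w1.1 * (w1.1 * w2.2 - w2.1 * w1.2) ^ 2 := by
    unfold T3
    ring
  rw [h, hdet]
  ring

/-- The tuple determines `x, y, w1, w2`. -/
theorem tuple_inj (x y x' y' : ℤ) (w1 w2 w1' w2' : ℤ × ℤ)
    (hdet : w1.1 * w2.2 - w2.1 * w1.2 = 1) (hdet' : w1'.1 * w2'.2 - w2'.1 * w1'.2 = 1)
    (hne : w1.2 ≠ 0)
    (h0 : T3 x y w1 w1 w1 = T3 x' y' w1' w1' w1') (h1 : T3 x y w1 w1 w2 = T3 x' y' w1' w1' w2')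
    (h2 : T3 x y w1 w2 w2 = T3 x' y' w1' w2' w2') (ha : w2.2 = w2'.2) (hb : w1.2 = w1'.2) :
    x = x' ∧ y = y' ∧ w1 = w1' ∧ w2 = w2' := by
  have e1 := deriv_basis x y w1 w2 hdet
  have e2 := deriv_basis x' y' w1' w2' hdet'
  rw [h0, h1, h2, ha, hb, e2] at e1
  obtain ⟨p1, q1⟩ := w1
  obtain ⟨p2, q2⟩ := w2
  obtain ⟨p1', q1'⟩ := w1'
  obtain ⟨p2', q2'⟩ := w2'
  simp only at *
  subst ha hb e1
  have e3 : p2 = p2' := by
    have : q1 * p2 = q1 * p2' := by linarith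
    exact mul_left_cancel₀ hne this
  subst e3
  have e4 : x = x' := by
    have h5 : q1 ^ 2 * x = q1 ^ 2 * x' := by
      have h6 : q2 * T3 x y (p1', q1) (p1', q1) (p1', q1) -
          q1 * T3 x y (p1', q1) (p1', q1) (p2, q2) =
          (p1' ^ 2 - q1 ^ 2 * x) * (p1' * q2 - p2 * q1) := by
        unfold T3
        ring
      have h7 : q2 * T3 x' y' (p1', q1) (p1', q1) (p1', q1) -
          q1 * T3 x' y' (p1', q1) (p1', q1) (p2, q2) =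
          (p1' ^ 2 - q1 ^ 2 * x') * (p1' * q2 - p2 * q1) := by
        unfold T3
        ring
      rw [h0, h1, h7, hdet] at h6
      linarith
    exact mul_left_cancel₀ (pow_ne_zero 2 hne) h5
  subst e4
  refine ⟨rfl, ?_, rfl, rfl⟩
  have h8 : (2 * q1 ^ 3) * y = (2 * q1 ^ 3) * y' := by
    unfold T3 at h0
    simp only at h0
    linarith
  exact mul_left_cancel₀ (mul_ne_zero two_ne_zero (pow_ne_zero 3 hne)) h8

end LibHall
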