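import Pool.Agent.LibHall43.A2

set_option autoImplicit false

open Polynomial

namespace LibHall

/-- The coefficient of `r^j` in `∑ (r - G(X))^i (w i Θ (θ0 + X) - u i)`. -/
noncomputable def QQ (m : ℕ) (Θ θ0 : ℝ) (G : ℝ[X]) (u w : ℕ → ℝ) (j : ℕ) : ℝ[X] :=
  ∑ i ∈ Finset.range (m + 1), C ((i.choose j : ℕ) : ℝ) * (-G) ^ (i - j) *
    (C (w i * Θ) * (C θ0 + X) - C (u i))

theorem QQ_expand (m : ℕ) (Θ θ0 : ℝ) (G : ℝ[X]) (u w : ℕ → ℝ) (t r : ℝ) :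
    ∑ i ∈ Finset.range (m + 1), (r - G.eval t) ^ i * (w i * (Θ * (θ0 + t)) - u i)
      = ∑ j ∈ Finset.range (m + 1), r ^ j * (QQ m Θ θ0 G u w j).eval t := by
  have h1 : ∀ j, (QQ m Θ θ0 G u w j).eval t = ∑ i ∈ Finset.range (m + 1),
      ((i.choose j : ℕ) : ℝ) * (-G.eval t) ^ (i - j) * (w i * Θ * (θ0 + t) - u i) := by
    intro j
    unfold QQ
    rw [eval_finsetSum]
    refine Finset.sum_congr rfl fun i _ => ?_
    simp only [eval_mul, eval_sub, eval_add, eval_C, eval_X, eval_pow, eval_neg]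
  simp only [h1, Finset.mul_sum]
  rw [Finset.sum_comm]
  refine Finset.sum_congr rfl fun i hi => ?_
  have hi' : i < m + 1 := Finset.mem_range.1 hi
  have h2 : (r - G.eval t) ^ i = ∑ j ∈ Finset.range (m + 1),
      r ^ j * (-G.eval t) ^ (i - j) * ((i.choose j : ℕ) : ℝ) := by
    rw [sub_eq_add_neg, add_pow]
    refine Finset.sum_subset (fun j hj => ?_) fun j _ hj => ?_
    · rw [Finset.mem_range] at hj ⊢; omega
    · rw [Finset.mem_range] at hj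
      rw [Nat.choose_eq_zero_of_lt (by omega)]
      simp
  rw [h2, Finset.sum_mul]
  refine Finset.sum_congr rfl fun j _ => ?_
  ring

private noncomputable def A3T (G : ℝ[X]) (i j : ℕ) : ℝ[X] :=
  C ((i.choose j : ℕ) : ℝ) * (-G) ^ (i - j)

private theorem A3_zero {G : ℝ[X]} {i j : ℕ} (h : i < j) : A3T G i j = 0 := by
  unfold A3T
  rw [Nat.choose_eq_zero_of_lt h]
  simp

private theorem A3_l1T {G : ℝ[X]} {i j m : ℕ} {Z : ℝ} (hZ : 1 ≤ Z) (hG : l1 G ≤ Z)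
    (him : i ≤ m) : l1 (A3T G i j) ≤ 2 ^ m * Z ^ (i - j) := by
  unfold A3T
  have h1 : ((i.choose j : ℕ) : ℝ) ≤ 2 ^ m := by
    have h2 : i.choose j ≤ 2 ^ m :=
      (Nat.choose_le_two_pow i j).trans (Nat.pow_le_pow_right (by norm_num) him)
    exact_mod_cast h2
  have h3 : l1 ((-G) ^ (i - j)) ≤ Z ^ (i - j) := by
    refine (l1_pow_le _ _).trans ?_
    rw [l1_neg]
    exact pow_le_pow_left₀ (l1_nonneg G) hG _
  refine (l1_mul_le _ _).trans ?_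
  rw [l1_C, abs_of_nonneg (Nat.cast_nonneg _)]
  exact mul_le_mul h1 h3 (l1_nonneg _) (by positivity)

private theorem A3_single_w {m : ℕ} {Θ θ0 : ℝ} {G : ℝ[X]} {i j : ℕ} (hi : i ≤ m) :
    QQ m Θ θ0 G 0 (Pi.single i 1) j = A3T G i j * (C Θ * (C θ0 + X)) := by
  unfold QQ A3T
  rw [Finset.sum_eq_single i]
  · simp
  · intro b _ hb
    simp [Pi.single_eq_of_ne hb]
  · intro h
    exact absurd (Finset.mem_range.2 (by omega)) h

private theorem A3_single_u {m : ℕ} {Θ θ0 : ℝ} {G : ℝ[X]} {i j : ℕ} (hi : i ≤ m) :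
    QQ m Θ θ0 G (Pi.single i 1) 0 j = - A3T G i j := by
  unfold QQ A3T
  rw [Finset.sum_eq_single i]
  · simp
  · intro b _ hb
    simp [Pi.single_eq_of_ne hb]
  · intro h
    exact absurd (Finset.mem_range.2 (by omega)) h

/-- Linearity of the coefficients of `QQ` in `(u, w)`. -/
theorem QQ_coeff (m : ℕ) (Θ θ0 : ℝ) (G : ℝ[X]) (u w : ℕ → ℝ) (j l : ℕ) :
    (QQ m Θ θ0 G u w j).coeff l
      = ∑ i ∈ Finset.range (m + 1),
        ((QQ m Θ θ0 G 0 (Pi.single i 1) j).coeff l * w i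
          + (QQ m Θ θ0 G (Pi.single i 1) 0 j).coeff l * u i) := by
  have h1 : QQ m Θ θ0 G u w j = ∑ i ∈ Finset.range (m + 1),
      (A3T G i j * (C Θ * (C θ0 + X)) * C (w i) + (- A3T G i j) * C (u i)) := by
    unfold QQ
    refine Finset.sum_congr rfl fun i _ => ?_
    unfold A3T
    rw [C_mul]
    ring
  rw [h1, finsetSum_coeff]
  refine Finset.sum_congr rfl fun i hi => ?_
  have hi' : i ≤ m := by have := Finset.mem_range.1 hi; omega
  rw [A3_single_w hi', A3_single_u hi', coeff_add, coeff_mul_C, coeff_mul_C]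

private theorem A3_aff {a θ0 b : ℝ} (hθ0 : |θ0| ≤ 1) :
    l1 (C a * (C θ0 + X)) ≤ 2 * |a| ∧ l1 (C a * (C θ0 + X) - C b) ≤ 2 * |a| + |b| := by
  have h0 : l1 (C θ0 + X) ≤ 2 := by
    refine (l1_add_le _ _).trans ?_
    rw [l1_C, l1_X]
    linarith
  have h1 : l1 (C a * (C θ0 + X)) ≤ 2 * |a| := by
    refine (l1_mul_le _ _).trans ?_
    rw [l1_C]
    nlinarith [abs_nonneg a]
  refine ⟨h1, (l1_sub_le _ _).trans ?_⟩
  rw [l1_C]
  linarith

private theorem A3_sum {m j : ℕ} {X' Z : ℝ} (hX : 0 ≤ X') (hZ : 1 ≤ Z) (hj : j ≤ m)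
    (f : ℕ → ℝ) (h0 : ∀ i < j, f i = 0)
    (h1 : ∀ i, j ≤ i → i ≤ m → f i ≤ 2 ^ m * Z ^ (i - j) * (3 * (X' * Z ^ (m - i)))) :
    ∑ i ∈ Finset.range (m + 1), f i ≤ 3 * (m + 1) * 2 ^ m * X' * Z ^ (m - j) := by
  have hZ0 : 0 < Z := by linarith
  have h2 : ∀ i ∈ Finset.range (m + 1), f i ≤ 3 * 2 ^ m * X' * Z ^ (m - j) := by
    intro i hi
    have him : i ≤ m := by have := Finset.mem_range.1 hi; omega
    rcases Nat.lt_or_ge i j with h | h
    · rw [h0 i h]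
      positivity
    · refine (h1 i h him).trans (le_of_eq ?_)
      have h3 : Z ^ (m - j) = Z ^ (i - j) * Z ^ (m - i) := by
        rw [← pow_add]
        congr 1
        omega
      rw [h3]
      ring
  refine (Finset.sum_le_sum h2).trans (le_of_eq ?_)
  rw [Finset.sum_const, Finset.card_range, nsmul_eq_mul]
  push_cast
  ring

theorem QQ_l1 (m : ℕ) (Θ θ0 X' Z : ℝ) (G : ℝ[X]) (hΘ : 0 < Θ) (hθ0 : |θ0| ≤ 1) (hX : 0 ≤ X')
    (hZ : 1 ≤ Z) (hG : l1 G ≤ Z) (u w : ℕ → ℝ)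
    (hw : ∀ i ≤ m, |w i| * Θ ≤ X' * Z ^ (m - i)) (hu : ∀ i ≤ m, |u i| ≤ X' * Z ^ (m - i))
    (j : ℕ) (hj : j ≤ m) :
    l1 (QQ m Θ θ0 G u w j) ≤ 3 * (m + 1) * 2 ^ m * X' * Z ^ (m - j) := by
  have hZ0 : 0 < Z := by linarith
  unfold QQ
  refine (l1_sum_le _ _).trans (A3_sum hX hZ hj _ (fun i hi => ?_) fun i hi him => ?_)
  · have h := A3_zero (G := G) hi
    unfold A3T at h
    rw [h, zero_mul]
    simp [l1]
  · refine (l1_mul_le _ _).trans ?_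
    have h1 := A3_l1T (j := j) hZ hG him
    unfold A3T at h1
    have h2 := (A3_aff (a := w i * Θ) (b := u i) hθ0).2
    rw [abs_mul, abs_of_pos hΘ] at h2
    have h3 := hw i him
    have h4 := hu i him
    exact mul_le_mul h1 (h2.trans (by linarith)) (l1_nonneg _) (by positivity)

/-- The sum of the sizes of the coefficients of the linear form `(u, w) ↦ coeff l (QQ j)`. -/
theorem QQ_form_bound (m : ℕ) (Θ θ0 X' Z : ℝ) (G : ℝ[X]) (hΘ : 0 < Θ) (hθ0 : |θ0| ≤ 1)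
    (hX : 0 ≤ X') (hZ : 1 ≤ Z) (hG : l1 G ≤ Z) (Hu Hw : ℕ → ℕ)
    (hw : ∀ i ≤ m, (Hw i : ℝ) * Θ ≤ X' * Z ^ (m - i))
    (hu : ∀ i ≤ m, (Hu i : ℝ) ≤ X' * Z ^ (m - i)) (j l : ℕ) (hj : j ≤ m) :
    ∑ i ∈ Finset.range (m + 1),
      (|(QQ m Θ θ0 G 0 (Pi.single i 1) j).coeff l| * Hw i
        + |(QQ m Θ θ0 G (Pi.single i 1) 0 j).coeff l| * Hu i)
      ≤ 3 * (m + 1) * 2 ^ m * X' * Z ^ (m - j) := by
  have hZ0 : 0 < Z := by linarith
  refine A3_sum hX hZ hj _ (fun i hi => ?_) fun i hi him => ?_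
  · have hi' : i ≤ m := by omega
    rw [A3_single_w hi', A3_single_u hi', A3_zero hi]
    simp
  · rw [A3_single_w him, A3_single_u him]
    have h1 := A3_l1T (j := j) hZ hG him
    have h2 : |(A3T G i j * (C Θ * (C θ0 + X))).coeff l| ≤ 2 ^ m * Z ^ (i - j) * (2 * Θ) := by
      refine (abs_coeff_le_l1 _ _).trans ((l1_mul_le _ _).trans ?_)
      have h3 := (A3_aff (a := Θ) (b := 0) hθ0).1
      rw [abs_of_pos hΘ] at h3
      exact mul_le_mul h1 h3 (l1_nonneg _) (by positivity)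
    have h4 : |(- A3T G i j).coeff l| ≤ 2 ^ m * Z ^ (i - j) := by
      refine (abs_coeff_le_l1 _ _).trans ?_
      rw [l1_neg]
      exact h1
    have h5 := hw i him
    have h6 := hu i him
    have h7 : |(A3T G i j * (C Θ * (C θ0 + X))).coeff l| * (Hw i : ℝ)
        ≤ 2 ^ m * Z ^ (i - j) * (2 * Θ) * (Hw i : ℝ) :=
      mul_le_mul_of_nonneg_right h2 (Nat.cast_nonneg _)
    have h8 : |(- A3T G i j).coeff l| * (Hu i : ℝ) ≤ 2 ^ m * Z ^ (i - j) * (Hu i : ℝ) :=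
      mul_le_mul_of_nonneg_right h4 (Nat.cast_nonneg _)
    refine (add_le_add h7 h8).trans ?_
    have h9 : 2 ^ m * Z ^ (i - j) * (2 * Θ) * (Hw i : ℝ) + 2 ^ m * Z ^ (i - j) * (Hu i : ℝ)
        = 2 ^ m * Z ^ (i - j) * (2 * ((Hw i : ℝ) * Θ) + (Hu i : ℝ)) := by ring
    rw [h9]
    exact mul_le_mul_of_nonneg_left (by linarith) (by positivity)

end LibHall
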