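import Pool.Agent.LibHall43.Defs

set_option autoImplicit false

namespace LibHall

private theorem B3_D_le (c0 c1 c2 : ℤ) (Θ D R θ : ℝ) (hΘ : 0 < Θ)
    (hθ : |θ| ≤ Θ) (h0 : |(c0 : ℝ)| * Θ ^ 3 ≤ R) (h1 : |(c1 : ℝ)| * Θ ^ 2 ≤ R)
    (h2 : |(c2 : ℝ)| * Θ ≤ R)
    (hd : D ≤ Θ * |3 * ((c0 : ℝ) * θ ^ 2 + 2 * c1 * θ + c2)|) : D ≤ 12 * R := by
  refine hd.trans ?_
  have ha0 := abs_nonneg (c0 : ℝ)
  have ha1 := abs_nonneg (c1 : ℝ)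
  have ht := abs_nonneg θ
  have e1 : |(c0 : ℝ) * θ ^ 2| ≤ |(c0 : ℝ)| * Θ ^ 2 := by
    rw [abs_mul, abs_pow]
    exact mul_le_mul_of_nonneg_left (pow_le_pow_left₀ ht hθ 2) ha0
  have e2 : |2 * (c1 : ℝ) * θ| ≤ 2 * |(c1 : ℝ)| * Θ := by
    rw [abs_mul, abs_mul, abs_of_pos (by norm_num : (0 : ℝ) < 2)]
    exact mul_le_mul_of_nonneg_left hθ (by positivity)
  have e3 := abs_add_le ((c0 : ℝ) * θ ^ 2 + 2 * c1 * θ) (c2 : ℝ)
  have e4 := abs_add_le ((c0 : ℝ) * θ ^ 2) (2 * c1 * θ)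
  have e5 : |(c0 : ℝ) * θ ^ 2 + 2 * c1 * θ + c2| ≤ |(c0 : ℝ)| * Θ ^ 2 + 2 * |(c1 : ℝ)| * Θ +
      |(c2 : ℝ)| := by linarith
  rw [abs_mul, abs_of_pos (by norm_num : (0 : ℝ) < 3)]
  calc Θ * (3 * |(c0 : ℝ) * θ ^ 2 + 2 * c1 * θ + c2|)
      ≤ Θ * (3 * (|(c0 : ℝ)| * Θ ^ 2 + 2 * |(c1 : ℝ)| * Θ + |(c2 : ℝ)|)) :=
        mul_le_mul_of_nonneg_left (by linarith) hΘ.le
    _ = 3 * (|(c0 : ℝ)| * Θ ^ 3) + 6 * (|(c1 : ℝ)| * Θ ^ 2) + 3 * (|(c2 : ℝ)| * Θ) := by ring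
    _ ≤ 12 * R := by linarith

/-- The increment of `c0 θ^3 + 3 c1 θ^2 + 3 c2 θ` is large. -/
theorem incr_bound (c0 c1 c2 : ℤ) (Θ D R θ t : ℝ) (hΘ : 0 < Θ) (hD : 0 < D) (hR : 0 < R)
    (hθ : |θ| ≤ Θ) (h0 : |(c0 : ℝ)| * Θ ^ 3 ≤ R) (h1 : |(c1 : ℝ)| * Θ ^ 2 ≤ R)
    (h2 : |(c2 : ℝ)| * Θ ≤ R)
    (hd : D ≤ Θ * |3 * ((c0 : ℝ) * θ ^ 2 + 2 * c1 * θ + c2)|) (ht : |t| * (14 * R) ≤ D) :
    |t| * D / 2 ≤ |(c0 : ℝ) * Θ ^ 3 * t ^ 3 + 3 * (c0 * θ + c1) * Θ ^ 2 * t ^ 2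
      + 3 * (c0 * θ ^ 2 + 2 * c1 * θ + c2) * Θ * t| := by
  have hDR := B3_D_le c0 c1 c2 Θ D R θ hΘ hθ h0 h1 h2 hd
  have ht0 := abs_nonneg t
  have ht1 : |t| ≤ 1 := by
    by_contra h
    push Not at h
    nlinarith
  have hθ0 := abs_nonneg θ
  have ha0 := abs_nonneg (c0 : ℝ)
  have ha1 := abs_nonneg (c1 : ℝ)
  have e1 : |(c0 : ℝ) * Θ ^ 3 * t ^ 2| ≤ R * |t| := by
    rw [abs_mul, abs_mul, abs_pow, abs_pow, abs_of_pos hΘ]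
    calc |(c0 : ℝ)| * Θ ^ 3 * |t| ^ 2 = (|(c0 : ℝ)| * Θ ^ 3 * |t|) * |t| := by ring
      _ ≤ (R * 1) * |t| := by
        apply mul_le_mul_of_nonneg_right _ ht0
        exact mul_le_mul h0 ht1 ht0 hR.le
      _ = R * |t| := by ring
  have e2 : |3 * ((c0 : ℝ) * θ + c1) * Θ ^ 2 * t| ≤ 6 * R * |t| := by
    rw [abs_mul, abs_mul, abs_mul, abs_of_pos (by norm_num : (0 : ℝ) < 3), abs_pow,
      abs_of_pos hΘ]
    apply mul_le_mul_of_nonneg_right _ ht0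
    have e3 : |(c0 : ℝ) * θ + c1| ≤ |(c0 : ℝ)| * Θ + |(c1 : ℝ)| := by
      refine (abs_add_le _ _).trans ?_
      rw [abs_mul]
      have := mul_le_mul_of_nonneg_left hθ ha0
      linarith
    calc 3 * |(c0 : ℝ) * θ + c1| * Θ ^ 2 ≤ 3 * (|(c0 : ℝ)| * Θ + |(c1 : ℝ)|) * Θ ^ 2 := by
          apply mul_le_mul_of_nonneg_right _ (by positivity)
          linarith
      _ = 3 * (|(c0 : ℝ)| * Θ ^ 3) + 3 * (|(c1 : ℝ)| * Θ ^ 2) := by ring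
      _ ≤ 6 * R := by linarith
  have e4 : D ≤ |3 * ((c0 : ℝ) * θ ^ 2 + 2 * c1 * θ + c2) * Θ| := by
    rw [abs_mul, abs_of_pos hΘ, mul_comm]
    exact hd
  have hid : (c0 : ℝ) * Θ ^ 3 * t ^ 3 + 3 * (c0 * θ + c1) * Θ ^ 2 * t ^ 2
      + 3 * (c0 * θ ^ 2 + 2 * c1 * θ + c2) * Θ * t =
      (3 * ((c0 : ℝ) * θ ^ 2 + 2 * c1 * θ + c2) * Θ +
        (c0 * Θ ^ 3 * t ^ 2 + 3 * ((c0 : ℝ) * θ + c1) * Θ ^ 2 * t)) * t := by ring
  rw [hid, abs_mul]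
  have e5 : |(c0 : ℝ) * Θ ^ 3 * t ^ 2 + 3 * ((c0 : ℝ) * θ + c1) * Θ ^ 2 * t| ≤ D / 2 := by
    refine (abs_add_le _ _).trans ?_
    linarith
  have e6 : D / 2 ≤ |3 * ((c0 : ℝ) * θ ^ 2 + 2 * c1 * θ + c2) * Θ +
        (c0 * Θ ^ 3 * t ^ 2 + 3 * ((c0 : ℝ) * θ + c1) * Θ ^ 2 * t)| := by
    have e7 := abs_sub_abs_le_abs_sub (3 * ((c0 : ℝ) * θ ^ 2 + 2 * c1 * θ + c2) * Θ)
      (-(c0 * Θ ^ 3 * t ^ 2 + 3 * ((c0 : ℝ) * θ + c1) * Θ ^ 2 * t))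
    rw [abs_neg, sub_neg_eq_add] at e7
    linarith
  calc |t| * D / 2 = D / 2 * |t| := by ring
    _ ≤ _ := mul_le_mul_of_nonneg_right e6 ht0

private theorem B3_coprime {c0 c1 c2 z a b : ℤ} (h : CF c0 c1 c2 z a b = 1) : IsCoprime a b := by
  refine ⟨c0 * a ^ 2 + 3 * c1 * a * b + 3 * c2 * b ^ 2, z * b ^ 2, ?_⟩
  rw [← h]
  unfold CF
  ring

/-- Uniqueness of `(a, b)` for given `z` in a cell. -/
theorem uniq (c0 c1 c2 z a b a' b' : ℤ) (Θ D R B n : ℝ) (hΘ : 0 < Θ) (hD : 0 < D)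
    (hB : 1 ≤ B) (hn : 1 ≤ n)
    (h0 : |(c0 : ℝ)| * Θ ^ 3 ≤ R) (h1 : |(c1 : ℝ)| * Θ ^ 2 ≤ R) (h2 : |(c2 : ℝ)| * Θ ≤ R)
    (hs : IsS Θ D c0 c1 c2 (z, a, b)) (hs' : IsS Θ D c0 c1 c2 (z, a', b'))
    (hb : B ≤ |(b : ℝ)|) (hb' : B ≤ |(b' : ℝ)|) (hb2 : |(b : ℝ)| ≤ n * B)
    (hb2' : |(b' : ℝ)| ≤ n * B)
    (hclose : |(a : ℝ) / b - (a' : ℝ) / b'| * (14 * R) ≤ Θ * D)
    (hbig : 4 * n ^ 2 * Θ < D * B) : a = a' ∧ b = b' := by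
  obtain ⟨hF, hb0, hab, hd⟩ := hs
  obtain ⟨hF', hb0', hab', -⟩ := hs'
  simp only at hF hb0 hab hd hF' hb0' hab'
  have hbR : (b : ℝ) ≠ 0 := by exact_mod_cast hb0
  have hbR' : (b' : ℝ) ≠ 0 := by exact_mod_cast hb0'
  have hbp : 0 < |(b : ℝ)| := abs_pos.2 hbR
  have hbp' : 0 < |(b' : ℝ)| := abs_pos.2 hbR'
  have hB0 : 0 < B := by linarith
  have hθ : |(a : ℝ) / b| ≤ Θ := by
    rw [abs_div, div_le_iff₀ hbp]
    exact hab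
  have hDR := B3_D_le c0 c1 c2 Θ D R ((a : ℝ) / b) hΘ hθ h0 h1 h2 hd
  have hR : 0 < R := by linarith
  have key : a * b' = a' * b := by
    by_contra hne
    obtain ⟨t, ht⟩ : ∃ t : ℝ, t = ((a' : ℝ) / b' - a / b) / Θ := ⟨_, rfl⟩
    have htΘ : Θ * t = (a' : ℝ) / b' - a / b := by rw [ht]; field_simp
    have htabs : Θ * |t| = |(a : ℝ) / b - (a' : ℝ) / b'| := by
      rw [abs_sub_comm, ← htΘ, abs_mul, abs_of_pos hΘ]
    have ht14 : |t| * (14 * R) ≤ D := by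
      rw [← htabs, mul_assoc] at hclose
      exact le_of_mul_le_mul_left hclose hΘ
    have hinc := incr_bound c0 c1 c2 Θ D R ((a : ℝ) / b) t hΘ hD hR hθ h0 h1 h2 hd ht14
    have hcell : ∀ {a b : ℤ}, CF c0 c1 c2 z a b = 1 → (b : ℝ) ≠ 0 →
        (z : ℝ) + (c0 * ((a : ℝ) / b) ^ 3 + 3 * c1 * ((a : ℝ) / b) ^ 2 + 3 * c2 * ((a : ℝ) / b)) =
          1 / (b : ℝ) ^ 3 := by
      intro a b h hb
      have h' : ((CF c0 c1 c2 z a b : ℤ) : ℝ) = 1 := by rw [h]; norm_num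
      unfold CF at h'
      push_cast at h'
      field_simp
      linarith
    have e1 := hcell hF hbR
    have e2 := hcell hF' hbR'
    have e3 : (c0 : ℝ) * Θ ^ 3 * t ^ 3 + 3 * (c0 * ((a : ℝ) / b) + c1) * Θ ^ 2 * t ^ 2
      + 3 * (c0 * ((a : ℝ) / b) ^ 2 + 2 * c1 * ((a : ℝ) / b) + c2) * Θ * t =
        1 / (b' : ℝ) ^ 3 - 1 / (b : ℝ) ^ 3 := by
      rw [← e1, ← e2]
      have e4 : (a' : ℝ) / b' = (a : ℝ) / b + Θ * t := by rw [htΘ]; ring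
      rw [e4]
      ring
    rw [e3] at hinc
    have e5 : ∀ {b : ℝ}, B ≤ |b| → |1 / b ^ 3| ≤ 1 / B ^ 3 := by
      intro b hb
      rw [abs_div, abs_one, abs_pow]
      exact one_div_le_one_div_of_le (by positivity) (pow_le_pow_left₀ hB0.le hb 3)
    have e6 : |t| * D / 2 ≤ 2 / B ^ 3 := by
      refine hinc.trans ((abs_sub _ _).trans ?_)
      have := e5 hb
      have := e5 hb'
      have e7 : 2 / B ^ 3 = 1 / B ^ 3 + 1 / B ^ 3 := by ring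
      linarith
    have e8 : 1 ≤ |(b : ℝ)| * |(b' : ℝ)| * (Θ * |t|) := by
      rw [htabs, ← abs_mul, ← abs_mul]
      have e9 : (b : ℝ) * b' * (a / b - a' / b') = ((a * b' - a' * b : ℤ) : ℝ) := by
        push_cast
        field_simp
      rw [e9, ← Int.cast_abs]
      have : 1 ≤ |a * b' - a' * b| := Int.one_le_abs (sub_ne_zero.2 hne)
      exact_mod_cast this
    have e10 : |(b : ℝ)| * |(b' : ℝ)| ≤ (n * B) * (n * B) :=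
      mul_le_mul hb2 hb2' (abs_nonneg _) (by positivity)
    have e11 : 1 ≤ (n * B) * (n * B) * (Θ * |t|) :=
      e8.trans (mul_le_mul_of_nonneg_right e10 (by positivity))
    have e12 : |t| * D * B ^ 3 ≤ 4 := by
      rw [div_le_div_iff₀ (by norm_num) (by positivity)] at e6
      linarith
    have ht0 : 0 ≤ |t| := abs_nonneg t
    have htpos : 0 < |t| := by
      rcases ht0.lt_or_eq with h | h
      · exact h
      · exfalso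
        rw [← h] at e11
        norm_num at e11
    -- D B ≤ 4 n² Θ
    have e13 : D * B ≤ 4 * n ^ 2 * Θ := by
      have e14 : D * B * 1 ≤ D * B * ((n * B) * (n * B) * (Θ * |t|)) :=
        mul_le_mul_of_nonneg_left e11 (by positivity)
      have e15 : D * B * ((n * B) * (n * B) * (Θ * |t|)) = (|t| * D * B ^ 3) * (n ^ 2 * Θ) := by
        ring
      have e16 : (|t| * D * B ^ 3) * (n ^ 2 * Θ) ≤ 4 * (n ^ 2 * Θ) :=
        mul_le_mul_of_nonneg_right e12 (by positivity)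
      linarith
    linarith
  have hc := B3_coprime hF
  have hc' := B3_coprime hF'
  have d1 : b ∣ b' := by
    have : b ∣ a * b' := ⟨a', by rw [key]; ring⟩
    exact hc.symm.dvd_of_dvd_mul_left this
  have d2 : b' ∣ b := by
    have : b' ∣ a' * b := ⟨a, by rw [← key]; ring⟩
    exact hc'.symm.dvd_of_dvd_mul_left this
  rcases Int.associated_iff.1 (associated_of_dvd_dvd d1 d2) with h | h
  · subst h
    exact ⟨mul_right_cancel₀ hb0 key, rfl⟩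
  · exfalso
    have hb'' : b' = -b := by rw [h]; ring
    subst hb''
    have ha' : a' = -a := by
      have : a' * b = (-a) * b := by rw [← key]; ring
      exact mul_right_cancel₀ hb0 this
    subst ha'
    have : CF c0 c1 c2 z (-a) (-b) = -CF c0 c1 c2 z a b := by
      unfold CF
      ring
    rw [this, hF] at hF'
    norm_num at hF'

end LibHall
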