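import Mathlib

set_option autoImplicit false

namespace LibHall

/-- The value at `(a, b)` of the binary cubic form `c0 X^3 + 3 c1 X^2 Y + 3 c2 X Y^2 + c3 Y^3`. -/
def CF (c0 c1 c2 c3 a b : ℤ) : ℤ :=
  c0 * a ^ 3 + 3 * c1 * a ^ 2 * b + 3 * c2 * a * b ^ 2 + c3 * b ^ 3

/-- The symmetric trilinear form with `T3 x y v v v = p^3 - 3 x p q^2 + 2 y q^3`, `v = (p, q)`. -/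
def T3 (x y : ℤ) (u v w : ℤ × ℤ) : ℤ :=
  u.1 * v.1 * w.1 - x * (u.1 * v.2 * w.2 + u.2 * v.1 * w.2 + u.2 * v.2 * w.1)
    + 2 * y * (u.2 * v.2 * w.2)

/-- The coordinate `p - sqrt x q`. -/
noncomputable def ee (x : ℤ) (v : ℤ × ℤ) : ℝ := (v.1 : ℝ) - √(x : ℝ) * (v.2 : ℝ)

/-- The normalised quadratic form. -/
noncomputable def Qn (A : ℝ) (x : ℤ) (v : ℤ × ℤ) : ℝ :=
  (ee x v * √(x : ℝ) / A) ^ 2 + ((v.2 : ℝ) * A / √(x : ℝ)) ^ 2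

/-- The pairs `(x, y)` which are counted: `A^(12/5) ≤ x ≤ A^(4C)`, `0 < |y^2 - x^3| ≤ A^4`. -/
def IsG (A : ℝ) (C : ℕ) (x y : ℤ) : Prop :=
  0 < x ∧ A ^ 12 ≤ (x : ℝ) ^ 5 ∧ (x : ℝ) ≤ A ^ (4 * C) ∧ 0 ≤ y ∧ y ^ 2 ≠ x ^ 3 ∧
    |((y ^ 2 - x ^ 3 : ℤ) : ℝ)| ≤ A ^ 4

/-- Bases `(w1, w2)` of `ℤ^2` of type `(N1, N2)` relative to `(x, y)`. -/
def IsW (A N1 N2 : ℝ) (x y : ℤ) (w1 w2 : ℤ × ℤ) : Prop :=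
  w1.1 * w2.2 - w2.1 * w1.2 = 1 ∧
    |ee x w1| * √(x : ℝ) ≤ N1 * A ∧ |(w1.2 : ℝ)| * A ≤ N1 * √(x : ℝ) ∧
    |ee x w2| * √(x : ℝ) ≤ N2 * A ∧ |(w2.2 : ℝ)| * A ≤ N2 * √(x : ℝ) ∧
    N1 * √(x : ℝ) ≤ 20 * |(w1.2 : ℝ)| * A ∧
    T3 x y w1 w1 w1 ≠ 0 ∧ T3 x y w2 w2 w2 ≠ 0

/-- The data of a slice point: `s = (z, a, b)` solves `CF c0 c1 c2 z a b = 1` with
`|a| ≤ Θ |b|`, and the derivative is at least `D`. -/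
def IsS (Θ D : ℝ) (c0 c1 c2 : ℤ) (s : ℤ × ℤ × ℤ) : Prop :=
  CF c0 c1 c2 s.1 s.2.1 s.2.2 = 1 ∧ s.2.2 ≠ 0 ∧ |(s.2.1 : ℝ)| ≤ Θ * |(s.2.2 : ℝ)| ∧
    D ≤ Θ * |3 * ((c0 : ℝ) * ((s.2.1 : ℝ) / s.2.2) ^ 2 + 2 * c1 * ((s.2.1 : ℝ) / s.2.2) + c2)|

end LibHall
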