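import Mathlib

set_option autoImplicit false

namespace LibHall

/-- Dirichlet's box principle for real linear forms in integer variables. -/
theorem box_principle {ι κ : Type} [Fintype ι] [Fintype κ] (M : κ → ι → ℝ) (H : ι → ℕ)
    (W ω : κ → ℝ) (hω : ∀ s, 0 < ω s) (hW : ∀ s, ∑ i, |M s i| * H i ≤ W s)
    (hcount : ∏ s, (W s / ω s + 1) < ∏ i, ((H i : ℝ) + 1)) :
    ∃ v : ι → ℤ, v ≠ 0 ∧ (∀ i, |v i| ≤ (H i : ℤ)) ∧ ∀ s, |∑ i, M s i * (v i : ℝ)| ≤ ω s := by
  classical
  -- the minimal value of the form `s` on the box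
  set m : κ → ℝ := fun s => ∑ i, min (M s i) 0 * H i with hm
  set L : κ → ((i : ι) → Fin (H i + 1)) → ℝ := fun s v => ∑ i, M s i * ((v i : ℕ) : ℝ) with hL
  have hlow : ∀ s v, m s ≤ L s v := by
    intro s v
    refine Finset.sum_le_sum fun i _ => ?_
    have h1 : ((v i : ℕ) : ℝ) ≤ H i := by
      exact_mod_cast Nat.lt_succ_iff.mp (v i).2
    have h2 : (0 : ℝ) ≤ ((v i : ℕ) : ℝ) := Nat.cast_nonneg _
    rcases le_total (M s i) 0 with h | h
    · rw [min_eq_left h]; nlinarith
    · rw [min_eq_right h]; nlinarith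
  have hup : ∀ s v, L s v ≤ m s + W s := by
    intro s v
    have : L s v ≤ m s + ∑ i, |M s i| * H i := by
      rw [hm, ← Finset.sum_add_distrib]
      refine Finset.sum_le_sum fun i _ => ?_
      have h1 : ((v i : ℕ) : ℝ) ≤ H i := by
        exact_mod_cast Nat.lt_succ_iff.mp (v i).2
      have h2 : (0 : ℝ) ≤ ((v i : ℕ) : ℝ) := Nat.cast_nonneg _
      rcases le_total (M s i) 0 with h | h
      · rw [min_eq_left h, abs_of_nonpos h]; nlinarith
      · rw [min_eq_right h, abs_of_nonneg h]; nlinarith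
    linarith [hW s]
  have hWnn : ∀ s, 0 ≤ W s := fun s =>
    le_trans (Finset.sum_nonneg fun i _ => mul_nonneg (abs_nonneg _) (Nat.cast_nonneg _)) (hW s)
  -- the cell of a vector
  set idx : ((i : ι) → Fin (H i + 1)) → ((s : κ) → ℕ) := fun v s =>
    ⌊(L s v - m s) / ω s⌋₊ with hidx
  have hidxlt : ∀ v s, idx v s < ⌊W s / ω s⌋₊ + 1 := by
    intro v s
    refine Nat.lt_succ_iff.mpr (Nat.floor_le_floor ?_)
    refine div_le_div_of_nonneg_right ?_ (hω s).le
    linarith [hup s v]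
  let F : ((i : ι) → Fin (H i + 1)) → ((s : κ) → Fin (⌊W s / ω s⌋₊ + 1)) :=
    fun v s => ⟨idx v s, hidxlt v s⟩
  have hcard : Fintype.card ((s : κ) → Fin (⌊W s / ω s⌋₊ + 1)) <
      Fintype.card ((i : ι) → Fin (H i + 1)) := by
    rw [Fintype.card_pi, Fintype.card_pi]
    simp only [Fintype.card_fin]
    have h1 : ((∏ s, (⌊W s / ω s⌋₊ + 1) : ℕ) : ℝ) ≤ ∏ s, (W s / ω s + 1) := by
      push_cast
      refine Finset.prod_le_prod (fun s _ => by positivity) fun s _ => ?_
      have := Nat.floor_le (div_nonneg (hWnn s) (hω s).le)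
      linarith
    have h2 : ((∏ i, (H i + 1) : ℕ) : ℝ) = ∏ i, ((H i : ℝ) + 1) := by push_cast; rfl
    exact_mod_cast h1.trans_lt (h2 ▸ hcount)
  obtain ⟨v, w, hne, hvw⟩ := Fintype.exists_ne_map_eq_of_card_lt F hcard
  refine ⟨fun i => ((v i : ℕ) : ℤ) - ((w i : ℕ) : ℤ), ?_, ?_, ?_⟩
  · intro h
    apply hne
    funext i
    have := congrFun h i
    simp only [Pi.zero_apply] at this
    exact Fin.ext (by omega)
  · intro i
    have h1 := (v i).2
    have h2 := (w i).2
    show |((v i : ℕ) : ℤ) - ((w i : ℕ) : ℤ)| ≤ (H i : ℤ)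
    rw [abs_le]
    constructor <;> omega
  · intro s
    have h1 : idx v s = idx w s := by
      have := congrFun hvw s
      exact congrArg Fin.val this
    have h2 : ∑ i, M s i * (((((v i : ℕ) : ℤ) - ((w i : ℕ) : ℤ) : ℤ)) : ℝ) = L s v - L s w := by
      rw [hL, ← Finset.sum_sub_distrib]
      refine Finset.sum_congr rfl fun i _ => ?_
      push_cast
      ring
    rw [h2]
    have hv0 : 0 ≤ (L s v - m s) / ω s := div_nonneg (by linarith [hlow s v]) (hω s).le
    have hw0 : 0 ≤ (L s w - m s) / ω s := div_nonneg (by linarith [hlow s w]) (hω s).le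
    have h3 := Nat.floor_le hv0
    have h4 := Nat.lt_floor_add_one ((L s v - m s) / ω s)
    have h5 := Nat.floor_le hw0
    have h6 := Nat.lt_floor_add_one ((L s w - m s) / ω s)
    simp only [hidx] at h1
    rw [h1] at h3 h4
    have h7 : |(L s v - m s) / ω s - (L s w - m s) / ω s| ≤ 1 := by
      rw [abs_le]; constructor <;> linarith
    have h8 : L s v - L s w = ((L s v - m s) / ω s - (L s w - m s) / ω s) * ω s := by
      have := (hω s).ne'
      field_simp
      ring
    rw [h8, abs_mul, abs_of_pos (hω s)]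
    nlinarith [hω s]

end LibHall
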