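import Mathlib

set_option autoImplicit false

open Polynomial

namespace LibHall

/-- The sum of the absolute values of the coefficients. -/
noncomputable def l1 (p : ℝ[X]) : ℝ := ∑ i ∈ p.support, |p.coeff i|

theorem l1_eq (p : ℝ[X]) (N : ℕ) (h : p.natDegree < N) :
    l1 p = ∑ i ∈ Finset.range N, |p.coeff i| := by
  unfold l1
  refine Finset.sum_subset ?_ ?_
  · intro i hi
    rw [Finset.mem_range]
    exact (le_natDegree_of_mem_supp i hi).trans_lt h
  · intro i _ hi
    rw [notMem_support_iff.1 hi, abs_zero]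

theorem l1_nonneg (p : ℝ[X]) : 0 ≤ l1 p :=
  Finset.sum_nonneg fun _ _ => abs_nonneg _

theorem l1_C (c : ℝ) : l1 (C c) = |c| := by
  rw [l1_eq _ 1 (by rw [natDegree_C]; exact Nat.zero_lt_one)]
  simp

theorem l1_X : l1 X = 1 := by
  rw [l1_eq _ 2 (by rw [natDegree_X]; exact Nat.one_lt_two)]
  simp [Finset.sum_range_succ, coeff_X]

theorem l1_neg (p : ℝ[X]) : l1 (-p) = l1 p := by
  unfold l1
  rw [support_neg]
  exact Finset.sum_congr rfl fun i _ => by rw [coeff_neg, abs_neg]

theorem l1_add_le (p q : ℝ[X]) : l1 (p + q) ≤ l1 p + l1 q := by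
  have h1 : (p + q).natDegree < p.natDegree + q.natDegree + 1 :=
    (natDegree_add_le p q).trans_lt (by omega)
  rw [l1_eq _ _ h1, l1_eq p (p.natDegree + q.natDegree + 1) (by omega),
    l1_eq q (p.natDegree + q.natDegree + 1) (by omega), ← Finset.sum_add_distrib]
  exact Finset.sum_le_sum fun i _ => by
    rw [coeff_add]
    exact abs_add_le _ _

theorem l1_sub_le (p q : ℝ[X]) : l1 (p - q) ≤ l1 p + l1 q := by
  rw [sub_eq_add_neg, ← l1_neg q]
  exact l1_add_le _ _

theorem l1_sum_le {ι : Type} (s : Finset ι) (f : ι → ℝ[X]) :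
    l1 (∑ i ∈ s, f i) ≤ ∑ i ∈ s, l1 (f i) := by
  classical
  induction s using Finset.induction_on with
  | empty => simp [l1]
  | insert a s ha ih =>
    rw [Finset.sum_insert ha, Finset.sum_insert ha]
    exact (l1_add_le _ _).trans (by linarith)

private theorem A2_l1_monomial_mul (n : ℕ) (a : ℝ) (q : ℝ[X]) :
    l1 (monomial n a * q) ≤ |a| * l1 q := by
  have h1 : (monomial n a * q).natDegree < n + (q.natDegree + 1) := by
    have h2 := natDegree_mul_le (p := monomial n a) (q := q)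
    have h3 := natDegree_monomial_le (R := ℝ) a (m := n)
    omega
  rw [l1_eq _ _ h1, Finset.sum_range_add, l1_eq q (q.natDegree + 1) (by omega), Finset.mul_sum]
  have h4 : ∑ i ∈ Finset.range n, |(monomial n a * q).coeff i| = 0 := by
    refine Finset.sum_eq_zero fun i hi => ?_
    rw [Finset.mem_range] at hi
    rw [← C_mul_X_pow_eq_monomial, mul_assoc, coeff_C_mul, coeff_X_pow_mul', if_neg (by omega),
      mul_zero, abs_zero]
  rw [h4, zero_add]
  refine Finset.sum_le_sum fun i _ => le_of_eq ?_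
  rw [← C_mul_X_pow_eq_monomial, mul_assoc, coeff_C_mul, add_comm n i, coeff_X_pow_mul, abs_mul]

theorem l1_mul_le (p q : ℝ[X]) : l1 (p * q) ≤ l1 p * l1 q := by
  have h1 : p * q = ∑ i ∈ p.support, monomial i (p.coeff i) * q := by
    rw [← Finset.sum_mul]
    congr 1
    exact p.as_sum_support
  rw [h1]
  refine (l1_sum_le _ _).trans ?_
  rw [show l1 p = ∑ i ∈ p.support, |p.coeff i| from rfl, Finset.sum_mul]
  exact Finset.sum_le_sum fun i _ => A2_l1_monomial_mul _ _ _

theorem l1_pow_le (p : ℝ[X]) (n : ℕ) : l1 (p ^ n) ≤ l1 p ^ n := by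
  induction n with
  | zero =>
    rw [pow_zero, pow_zero, ← C_1, l1_C, abs_one]
  | succ n ih =>
    rw [pow_succ, pow_succ]
    exact (l1_mul_le _ _).trans (mul_le_mul_of_nonneg_right ih (l1_nonneg p))

theorem abs_coeff_le_l1 (p : ℝ[X]) (i : ℕ) : |p.coeff i| ≤ l1 p := by
  by_cases hi : i ∈ p.support
  · exact Finset.single_le_sum (f := fun i => |p.coeff i|) (fun _ _ => abs_nonneg _) hi
  · rw [notMem_support_iff.1 hi, abs_zero]
    exact l1_nonneg p

/-- Evaluation bound with a tail. -/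
theorem eval_bound (p : ℝ[X]) (τ t : ℝ) (h0 : 0 ≤ τ) (h1 : τ ≤ 1) (ht : |t| ≤ τ) (n : ℕ) :
    |p.eval t| ≤ ∑ l ∈ Finset.range n, |p.coeff l| * τ ^ l + l1 p * τ ^ n := by
  have hN : p.natDegree < n + (p.natDegree + 1) := by omega
  have hterm : ∀ l, |p.coeff l * t ^ l| ≤ |p.coeff l| * τ ^ l := by
    intro l
    rw [abs_mul, abs_pow]
    exact mul_le_mul_of_nonneg_left (pow_le_pow_left₀ (abs_nonneg t) ht l) (abs_nonneg _)
  rw [eval_eq_sum_range' hN, Finset.sum_range_add]
  refine (abs_add_le _ _).trans (add_le_add ?_ ?_)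
  · exact (Finset.abs_sum_le_sum_abs _ _).trans (Finset.sum_le_sum fun l _ => hterm l)
  · refine (Finset.abs_sum_le_sum_abs _ _).trans ?_
    have h2 : ∑ l ∈ Finset.range (p.natDegree + 1), |p.coeff (n + l) * t ^ (n + l)| ≤
        (∑ l ∈ Finset.range (p.natDegree + 1), |p.coeff (n + l)|) * τ ^ n := by
      rw [Finset.sum_mul]
      refine Finset.sum_le_sum fun l _ => (hterm _).trans ?_
      exact mul_le_mul_of_nonneg_left (pow_le_pow_of_le_one h0 h1 (Nat.le_add_right n l))
        (abs_nonneg _)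
    refine h2.trans (mul_le_mul_of_nonneg_right ?_ (pow_nonneg h0 n))
    rw [l1_eq p _ hN, Finset.sum_range_add _ n (p.natDegree + 1)]
    have h3 : 0 ≤ ∑ x ∈ Finset.range n, |p.coeff x| := Finset.sum_nonneg fun _ _ => abs_nonneg _
    linarith

end LibHall
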