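import Mathlib

set_option autoImplicit false

namespace LibHall

private theorem A4_sum (R : ℤ) (n : ℕ) :
    1808 * ∑ l ∈ Finset.range n, (R - 904 * (l : ℤ)) ≤ (R + 452) ^ 2 := by
  have h : 2 * ∑ l ∈ Finset.range n, (R - 904 * (l : ℤ)) = 2 * n * R - 904 * n * (n - 1) := by
    induction n with
    | zero => simp
    | succ n ih =>
      rw [Finset.sum_range_succ, mul_add, ih]
      push_cast
      ring
  nlinarith [sq_nonneg (904 * (n : ℤ) - (R + 452)), h]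

private theorem A4_main (k ν v : ℤ) (hk : 0 ≤ k) (hν : 1001 ≤ ν) (hν' : ν ≤ 2002) (hv' : v ≤ 344) :
    1002 * ((6 * k + ν + 455) ^ 2 + (3 * k + ν - 547) ^ 2) + 1808 * (5 * k + ν + 2004 - v) ≤
      1808 * (5 * k + ν + 1002 - v) * (5 * k + ν) := by
  have h1 : 0 ≤ (ν - 1001) * (2002 - ν) := mul_nonneg (by linarith) (by linarith)
  have h2 : 0 ≤ (344 - v) * (5 * k + ν - 1) := mul_nonneg (by linarith) (by linarith)
  have h3 : 0 ≤ k * (ν - 1001) := mul_nonneg hk (by linarith)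
  have h4 : 0 ≤ k * (2002 - ν) := mul_nonneg hk (by linarith)
  nlinarith [h1, h2, h3, h4, sq_nonneg k]

/-- The choice of the parameters of the box principle. -/
theorem arith (k ϑ : ℕ) (hϑ : ϑ ≤ 344) : ∃ m n0 n1 : ℕ,
    1 ≤ m ∧ m ≤ k + 2 ∧ n0 ≤ 2 * k + 4 ∧ n1 ≤ 2 * k + 4 ∧
    1002 * m + ϑ ≤ 5 * k + 2002 ∧
    1002 * m + k + 2 + ϑ ≤ 904 * n0 ∧
    1002 * m + ϑ + 2 ≤ 904 * n1 + 2 * k + 1002 ∧
    (∀ l < n0, 904 * l < 1002 * m + k + 2 + ϑ) ∧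
    (∀ l < n1, 904 * l + 2 * k + 1002 < 1002 * m + ϑ + 2) ∧
    ∑ l ∈ Finset.range n0, (1002 * m + k + 3 + ϑ - 904 * l)
      + ∑ l ∈ Finset.range n1, (1002 * m + ϑ + 3 - (904 * l + 2 * k + 1002)) + (m + 1) + 1
      ≤ 1002 * m * (m + 1) + ϑ * (m + 1) := by
  obtain ⟨m, hm⟩ : ∃ m, m = (5 * k + 2002 - ϑ) / 1002 := ⟨_, rfl⟩
  obtain ⟨n0, hn0⟩ : ∃ n0, n0 = (1002 * m + k + 2 + ϑ + 903) / 904 := ⟨_, rfl⟩
  obtain ⟨n1, hn1⟩ : ∃ n1, n1 = (1002 * m + ϑ + 2 - (2 * k + 1002) + 903) / 904 := ⟨_, rfl⟩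
  have hm1 : 1002 * m + ϑ ≤ 5 * k + 2002 := by omega
  have hm2 : 5 * k + 1001 ≤ 1002 * m + ϑ := by omega
  have e0 : ∀ l < n0, 904 * l < 1002 * m + k + 2 + ϑ := by
    intro l hl
    omega
  have e1 : ∀ l < n1, 904 * l + 2 * k + 1002 < 1002 * m + ϑ + 2 := by
    intro l hl
    omega
  refine ⟨m, n0, n1, by omega, by omega, by omega, by omega, hm1, by omega, by omega, e0, e1, ?_⟩
  have c0 : ((∑ l ∈ Finset.range n0, (1002 * m + k + 3 + ϑ - 904 * l) : ℕ) : ℤ) =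
      ∑ l ∈ Finset.range n0, (((1002 * m + k + 3 + ϑ : ℕ) : ℤ) - 904 * (l : ℤ)) := by
    rw [Nat.cast_sum]
    refine Finset.sum_congr rfl fun l hl => ?_
    have := e0 l (Finset.mem_range.mp hl)
    rw [Nat.cast_sub (by omega)]
    push_cast
    ring
  have c1 : ((∑ l ∈ Finset.range n1, (1002 * m + ϑ + 3 - (904 * l + 2 * k + 1002)) : ℕ) : ℤ) =
      ∑ l ∈ Finset.range n1, ((((1002 * m + ϑ + 3 : ℕ) : ℤ) - (2 * k + 1002)) -
        904 * (l : ℤ)) := by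
    rw [Nat.cast_sum]
    refine Finset.sum_congr rfl fun l hl => ?_
    have := e1 l (Finset.mem_range.mp hl)
    rw [Nat.cast_sub (by omega)]
    push_cast
    ring
  have s0 := A4_sum ((1002 * m + k + 3 + ϑ : ℕ) : ℤ) n0
  have s1 := A4_sum ((((1002 * m + ϑ + 3 : ℕ) : ℤ) - (2 * k + 1002))) n1
  rw [← c0] at s0
  rw [← c1] at s1
  have hmain := A4_main k (1002 * m + ϑ - 5 * k) ϑ (by positivity) (by omega) (by omega) (by omega)
  generalize (∑ l ∈ Finset.range n0, (1002 * m + k + 3 + ϑ - 904 * l) : ℕ) = S0 at s0 ⊢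
  generalize (∑ l ∈ Finset.range n1, (1002 * m + ϑ + 3 - (904 * l + 2 * k + 1002)) : ℕ) = S1
    at s1 ⊢
  zify
  push_cast at s0 s1
  have h0 : ((1002 * (m : ℤ) + k + 3 + ϑ + 452) ^ 2) =
      (6 * (k : ℤ) + (1002 * m + ϑ - 5 * k) + 455) ^ 2 := by ring
  have h1 : ((1002 * (m : ℤ) + ϑ + 3 - (2 * k + 1002) + 452) ^ 2) =
      (3 * (k : ℤ) + (1002 * m + ϑ - 5 * k) - 547) ^ 2 := by ring
  rw [h0] at s0
  rw [h1] at s1
  have h2 : 1808 * (5 * (k : ℤ) + (1002 * m + ϑ - 5 * k) + 1002 - ϑ) *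
      (5 * k + (1002 * m + ϑ - 5 * k)) =
      1808 * 1002 * ((m + 1) * (1002 * m + ϑ)) := by ring
  have h3 : 1808 * (5 * (k : ℤ) + (1002 * m + ϑ - 5 * k) + 2004 - ϑ) =
      1808 * 1002 * (m + 2) := by ring
  rw [h2, h3] at hmain
  have h4 : (1002 : ℤ) * m * (m + 1) + ϑ * (m + 1) = (m + 1) * (1002 * m + ϑ) := by ring
  rw [h4]
  linarith

end LibHall
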