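import Pool.Agent.LibHall43.B1a

set_option autoImplicit false

open Polynomial

namespace LibHall

private noncomputable def b1Phi (c0 c1 c2 z0 : ℤ) (U V : ℤ[X]) : ℤ[X] :=
  C c0 * U ^ 3 + C (3 * c1) * (U ^ 2 * V) + C (3 * c2) * (U * V ^ 2) + (C z0 + X) * V ^ 3

private theorem b1_natDegree (m : ℕ) (c0 c1 c2 z0 : ℤ) (U V : ℤ[X]) (hU : U.natDegree ≤ m)
    (hV : V.natDegree ≤ m) : (b1Phi c0 c1 c2 z0 U V).natDegree ≤ 3 * m + 1 := by
  have h1 : (C c0 * U ^ 3).natDegree ≤ 3 * m + 1 := by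
    refine (natDegree_C_mul_le _ _).trans (natDegree_pow_le.trans ?_)
    omega
  have h2 : (C (3 * c1) * (U ^ 2 * V)).natDegree ≤ 3 * m + 1 := by
    refine (natDegree_C_mul_le _ _).trans (natDegree_mul_le.trans ?_)
    have := natDegree_pow_le (p := U) (n := 2)
    omega
  have h3 : (C (3 * c2) * (U * V ^ 2)).natDegree ≤ 3 * m + 1 := by
    refine (natDegree_C_mul_le _ _).trans (natDegree_mul_le.trans ?_)
    have := natDegree_pow_le (p := V) (n := 2)
    omega
  have h4 : ((C z0 + X) * V ^ 3).natDegree ≤ 3 * m + 1 := by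
    refine natDegree_mul_le.trans ?_
    have := natDegree_pow_le (p := V) (n := 3)
    have h5 : (C z0 + X : ℤ[X]).natDegree ≤ 1 := by
      refine (natDegree_add_le _ _).trans ?_
      simp
    omega
  exact natDegree_add_le_of_degree_le (natDegree_add_le_of_degree_le
    (natDegree_add_le_of_degree_le h1 h2) h3) h4

private theorem b1_nonconst (c0 c1 c2 z0 : ℤ) (hc0 : c0 ≠ 0) (U V : ℤ[X]) (hV : V ≠ 0) (c : ℤ) :
    b1Phi c0 c1 c2 z0 U V - C c ≠ 0 := by
  intro h
  have h' : b1Phi c0 c1 c2 z0 U V = C c := by linear_combination h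
  set a := U.natDegree with ha
  set b := V.natDegree with hb
  have hU2 := natDegree_pow_le (p := U) (n := 2)
  have hU3 := natDegree_pow_le (p := U) (n := 3)
  have hV2 := natDegree_pow_le (p := V) (n := 2)
  have hV3 := natDegree_pow_le (p := V) (n := 3)
  have e1 : (U ^ 2 * V).natDegree ≤ 2 * a + b := by
    refine natDegree_mul_le.trans ?_
    omega
  have e2 : (U * V ^ 2).natDegree ≤ a + 2 * b := by
    refine natDegree_mul_le.trans ?_
    omega
  rcases le_or_gt a b with hab | hab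
  · have hc := congrArg (fun p : ℤ[X] => p.coeff (3 * b + 1)) h'
    simp only [b1Phi, coeff_add, coeff_C_mul, add_mul] at hc
    rw [coeff_eq_zero_of_natDegree_lt (show (U ^ 3).natDegree < 3 * b + 1 by omega),
      coeff_eq_zero_of_natDegree_lt (show (U ^ 2 * V).natDegree < 3 * b + 1 by omega),
      coeff_eq_zero_of_natDegree_lt (show (U * V ^ 2).natDegree < 3 * b + 1 by omega),
      coeff_eq_zero_of_natDegree_lt (show (V ^ 3).natDegree < 3 * b + 1 by omega),
      coeff_X_mul, coeff_C_succ] at hc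
    have h3 : (V ^ 3).coeff (3 * b) = V.leadingCoeff ^ 3 := by
      have : 3 * b = (V ^ 3).natDegree := by rw [natDegree_pow]
      rw [this, coeff_natDegree, leadingCoeff_pow]
    rw [h3] at hc
    have : V.leadingCoeff ^ 3 = 0 := by linarith
    exact hV (leadingCoeff_eq_zero.mp (pow_eq_zero_iff (by norm_num)|>.mp this))
  · have hc := congrArg (fun p : ℤ[X] => p.coeff (3 * a)) h'
    simp only [b1Phi, coeff_add, coeff_C_mul, add_mul] at hc
    obtain ⟨a', ha'⟩ : ∃ a', 3 * a = a' + 1 := ⟨3 * a - 1, by omega⟩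
    rw [coeff_eq_zero_of_natDegree_lt (show (U ^ 2 * V).natDegree < 3 * a by omega),
      coeff_eq_zero_of_natDegree_lt (show (U * V ^ 2).natDegree < 3 * a by omega),
      coeff_eq_zero_of_natDegree_lt (show (V ^ 3).natDegree < 3 * a by omega)] at hc
    have h3 : (U ^ 3).coeff (3 * a) = U.leadingCoeff ^ 3 := by
      have : 3 * a = (U ^ 3).natDegree := by rw [natDegree_pow]
      rw [this, coeff_natDegree, leadingCoeff_pow]
    rw [h3, ha', coeff_X_mul, coeff_C_succ,
      coeff_eq_zero_of_natDegree_lt (show (V ^ 3).natDegree < a' by omega)] at hc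
    have h4 : c0 * U.leadingCoeff ^ 3 = 0 := by linarith
    rcases mul_eq_zero.mp h4 with h5 | h5
    · exact hc0 h5
    · have : U = 0 := leadingCoeff_eq_zero.mp (pow_eq_zero_iff (by norm_num)|>.mp h5)
      rw [this, natDegree_zero] at ha
      omega

/-- The second step: few values of `h`. -/
theorem poly2 (m : ℕ) (U V : ℤ[X]) (hU : U.natDegree ≤ m) (hV : V.natDegree ≤ m)
    (h : U ≠ 0 ∨ V ≠ 0) (H : ℕ) (hH : 1 ≤ H) (hUH : ∀ i, |U.coeff i| ≤ (H : ℤ))
    (hVH : ∀ i, |V.coeff i| ≤ (H : ℤ)) (c0 c1 c2 z0 : ℤ) (hc0 : c0 ≠ 0) :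
    ∃ l : ℕ, 0 < l ∧ l ≤ (4 * (m + 1) * H) ^ (2 * m + 2) ∧ ∀ Z : Finset ℤ,
      (∀ x ∈ Z, ∃ a b : ℤ, b ≠ 0 ∧ a * V.eval x = b * U.eval x ∧
        CF c0 c1 c2 (z0 + x) a b = 1) →
      Z.card ≤ m + (3 * m + 1) * (2 * l.divisors.card) := by
  obtain ⟨d, U1, V1, α, β, l, hUd, hVd, hd, hdm, hαβ, hl0, hlb⟩ :=
    exists_bezout m U V hU hV h H hH hUH hVH
  refine ⟨l.natAbs, Int.natAbs_pos.mpr hl0, ?_, fun Z hZ => ?_⟩
  · zify
    exact hlb
  have hU1 : U1.natDegree ≤ m := by
    by_cases h0 : U1 = 0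
    · simp [h0]
    · rw [hUd, natDegree_mul hd h0] at hU
      omega
  have hV1 : V1.natDegree ≤ m := by
    by_cases h0 : V1 = 0
    · simp [h0]
    · rw [hVd, natDegree_mul hd h0] at hV
      omega
  -- the key property
  have hkey : ∀ x ∈ Z, d.eval x ≠ 0 → ∃ g : ℤ, g ∣ l ∧ V1 ≠ 0 ∧
      (b1Phi c0 c1 c2 z0 U1 V1).eval x = g ^ 3 := by
    intro x hx hdx
    obtain ⟨a, b, hb0, hab, hCF⟩ := hZ x hx
    rw [hUd, hVd, eval_mul, eval_mul] at hab
    have hab' : a * V1.eval x = b * U1.eval x := by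
      apply mul_left_cancel₀ hdx
      linear_combination hab
    have hcop : IsCoprime b a := by
      refine ⟨3 * c1 * a ^ 2 + 3 * c2 * a * b + (z0 + x) * b ^ 2, c0 * a ^ 2, ?_⟩
      have := hCF
      unfold CF at this
      linear_combination this
    have hbV : b ∣ V1.eval x := hcop.dvd_of_dvd_mul_left ⟨U1.eval x, hab'⟩
    obtain ⟨g, hg⟩ := hbV
    have hgU : U1.eval x = a * g := by
      apply mul_left_cancel₀ hb0
      rw [← hab', hg]
      ring
    have hev : α.eval x * U1.eval x + β.eval x * V1.eval x = l := by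
      have := congrArg (fun p : ℤ[X] => p.eval x) hαβ
      simpa using this
    refine ⟨g, ⟨α.eval x * a + β.eval x * b, ?_⟩, ?_, ?_⟩
    · rw [← hev, hgU, hg]; ring
    · rintro rfl
      rw [eval_zero] at hg
      have hg0 : g = 0 := (mul_eq_zero.mp hg.symm).resolve_left hb0
      rw [hgU, eval_zero, hg0] at hev
      apply hl0
      rw [← hev]
      ring
    · simp only [b1Phi, eval_add, eval_mul, eval_C, eval_pow, eval_X]
      rw [hgU, hg]
      have := hCF
      unfold CF at this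
      linear_combination g ^ 3 * this
  classical
  set D : Finset ℤ := l.natAbs.divisors.image (fun n : ℕ => (n : ℤ)) ∪
    l.natAbs.divisors.image (fun n : ℕ => -(n : ℤ)) with hD
  have hDcard : D.card ≤ 2 * l.natAbs.divisors.card := by
    refine (Finset.card_union_le _ _).trans ?_
    have h1 := Finset.card_image_le (s := l.natAbs.divisors) (f := fun n : ℕ => (n : ℤ))
    have h2 := Finset.card_image_le (s := l.natAbs.divisors) (f := fun n : ℕ => -(n : ℤ))
    omega
  have hDmem : ∀ g : ℤ, g ∣ l → g ∈ D := by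
    intro g hg
    rw [hD, Finset.mem_union, Finset.mem_image, Finset.mem_image]
    have hgd : g.natAbs ∈ l.natAbs.divisors := by
      rw [Nat.mem_divisors]
      exact ⟨Int.natAbs_dvd_natAbs.mpr hg, Int.natAbs_ne_zero.mpr hl0⟩
    rcases Int.natAbs_eq g with h1 | h1
    · exact Or.inl ⟨_, hgd, h1.symm⟩
    · exact Or.inr ⟨_, hgd, h1.symm⟩
  have hsub : Z ⊆ d.roots.toFinset ∪
      (D.biUnion fun g => if V1 = 0 then ∅ else
        (b1Phi c0 c1 c2 z0 U1 V1 - C (g ^ 3)).roots.toFinset) := by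
    intro x hx
    rw [Finset.mem_union]
    by_cases hdx : d.eval x = 0
    · left
      rw [Multiset.mem_toFinset, mem_roots hd]
      exact hdx
    · right
      obtain ⟨g, hg, hV10, hgx⟩ := hkey x hx hdx
      rw [Finset.mem_biUnion]
      refine ⟨g, hDmem g hg, ?_⟩
      rw [if_neg hV10, Multiset.mem_toFinset,
        mem_roots (b1_nonconst c0 c1 c2 z0 hc0 U1 V1 hV10 _)]
      simp [IsRoot, hgx]
  refine (Finset.card_le_card hsub).trans ((Finset.card_union_le _ _).trans ?_)
  have h1 : d.roots.toFinset.card ≤ m :=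
    (Multiset.toFinset_card_le _).trans ((card_roots' d).trans hdm)
  have h2 : (D.biUnion fun g => if V1 = 0 then ∅ else
        (b1Phi c0 c1 c2 z0 U1 V1 - C (g ^ 3)).roots.toFinset).card ≤ D.card * (3 * m + 1) := by
    apply Finset.card_biUnion_le_card_mul
    intro g _
    split_ifs
    · simp
    · refine (Multiset.toFinset_card_le _).trans ((card_roots' _).trans ?_)
      refine (natDegree_sub_le _ _).trans ?_
      rw [natDegree_C]
      simpa using b1_natDegree m c0 c1 c2 z0 U1 V1 hU1 hV1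
  have h3 : D.card * (3 * m + 1) ≤ (3 * m + 1) * (2 * l.natAbs.divisors.card) := by
    rw [mul_comm]
    exact Nat.mul_le_mul_left _ hDcard
  omega

end LibHall
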