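import Pool.Agent.LibHall43.Defs

set_option autoImplicit false

open Polynomial

namespace LibHall

section
attribute [local instance] Matrix.seminormedAddCommGroup

private theorem b1a_siegel {β : Type} [Fintype β] (N : ℕ) (hβ : Fintype.card β = N) (hN : 2 ≤ N)
    (A : Matrix (Fin (N - 1)) β ℤ) (H : ℕ) (hH : 1 ≤ H) (hA : ∀ i j, |A i j| ≤ (H : ℤ)) :
    ∃ t : β → ℤ, t ≠ 0 ∧ (∀ i, ∑ j, A i j * t j = 0) ∧
      ∀ j, |t j| ≤ (((N * H) ^ (N - 1) : ℕ) : ℤ) := by
  obtain ⟨t, ht0, hAt, hnorm⟩ := Int.Matrix.exists_ne_zero_int_vec_norm_le A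
    (by rw [Fintype.card_fin, hβ]; omega) (by rw [Fintype.card_fin]; omega)
  refine ⟨t, ht0, fun i => ?_, fun j => ?_⟩
  · have := congrFun hAt i
    simpa [Matrix.mulVec, dotProduct] using this
  · have hA' : ‖A‖ ≤ H := by
      rw [Matrix.norm_le_iff (by positivity)]
      intro i j
      rw [Int.norm_eq_abs]
      exact_mod_cast hA i j
    have h1 : ‖t j‖ ≤ ‖t‖ := norm_le_pi_norm t j
    have h2 : ((Fintype.card (Fin (N - 1)) : ℕ) : ℝ) /
        ((Fintype.card β : ℕ) - (Fintype.card (Fin (N - 1)) : ℕ)) = ((N - 1 : ℕ) : ℝ) := by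
      rw [Fintype.card_fin, hβ, Nat.cast_sub (by omega)]
      push_cast
      ring
    rw [h2, Real.rpow_natCast, hβ] at hnorm
    have h3 : ((N : ℝ) * max 1 ‖A‖) ^ (N - 1) ≤ ((N : ℝ) * H) ^ (N - 1) := by
      apply pow_le_pow_left₀ (by positivity)
      apply mul_le_mul_of_nonneg_left _ (by positivity)
      exact max_le (by exact_mod_cast hH) hA'
    have h4 := h1.trans (hnorm.trans h3)
    rw [Int.norm_eq_abs] at h4
    exact_mod_cast h4

end

private theorem b1a_coeff (P : ℤ[X]) (H : ℕ) (hP : ∀ i, |P.coeff i| ≤ (H : ℤ)) (i s : ℕ) :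
    |(X ^ i * P).coeff s| ≤ (H : ℤ) := by
  rw [coeff_X_pow_mul']
  split_ifs
  · exact hP _
  · simp

private theorem b1a_sum_coeff {b : ℕ} (t : Fin b → ℤ) (P : ℤ[X]) (s : ℕ) :
    ((∑ i : Fin b, C (t i) * X ^ (i : ℕ)) * P).coeff s =
      ∑ i : Fin b, (X ^ (i : ℕ) * P).coeff s * t i := by
  rw [Finset.sum_mul, finsetSum_coeff]
  refine Finset.sum_congr rfl fun i _ => ?_
  rw [mul_assoc, coeff_C_mul, mul_comm]

private theorem b1a_natDegree {b : ℕ} (hb : 1 ≤ b) (t : Fin b → ℤ) :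
    (∑ i : Fin b, C (t i) * X ^ (i : ℕ)).natDegree ≤ b - 1 := by
  apply natDegree_sum_le_of_forall_le
  intro i _
  refine (natDegree_C_mul_X_pow_le _ _).trans ?_
  have := i.2
  omega

private theorem b1a_coeff_self {b : ℕ} (t : Fin b → ℤ) (j : Fin b) :
    (∑ i : Fin b, C (t i) * X ^ (i : ℕ)).coeff j = t j := by
  rw [finsetSum_coeff]
  simp only [coeff_C_mul, coeff_X_pow]
  rw [Finset.sum_eq_single j]
  · simp
  · intro i _ hij
    have : ((j : ℕ) = (i : ℕ)) ↔ False := by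
      constructor
      · intro h; exact hij (Fin.ext h.symm)
      · exact False.elim
    simp [this]
  · intro hj; exact absurd (Finset.mem_univ j) hj

private theorem b1a_main (m : ℕ) (U V d U1 V1 : ℤ[X]) (hU : U.natDegree ≤ m)
    (hV : V.natDegree ≤ m) (H : ℕ) (hH : 1 ≤ H) (hUH : ∀ i, |U.coeff i| ≤ (H : ℤ))
    (hVH : ∀ i, |V.coeff i| ≤ (H : ℤ)) (hd : d ≠ 0) (hUd : U = d * U1) (hVd : V = d * V1)
    (hrel : IsRelPrime V1 U1) (ha : 1 ≤ U1.natDegree) (hb : 1 ≤ V1.natDegree) :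
    ∃ (α β : ℤ[X]) (l : ℤ), α * U1 + β * V1 = C l ∧ l ≠ 0 ∧
      |l| ≤ (((2 * m * H) ^ (2 * m) : ℕ) : ℤ) := by
  have hU10 : U1 ≠ 0 := by rintro rfl; simp at ha
  have hV10 : V1 ≠ 0 := by rintro rfl; simp at hb
  have hdU : U.natDegree = d.natDegree + U1.natDegree := by rw [hUd, natDegree_mul hd hU10]
  have hdV : V.natDegree = d.natDegree + V1.natDegree := by rw [hVd, natDegree_mul hd hV10]
  set a := U1.natDegree with haa
  set b := V1.natDegree with hbb
  set e := d.natDegree with hee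
  obtain ⟨t, ht0, hAt, htb⟩ := b1a_siegel (β := Fin b ⊕ Fin a) (b + a) (by simp) (by omega)
    (fun s => Sum.elim (fun i => (X ^ (i : ℕ) * U).coeff (e + 1 + s))
      (fun j => (X ^ (j : ℕ) * V).coeff (e + 1 + s))) H hH (by
      intro s j
      cases j with
      | inl i => exact b1a_coeff U H hUH _ _
      | inr i => exact b1a_coeff V H hVH _ _)
  set α : ℤ[X] := ∑ i : Fin b, C (t (Sum.inl i)) * X ^ (i : ℕ) with hα
  set β : ℤ[X] := ∑ i : Fin a, C (t (Sum.inr i)) * X ^ (i : ℕ) with hβ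
  have hαd : α.natDegree ≤ b - 1 := b1a_natDegree hb _
  have hβd : β.natDegree ≤ a - 1 := b1a_natDegree ha _
  have hP : ∀ s, (α * U + β * V).coeff s = ∑ i : Fin b, (X ^ (i : ℕ) * U).coeff s * t (Sum.inl i) +
      ∑ i : Fin a, (X ^ (i : ℕ) * V).coeff s * t (Sum.inr i) := by
    intro s
    rw [coeff_add, hα, hβ, b1a_sum_coeff, b1a_sum_coeff]
  have hPd : (α * U + β * V).natDegree ≤ e := by
    rw [natDegree_le_iff_coeff_eq_zero]
    intro s hs
    by_cases hs2 : s < e + (b + a)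
    · have h1 := hAt ⟨s - (e + 1), by omega⟩
      rw [hP]
      simp only [Fintype.sum_sum_type, Sum.elim_inl, Sum.elim_inr] at h1
      have h2 : e + 1 + (s - (e + 1)) = s := by omega
      rw [h2] at h1
      exact h1
    · apply coeff_eq_zero_of_natDegree_lt
      have h1 : (α * U).natDegree ≤ e + (b + a) - 1 := by
        refine natDegree_mul_le.trans ?_
        omega
      have h2 : (β * V).natDegree ≤ e + (b + a) - 1 := by
        refine natDegree_mul_le.trans ?_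
        omega
      have h3 := natDegree_add_le_of_degree_le h1 h2
      omega
  have hPQ : α * U + β * V = d * (α * U1 + β * V1) := by rw [hUd, hVd]; ring
  have hQ0 : α * U1 + β * V1 ≠ 0 := by
    intro hQ
    apply ht0
    have h1 : V1 ∣ α * U1 := ⟨-β, by linear_combination hQ⟩
    have h2 : V1 ∣ α := hrel.dvd_of_dvd_mul_right h1
    have hα0 : α = 0 := by
      by_contra hne
      have := natDegree_le_of_dvd h2 hne
      omega
    have hβ0 : β = 0 := by
      rw [hα0, zero_mul, zero_add] at hQ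
      exact (mul_eq_zero.mp hQ).resolve_right hV10
    funext j
    cases j with
    | inl i =>
      have := b1a_coeff_self (fun i => t (Sum.inl i)) i
      rw [← hα, hα0, coeff_zero] at this
      exact this.symm
    | inr i =>
      have := b1a_coeff_self (fun i => t (Sum.inr i)) i
      rw [← hβ, hβ0, coeff_zero] at this
      exact this.symm
  have hQd : (α * U1 + β * V1).natDegree = 0 := by
    rw [hPQ, natDegree_mul hd hQ0] at hPd
    omega
  obtain ⟨l, hl⟩ := natDegree_eq_zero.mp hQd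
  have hl0 : l ≠ 0 := by rintro rfl; rw [C_0] at hl; exact hQ0 hl.symm
  refine ⟨α, β, l, hl.symm, hl0, ?_⟩
  have h1 : (α * U + β * V).coeff e = d.coeff e * l := by
    rw [hPQ, ← hl, coeff_mul_C]
  have h2 : 1 ≤ |d.coeff e| := by
    have : d.coeff e ≠ 0 := by
      rw [hee, coeff_natDegree]
      exact leadingCoeff_ne_zero.mpr hd
    exact Int.one_le_abs this
  have h3 : |l| ≤ |(α * U + β * V).coeff e| := by
    rw [h1, abs_mul]
    nlinarith [abs_nonneg l]
  have h4 : |(α * U + β * V).coeff e| ≤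
      ((b + a : ℕ) : ℤ) * (H * (((b + a) * H) ^ (b + a - 1) : ℕ)) := by
    rw [hP]
    refine (abs_add_le _ _).trans ?_
    have h5 : |∑ i : Fin b, (X ^ (i : ℕ) * U).coeff e * t (Sum.inl i)| ≤
        (b : ℤ) * (H * (((b + a) * H) ^ (b + a - 1) : ℕ)) := by
      refine (Finset.abs_sum_le_sum_abs _ _).trans ?_
      have : ∀ i ∈ (Finset.univ : Finset (Fin b)), |(X ^ (i : ℕ) * U).coeff e * t (Sum.inl i)| ≤
          (H * (((b + a) * H) ^ (b + a - 1) : ℕ) : ℤ) := by
        intro i _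
        rw [abs_mul]
        exact mul_le_mul (b1a_coeff U H hUH _ _) (htb _) (abs_nonneg _) (by positivity)
      refine (Finset.sum_le_card_nsmul _ _ _ this).trans ?_
      simp
    have h6 : |∑ i : Fin a, (X ^ (i : ℕ) * V).coeff e * t (Sum.inr i)| ≤
        (a : ℤ) * (H * (((b + a) * H) ^ (b + a - 1) : ℕ)) := by
      refine (Finset.abs_sum_le_sum_abs _ _).trans ?_
      have : ∀ i ∈ (Finset.univ : Finset (Fin a)), |(X ^ (i : ℕ) * V).coeff e * t (Sum.inr i)| ≤
          (H * (((b + a) * H) ^ (b + a - 1) : ℕ) : ℤ) := by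
        intro i _
        rw [abs_mul]
        exact mul_le_mul (b1a_coeff V H hVH _ _) (htb _) (abs_nonneg _) (by positivity)
      refine (Finset.sum_le_card_nsmul _ _ _ this).trans ?_
      simp
    refine (add_le_add h5 h6).trans (le_of_eq ?_)
    push_cast
    ring
  refine h3.trans (h4.trans ?_)
  have h7 : (b + a) * (H * ((b + a) * H) ^ (b + a - 1)) = ((b + a) * H) ^ (b + a) := by
    obtain ⟨N, hN⟩ : ∃ N, b + a = N + 1 := ⟨b + a - 1, by omega⟩
    rw [hN]
    simp only [Nat.add_sub_cancel]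
    ring
  have h8 : ((b + a) * H) ^ (b + a) ≤ (2 * m * H) ^ (2 * m) := by
    calc ((b + a) * H) ^ (b + a) ≤ (2 * m * H) ^ (b + a) :=
          Nat.pow_le_pow_left (Nat.mul_le_mul_right _ (by omega)) _
      _ ≤ (2 * m * H) ^ (2 * m) := by
          apply Nat.pow_le_pow_right _ (by omega)
          have : 0 < m := by omega
          positivity
  rw [← h7] at h8
  exact_mod_cast h8

/-- A bounded multiple of the resultant of the coprime parts of two integer polynomials. -/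
theorem exists_bezout (m : ℕ) (U V : ℤ[X]) (hU : U.natDegree ≤ m) (hV : V.natDegree ≤ m)
    (h : U ≠ 0 ∨ V ≠ 0) (H : ℕ) (hH : 1 ≤ H) (hUH : ∀ i, |U.coeff i| ≤ (H : ℤ))
    (hVH : ∀ i, |V.coeff i| ≤ (H : ℤ)) :
    ∃ (d U1 V1 α β : ℤ[X]) (l : ℤ), U = d * U1 ∧ V = d * V1 ∧ d ≠ 0 ∧ d.natDegree ≤ m ∧
      α * U1 + β * V1 = C l ∧ l ≠ 0 ∧ |l| ≤ (((4 * (m + 1) * H) ^ (2 * m + 2) : ℕ) : ℤ) := by
  let _ : GCDMonoid ℤ[X] := UniqueFactorizationMonoid.toGCDMonoid ℤ[X]
  obtain ⟨U1, V1, hUd, hVd, hunit⟩ := extract_gcd U V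
  set d := gcd U V with hdd
  have hd : d ≠ 0 := by
    rintro h0
    rw [h0, zero_mul] at hUd hVd
    rcases h with h | h
    · exact h hUd
    · exact h hVd
  have hdm : d.natDegree ≤ m := by
    rcases h with h | h
    · exact (natDegree_le_of_dvd ⟨U1, hUd⟩ h).trans hU
    · exact (natDegree_le_of_dvd ⟨V1, hVd⟩ h).trans hV
  have hrel : IsRelPrime U1 V1 := gcd_isUnit_iff_isRelPrime.mp hunit
  have hbd : H ≤ (4 * (m + 1) * H) ^ (2 * m + 2) := by
    calc H ≤ 4 * (m + 1) * H := by nlinarith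
      _ = (4 * (m + 1) * H) ^ 1 := (pow_one _).symm
      _ ≤ _ := Nat.pow_le_pow_right (by positivity) (by omega)
  have hlc : 1 ≤ |d.coeff d.natDegree| := by
    have : d.coeff d.natDegree ≠ 0 := by
      rw [coeff_natDegree]
      exact leadingCoeff_ne_zero.mpr hd
    exact Int.one_le_abs this
  -- the case of a constant
  have hconst : ∀ v : ℤ, v ≠ 0 → (∀ i, |(d * C v).coeff i| ≤ (H : ℤ)) →
      |v| ≤ (((4 * (m + 1) * H) ^ (2 * m + 2) : ℕ) : ℤ) := by
    intro v _ hv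
    have h1 := hv d.natDegree
    rw [coeff_mul_C, abs_mul] at h1
    have h2 : |v| ≤ (H : ℤ) := by nlinarith [abs_nonneg v]
    exact h2.trans (by exact_mod_cast hbd)
  by_cases hV0 : V1.natDegree = 0 ∧ V1 ≠ 0
  · obtain ⟨v, hv⟩ := natDegree_eq_zero.mp hV0.1
    have hv0 : v ≠ 0 := by rintro rfl; rw [C_0] at hv; exact hV0.2 hv.symm
    refine ⟨d, U1, V1, 0, 1, v, hUd, hVd, hd, hdm, by rw [zero_mul, zero_add, one_mul, hv], hv0,
      hconst v hv0 ?_⟩
    rw [hv, ← hVd]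
    exact hVH
  by_cases hU0 : U1.natDegree = 0 ∧ U1 ≠ 0
  · obtain ⟨v, hv⟩ := natDegree_eq_zero.mp hU0.1
    have hv0 : v ≠ 0 := by rintro rfl; rw [C_0] at hv; exact hU0.2 hv.symm
    refine ⟨d, U1, V1, 1, 0, v, hUd, hVd, hd, hdm, by rw [zero_mul, add_zero, one_mul, hv], hv0,
      hconst v hv0 ?_⟩
    rw [hv, ← hUd]
    exact hUH
  have hV1 : V1 ≠ 0 := by
    rintro h0
    rw [h0, isRelPrime_zero_right] at hrel
    exact hU0 ⟨natDegree_eq_zero_of_isUnit hrel, hrel.ne_zero⟩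
  have hU1 : U1 ≠ 0 := by
    rintro h0
    rw [h0, isRelPrime_zero_left] at hrel
    exact hV0 ⟨natDegree_eq_zero_of_isUnit hrel, hrel.ne_zero⟩
  have ha : 1 ≤ U1.natDegree := by
    by_contra hlt
    exact hU0 ⟨by omega, hU1⟩
  have hb : 1 ≤ V1.natDegree := by
    by_contra hlt
    exact hV0 ⟨by omega, hV1⟩
  obtain ⟨α, β, l, h1, h2, h3⟩ := b1a_main m U V d U1 V1 hU hV H hH hUH hVH hd hUd hVd hrel.symm
    ha hb
  refine ⟨d, U1, V1, α, β, l, hUd, hVd, hd, hdm, h1, h2, h3.trans ?_⟩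
  have hbase : 0 < 4 * (m + 1) * H := by positivity
  have : (2 * m * H) ^ (2 * m) ≤ (4 * (m + 1) * H) ^ (2 * m + 2) := by
    calc (2 * m * H) ^ (2 * m) ≤ (4 * (m + 1) * H) ^ (2 * m) :=
          Nat.pow_le_pow_left (Nat.mul_le_mul_right _ (by omega)) _
      _ ≤ _ := Nat.pow_le_pow_right hbase (by omega)
  exact_mod_cast this

end LibHall
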