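import Mathlib

set_option autoImplicit false

namespace LibHall

private theorem B2_pow_bound (q : ℕ) : ∃ C : ℝ, 1 ≤ C ∧ ∀ e : ℕ, ((e : ℝ) + 1) ^ q ≤ C * 2 ^ e := by
  have h := tendsto_pow_const_div_const_pow_of_one_lt q (r := (2 : ℝ)) (by norm_num)
  obtain ⟨B, hB⟩ := h.bddAbove_range
  refine ⟨max 1 (2 * B), le_max_left _ _, fun e => ?_⟩
  have h1 : ((e + 1 : ℕ) : ℝ) ^ q / 2 ^ (e + 1) ≤ B := hB ⟨e + 1, rfl⟩
  rw [div_le_iff₀ (by positivity)] at h1
  push_cast at h1
  calc ((e : ℝ) + 1) ^ q ≤ B * 2 ^ (e + 1) := h1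
    _ = 2 * B * 2 ^ e := by ring
    _ ≤ max 1 (2 * B) * 2 ^ e := by
      apply mul_le_mul_of_nonneg_right (le_max_right _ _) (by positivity)

/-- The divisor bound. -/
theorem divisor_bound (q : ℕ) (hq : 1 ≤ q) : ∃ c : ℝ, 1 ≤ c ∧ ∀ n : ℕ, 1 ≤ n →
    ((n.divisors.card : ℝ)) ^ q ≤ c * n := by
  obtain ⟨C, hC, hCe⟩ := B2_pow_bound q
  refine ⟨C ^ (2 ^ q), one_le_pow₀ hC, fun n hn => ?_⟩
  have hn0 : n ≠ 0 := by omega
  have h1 : (n.divisors.card : ℝ) = ∏ p ∈ n.primeFactors, ((n.factorization p : ℝ) + 1) := by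
    rw [Nat.card_divisors hn0]
    push_cast
    rfl
  have h2 : (n : ℝ) = ∏ p ∈ n.primeFactors, ((p : ℝ) ^ n.factorization p) := by
    conv_lhs => rw [← Nat.prod_factorization_pow_eq_self hn0]
    rw [Finsupp.prod, Nat.support_factorization]
    push_cast
    rfl
  have h3 : ∀ p ∈ n.primeFactors, ((n.factorization p : ℝ) + 1) ^ q ≤
      (if p < 2 ^ q then C else 1) * (p : ℝ) ^ n.factorization p := by
    intro p hp
    have hp2 : 2 ≤ p := (Nat.prime_of_mem_primeFactors hp).two_le
    split_ifs with h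
    · refine (hCe _).trans ?_
      apply mul_le_mul_of_nonneg_left _ (by linarith)
      exact pow_le_pow_left₀ (by norm_num) (by exact_mod_cast hp2) _
    · push Not at h
      rw [one_mul]
      have h4 : ((n.factorization p : ℝ) + 1) ≤ 2 ^ n.factorization p := by
        have : n.factorization p + 1 ≤ 2 ^ n.factorization p := Nat.lt_two_pow_self
        exact_mod_cast this
      calc ((n.factorization p : ℝ) + 1) ^ q ≤ (2 ^ n.factorization p) ^ q :=
            pow_le_pow_left₀ (by positivity) h4 _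
        _ = (2 ^ q) ^ n.factorization p := by rw [← pow_mul, ← pow_mul, mul_comm]
        _ ≤ (p : ℝ) ^ n.factorization p :=
            pow_le_pow_left₀ (by positivity) (by exact_mod_cast h) _
  have h5 : ∏ p ∈ n.primeFactors, (if p < 2 ^ q then C else 1) ≤ C ^ (2 ^ q) := by
    rw [Finset.prod_ite, Finset.prod_const, Finset.prod_const_one, mul_one]
    apply pow_le_pow_right₀ hC
    calc (Finset.filter (fun p => p < 2 ^ q) n.primeFactors).card
        ≤ (Finset.range (2 ^ q)).card := by
          apply Finset.card_le_card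
          intro p hp
          rw [Finset.mem_filter] at hp
          exact Finset.mem_range.2 hp.2
      _ = 2 ^ q := Finset.card_range _
  calc (n.divisors.card : ℝ) ^ q
      = ∏ p ∈ n.primeFactors, ((n.factorization p : ℝ) + 1) ^ q := by
        rw [h1, Finset.prod_pow]
    _ ≤ ∏ p ∈ n.primeFactors, ((if p < 2 ^ q then C else 1) * (p : ℝ) ^ n.factorization p) :=
        Finset.prod_le_prod (fun p _ => by positivity) h3
    _ = (∏ p ∈ n.primeFactors, (if p < 2 ^ q then C else 1)) * n := by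
        rw [Finset.prod_mul_distrib, ← h2]
    _ ≤ C ^ (2 ^ q) * n := by
        apply mul_le_mul_of_nonneg_right h5 (by positivity)

end LibHall
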