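import Pool.Agent.LibHall43.B4

set_option autoImplicit false

namespace LibHall

private theorem C1a_floor_mem (x X : ℝ) (hx : |x| ≤ X) :
    ⌊x⌋ ∈ Finset.Icc (-(⌊X⌋ + 1)) (⌊X⌋ + 1) := by
  obtain ⟨h1, h2⟩ := abs_le.mp hx
  rw [Finset.mem_Icc]
  constructor
  · rw [Int.le_floor]
    push_cast
    have := Int.lt_floor_add_one X
    linarith
  · have : ⌊x⌋ ≤ ⌊X⌋ := Int.floor_le_floor h2
    omega

private theorem C1a_card (X : ℝ) (hX : 0 ≤ X) :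
    ((Finset.Icc (-(⌊X⌋ + 1)) (⌊X⌋ + 1)).card : ℝ) ≤ 2 * X + 3 := by
  rw [Int.card_Icc]
  have h0 : 0 ≤ ⌊X⌋ := Int.floor_nonneg.mpr hX
  have h1 : ((⌊X⌋ + 1 + 1 - -(⌊X⌋ + 1)).toNat : ℤ) = 2 * ⌊X⌋ + 3 := by
    rw [Int.toNat_of_nonneg (by omega)]
    ring
  have h2 : (((⌊X⌋ + 1 + 1 - -(⌊X⌋ + 1)).toNat : ℕ) : ℝ) = 2 * (⌊X⌋ : ℝ) + 3 := by
    exact_mod_cast h1
  rw [h2]
  have := Int.floor_le X
  linarith

private theorem C1a_floor_eq (x y : ℝ) (h : ⌊x⌋ = ⌊y⌋) : |x - y| ≤ 1 :=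
  (Int.abs_sub_lt_one_of_floor_eq_floor h).le

/-- The number of points in a slice. -/
theorem slice_count (km : ℕ) : ∃ n0 : ℝ, 1 < n0 ∧ ∀ n : ℝ, n0 ≤ n → ∀ Θ : ℝ, 0 < Θ →
    Θ ≤ n ^ 344 → 1 ≤ Θ * n ^ 1000 → ∀ c0 c1 c2 : ℤ, c0 ≠ 0 →
    |(c0 : ℝ)| * Θ ^ 3 ≤ n ^ 1001 → |(c1 : ℝ)| * Θ ^ 2 ≤ n ^ 1001 → |(c2 : ℝ)| * Θ ≤ n ^ 1001 →
    ∀ S : Finset (ℤ × ℤ × ℤ), (∀ s ∈ S, IsS Θ (n ^ 999) c0 c1 c2 s ∧
      |(s.2.2 : ℝ)| ≤ n ^ km ∧ |(s.1 : ℝ)| ≤ n ^ 1001) →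
    (S.card : ℝ) ≤ n ^ 915 := by
  obtain ⟨n1, hn1, hcell⟩ := cell_lemma km
  refine ⟨max n1 (25 * ((km : ℝ) + 1)), lt_of_lt_of_le hn1 (le_max_left _ _), ?_⟩
  intro n hn Θ hΘ hΘ1 hΘ2 c0 c1 c2 hc0 h0 h1 h2 S hS
  have hna : n1 ≤ n := le_trans (le_max_left _ _) hn
  have hnb : 25 * ((km : ℝ) + 1) ≤ n := le_trans (le_max_right _ _) hn
  have hn1' : 1 < n := lt_of_lt_of_le hn1 hna
  have hnpos : 0 < n := by linarith
  have hkf : ∀ s : ℤ × ℤ × ℤ, ∃ k : ℕ, s ∈ S → k ≤ km ∧ n ^ k ≤ |(s.2.2 : ℝ)| ∧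
      |(s.2.2 : ℝ)| < n ^ (k + 1) := by
    intro s
    by_cases hs : s ∈ S
    · obtain ⟨hIS, hb, -⟩ := hS s hs
      have hb1 : (1 : ℝ) ≤ |(s.2.2 : ℝ)| := by
        rw [← Int.cast_abs]
        exact_mod_cast Int.one_le_abs hIS.2.1
      obtain ⟨k, hk1, hk2⟩ := exists_nat_pow_near hb1 hn1'
      refine ⟨k, fun _ => ⟨?_, hk1, hk2⟩⟩
      exact (pow_le_pow_iff_right₀ hn1').mp (hk1.trans hb)
    · exact ⟨0, fun h => absurd h hs⟩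
  choose kf hkf using hkf
  set f : ℤ × ℤ × ℤ → ℕ × ℤ × ℤ := fun s =>
    (kf s, ⌊((s.2.1 : ℝ) / s.2.2) * n ^ 4 / Θ⌋, ⌊(s.1 : ℝ) / n ^ 94⌋) with hf
  set T : Finset (ℕ × ℤ × ℤ) := Finset.range (km + 1) ×ˢ
    (Finset.Icc (-(⌊n ^ 4⌋ + 1)) (⌊n ^ 4⌋ + 1) ×ˢ
      Finset.Icc (-(⌊n ^ 907⌋ + 1)) (⌊n ^ 907⌋ + 1)) with hT
  have hmaps : ∀ s ∈ S, f s ∈ T := by
    intro s hs
    obtain ⟨hIS, hb, hz⟩ := hS s hs
    have hbR : (s.2.2 : ℝ) ≠ 0 := by exact_mod_cast hIS.2.1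
    rw [hT, Finset.mem_product, Finset.mem_product]
    refine ⟨?_, ?_, ?_⟩
    · rw [Finset.mem_range]
      have := (hkf s hs).1
      simp only [hf]
      omega
    · refine C1a_floor_mem _ _ ?_
      rw [abs_div, abs_of_pos hΘ, div_le_iff₀ hΘ, abs_mul, abs_of_pos (by positivity : 0 < n ^ 4),
        abs_div, mul_comm]
      refine mul_le_mul_of_nonneg_left ?_ (by positivity)
      rw [div_le_iff₀ (abs_pos.mpr hbR)]
      exact hIS.2.2.1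
    · refine C1a_floor_mem _ _ ?_
      rw [abs_div, abs_of_pos (by positivity : 0 < n ^ 94), div_le_iff₀ (by positivity), ← pow_add]
      exact hz
  have hfib : ∀ t ∈ T, (S.filter (fun s => f s = t)).card ≤ ⌊n⌋₊ := by
    intro t ht
    rcases (S.filter (fun s => f s = t)).eq_empty_or_nonempty with he | ⟨s1, hs1⟩
    · rw [he]; simp
    apply Nat.le_floor
    have hs1' := Finset.mem_filter.mp hs1
    have hk1 := hkf s1 hs1'.1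
    refine hcell n hna (kf s1) hk1.1 Θ hΘ hΘ1 hΘ2 c0 c1 c2 hc0 h0 h1 h2 _ ?_ ?_
    · intro s hs
      have hs' := Finset.mem_filter.mp hs
      have heq : f s = f s1 := by rw [hs'.2, hs1'.2]
      have hk : kf s = kf s1 := congrArg Prod.fst heq
      have h3 := hkf s hs'.1
      rw [hk] at h3
      exact ⟨(hS s hs'.1).1, h3.2.1, h3.2.2⟩
    · intro s hs s' hs'
      have hs2 := Finset.mem_filter.mp hs
      have hs2' := Finset.mem_filter.mp hs'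
      have heq : f s = f s' := by rw [hs2.2, hs2'.2]
      have e1 : ⌊((s.2.1 : ℝ) / s.2.2) * n ^ 4 / Θ⌋ = ⌊((s'.2.1 : ℝ) / s'.2.2) * n ^ 4 / Θ⌋ :=
        congrArg (fun q => q.2.1) heq
      have e2 : ⌊(s.1 : ℝ) / n ^ 94⌋ = ⌊(s'.1 : ℝ) / n ^ 94⌋ :=
        congrArg (fun q => q.2.2) heq
      have d1 := C1a_floor_eq _ _ e1
      have d2 := C1a_floor_eq _ _ e2
      constructor
      · rw [← sub_div, abs_div, abs_of_pos (by positivity : 0 < n ^ 94),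
          div_le_one (by positivity)] at d2
        push_cast
        exact d2
      · rw [← sub_div, ← sub_mul, abs_div, abs_of_pos hΘ, div_le_one hΘ, abs_mul,
          abs_of_pos (by positivity : 0 < n ^ 4)] at d1
        exact d1
  have hcard := Finset.card_le_mul_card_image_of_maps_to hmaps ⌊n⌋₊ hfib
  have hTc : (T.card : ℝ) ≤ ((km : ℝ) + 1) * ((2 * n ^ 4 + 3) * (2 * n ^ 907 + 3)) := by
    rw [hT, Finset.card_product, Finset.card_product, Finset.card_range]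
    push_cast
    have c1' := C1a_card (n ^ 4) (by positivity)
    have c2' := C1a_card (n ^ 907) (by positivity)
    gcongr
  have p4 : (1 : ℝ) ≤ n ^ 4 := one_le_pow₀ hn1'.le
  have p907 : (1 : ℝ) ≤ n ^ 907 := one_le_pow₀ hn1'.le
  calc (S.card : ℝ) ≤ ((⌊n⌋₊ * T.card : ℕ) : ℝ) := by exact_mod_cast hcard
    _ = (⌊n⌋₊ : ℝ) * T.card := by push_cast; ring
    _ ≤ n * (((km : ℝ) + 1) * ((2 * n ^ 4 + 3) * (2 * n ^ 907 + 3))) := by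
        gcongr
        exact Nat.floor_le hnpos.le
    _ ≤ n * (((km : ℝ) + 1) * ((5 * n ^ 4) * (5 * n ^ 907))) := by
        gcongr
        · linarith
        · linarith
    _ = (25 * ((km : ℝ) + 1)) * n ^ 912 := by ring
    _ ≤ n * n ^ 912 := by gcongr
    _ = n ^ 913 := (pow_succ' n 912).symm
    _ ≤ n ^ 915 := pow_le_pow_right₀ hn1'.le (by norm_num)

end LibHall
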