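import Pool.Agent.LibHall43.C1
import Pool.Agent.LibHall43.C2

set_option autoImplicit false

namespace LibHall

/-- The tuple attached to a basis. -/
def C3a_tup (s : (ℤ × ℤ) × (ℤ × ℤ) × (ℤ × ℤ)) : (ℤ × ℤ × ℤ) × (ℤ × ℤ × ℤ) :=
  ((T3 s.1.1 s.1.2 s.2.1 s.2.1 s.2.1, T3 s.1.1 s.1.2 s.2.1 s.2.1 s.2.2,
    T3 s.1.1 s.1.2 s.2.1 s.2.2 s.2.2),
   (T3 s.1.1 s.1.2 s.2.2 s.2.2 s.2.2, s.2.2.2, -s.2.1.2))

/-- The number of `(x, y, w1, w2)` of type `(N1, N2)`: main case. -/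
theorem W_count (C : ℕ) : ∃ A0 : ℝ, 1 < A0 ∧ ∀ A : ℝ, A0 ≤ A → ∀ N1 N2 : ℝ, 0 < N1 → 0 < N2 →
    N1 * N2 = 6 → A ≤ (A * N2 ^ 3) ^ 2 →
    ∀ S : Finset ((ℤ × ℤ) × (ℤ × ℤ) × (ℤ × ℤ)),
    (∀ s ∈ S, IsG A C s.1.1 s.1.2 ∧ IsW A N1 N2 s.1.1 s.1.2 s.2.1 s.2.2) →
    (S.card : ℝ) ≤ 10 ^ 8 * A ^ 3 * N1 ^ 3 * (A * N2 ^ 3) ^ (0.915 : ℝ) := by
  obtain ⟨n0, hn0, hbox⟩ := box_count (4000 * C)
  set m0 : ℝ := max n0 48000 with hm0
  have hm0n : n0 ≤ m0 := le_max_left _ _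
  have hm0' : (48000 : ℝ) ≤ m0 := le_max_right _ _
  have hm01 : (1 : ℝ) ≤ m0 := by linarith
  refine ⟨m0 ^ 2000, ?_, ?_⟩
  · exact one_lt_pow₀ (by linarith) (by norm_num)
  intro A hA N1 N2 hN1 hN2 hN hAB S hS
  have hm2000 : m0 ≤ m0 ^ 2000 := le_self_pow₀ hm01 (by norm_num)
  have hA48 : (48000 : ℝ) ≤ A := by linarith
  have hA0 : (0 : ℝ) < A := by linarith
  set B : ℝ := A * N2 ^ 3 with hB
  have hB0 : 0 < B := by positivity
  set n : ℝ := B ^ ((1 : ℝ) / 1000) with hn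
  have hnpos : 0 < n := Real.rpow_pos_of_pos hB0 _
  have hn1000 : n ^ 1000 = B := by
    rw [hn, ← Real.rpow_natCast, ← Real.rpow_mul hB0.le]
    norm_num
  have hn915 : n ^ 915 = B ^ (0.915 : ℝ) := by
    rw [hn, ← Real.rpow_natCast, ← Real.rpow_mul hB0.le]
    norm_num
  have hn2000 : A ≤ n ^ 2000 := by
    calc A ≤ B ^ 2 := hAB
      _ = n ^ 2000 := by rw [← hn1000]; ring
  have hnm : m0 ≤ n := by
    have h1 : m0 ^ 2000 ≤ n ^ 2000 := hA.trans hn2000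
    exact le_of_pow_le_pow_left₀ (by norm_num) hnpos.le h1
  have hn48 : (48000 : ℝ) ≤ n := hm0'.trans hnm
  have hn1 : (1 : ℝ) ≤ n := by linarith
  rw [← hn915]
  rcases S.eq_empty_or_nonempty with rfl | hne
  · simp only [Finset.card_empty, Nat.cast_zero]
    positivity
  obtain ⟨s0, hs0⟩ := hne
  have hfacts := fun s (hs : s ∈ S) => W_facts C A N1 N2 (by linarith) hN1 hN2 hN s.1.1 s.1.2
    s.2.1 s.2.2 (hS s hs).1 (hS s hs).2
  obtain ⟨f1, f2, -⟩ := hfacts s0 hs0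
  have hN1e : N1 = 6 / N2 := by
    field_simp
    linarith
  have hprod3 : N1 ^ 3 * N2 ^ 3 = 216 := by
    calc N1 ^ 3 * N2 ^ 3 = (N1 * N2) ^ 3 := by ring
      _ = 216 := by rw [hN]; norm_num
  have hN23 : N2 ^ 3 ≤ 1296 * A := by
    have h1 : 1 * N2 ^ 3 ≤ 6 * A * N1 ^ 3 * N2 ^ 3 :=
      mul_le_mul_of_nonneg_right f1 (by positivity)
    have h2 : 6 * A * N1 ^ 3 * N2 ^ 3 = 6 * A * (N1 ^ 3 * N2 ^ 3) := by ring
    rw [h2, hprod3] at h1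
    linarith
  set Θ : ℝ := 20 * N2 / N1 with hΘ
  have hΘe : Θ = 10 / 3 * N2 ^ 2 := by
    rw [hΘ, hN1e]
    field_simp
    norm_num
  have hΘ0 : 0 < Θ := by positivity
  -- `Θ ≤ n ^ 344`
  have hΘ344 : Θ ≤ n ^ 344 := by
    have h1 : Θ ^ 3 ≤ (n ^ 344) ^ 3 := by
      have h2 : Θ ^ 3 = 1000 / 27 * (N2 ^ 3 * N2 ^ 3) := by rw [hΘe]; ring
      have h3 : N2 ^ 3 * N2 ^ 3 ≤ 1296 * A * N2 ^ 3 :=
        mul_le_mul_of_nonneg_right hN23 (by positivity)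
      have h4 : 1296 * A * N2 ^ 3 = 1296 * n ^ 1000 := by rw [hn1000, hB]; ring
      have h5 : (48000 : ℝ) ≤ n ^ 32 := hn48.trans (le_self_pow₀ hn1 (by norm_num))
      have h6 : (0 : ℝ) < n ^ 1000 := by positivity
      have h7 : (n ^ 344) ^ 3 = n ^ 32 * n ^ 1000 := by ring
      rw [h7, h2]
      have h8 : 48000 * n ^ 1000 ≤ n ^ 32 * n ^ 1000 :=
        mul_le_mul_of_nonneg_right h5 h6.le
      linarith
    exact le_of_pow_le_pow_left₀ (by norm_num) (by positivity) h1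
  have hB1 : 1 ≤ B := by
    rw [← hn1000]
    exact one_le_pow₀ hn1
  have hΘ1 : 1 ≤ Θ * n ^ 1000 := by
    rw [hn1000]
    have h1 : 1 ≤ N2 ^ 2 * B := by
      have h2 : (1 : ℝ) ^ 3 ≤ (N2 ^ 2 * B) ^ 3 := by
        have h3 : A ^ 2 * (N2 ^ 2 * B) ^ 3 = B ^ 2 * B ^ 3 := by rw [hB]; ring
        have h4 : A ^ 2 ≤ (B ^ 2) ^ 2 := pow_le_pow_left₀ hA0.le hAB 2
        have h5 : A ^ 2 * 1 ≤ A ^ 2 * (N2 ^ 2 * B) ^ 3 := by
          rw [h3]
          have h6 : (B ^ 2) ^ 2 * 1 ≤ (B ^ 2) ^ 2 * B :=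
            mul_le_mul_of_nonneg_left hB1 (by positivity)
          calc A ^ 2 * 1 ≤ (B ^ 2) ^ 2 * 1 := by linarith
            _ ≤ (B ^ 2) ^ 2 * B := h6
            _ = B ^ 2 * B ^ 3 := by ring
        have h7 := le_of_mul_le_mul_left h5 (by positivity)
        simpa using h7
      exact le_of_pow_le_pow_left₀ (by norm_num) (by positivity) h2
    rw [hΘe, mul_assoc]
    linarith
  set R0 : ℝ := 6 * A * N1 ^ 3 with hR0
  set R1 : ℝ := 36 * A * N1 with hR1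
  set R2 : ℝ := 36 * A * N2 with hR2
  have hstep : n * n ^ 1000 = n ^ 1001 := by ring
  have hbig : 48000 * n ^ 1000 ≤ n ^ 1001 := by
    rw [← hstep]
    exact mul_le_mul_of_nonneg_right hn48 (by positivity)
  have hnp : (0 : ℝ) < n ^ 1000 := by positivity
  have hR0Θ : R0 * Θ ^ 3 ≤ n ^ 1001 := by
    have h1 : R0 * Θ ^ 3 = 48000 * n ^ 1000 := by
      rw [hn1000, hR0, hΘ, hB]
      field_simp
      norm_num
    linarith
  have hR1Θ : R1 * Θ ^ 2 ≤ n ^ 1001 := by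
    have h1 : R1 * Θ ^ 2 = 2400 * n ^ 1000 := by
      rw [hn1000, hR1, hΘe, hB, hN1e]
      field_simp
      norm_num
    linarith
  have hR2Θ : R2 * Θ ≤ n ^ 1001 := by
    have h1 : R2 * Θ = 120 * n ^ 1000 := by
      rw [hn1000, hR2, hΘe, hB]
      ring
    linarith
  have hinj : Set.InjOn C3a_tup (S : Set ((ℤ × ℤ) × (ℤ × ℤ) × (ℤ × ℤ))) := by
    intro s hs t ht hst
    have hs' : s ∈ S := hs
    have ht' : t ∈ S := ht
    have h := hfacts s hs'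
    simp only [C3a_tup, Prod.mk.injEq, neg_inj] at hst
    obtain ⟨⟨e1, e2, e3⟩, e4, e5, e6⟩ := hst
    obtain ⟨r1, r2, r3, r4⟩ := tuple_inj s.1.1 s.1.2 t.1.1 t.1.2 s.2.1 s.2.2 t.2.1 t.2.2
      (hS s hs').2.1 (hS t ht').2.1 h.2.2.1 e1 e2 e3 e5 e6
    exact Prod.ext (Prod.ext r1 r2) (Prod.ext r3 r4)
  have hcard : (S.image C3a_tup).card = S.card := Finset.card_image_of_injOn hinj
  have hmain := hbox n (hm0n.trans hnm) Θ hΘ0 hΘ344 hΘ1 R0 R1 R2 (by positivity) (by positivity)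
    (by positivity) hR0Θ hR1Θ hR2Θ (S.image C3a_tup) (by
      intro s hs
      obtain ⟨t, ht, rfl⟩ := Finset.mem_image.mp hs
      obtain ⟨-, -, g3, g4, g5, g6, g7, g8, g9⟩ := hfacts t ht
      have hW := (hS t ht).2
      have hGt := (hS t ht).1
      refine ⟨hW.2.2.2.2.2.2.1, g4, g5, g6, ?_, ?_, ?_⟩
      · obtain ⟨i1, i2, i3, i4⟩ := g9
        refine ⟨i1, i2, i3, le_trans ?_ i4⟩
        have h1 : n ^ 999 * n = n ^ 1000 := by ring
        have h2 : A * N2 ^ 3 = n ^ 1000 := by rw [hn1000]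
        rw [h2, ← h1]
        have h3 : (0 : ℝ) < n ^ 999 := by positivity
        have h5 : n ^ 999 * 2 ≤ n ^ 999 * n :=
          mul_le_mul_of_nonneg_left (by linarith) h3.le
        linarith
      · show |(((-t.2.1.2 : ℤ)) : ℝ)| ≤ n ^ (4000 * C)
        have h1 : |(((-t.2.1.2 : ℤ)) : ℝ)| = |((t.2.1.2 : ℤ) : ℝ)| := by
          push_cast
          exact abs_neg _
        rw [h1]
        refine g8.trans ?_
        have h2 : (t.1.1 : ℝ) ≤ A ^ (4 * C) := hGt.2.2.1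
        have h3 : (t.1.1 : ℝ) ≤ (n ^ (4000 * C)) ^ 2 := by
          calc (t.1.1 : ℝ) ≤ A ^ (4 * C) := h2
            _ ≤ (n ^ 2000) ^ (4 * C) := pow_le_pow_left₀ hA0.le hn2000 _
            _ = (n ^ (4000 * C)) ^ 2 := by
                rw [← pow_mul, ← pow_mul]
                congr 1
                ring
        exact Real.sqrt_le_iff.mpr ⟨by positivity, h3⟩
      · show |((T3 t.1.1 t.1.2 t.2.2 t.2.2 t.2.2 : ℤ) : ℝ)| ≤ n ^ 1001
        refine g7.trans ?_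
        have h1 : 6 * A * N2 ^ 3 = 6 * n ^ 1000 := by rw [hn1000, hB]; ring
        rw [h1]
        linarith)
  rw [hcard] at hmain
  refine hmain.trans ?_
  have hR0' : 1 ≤ R0 := f1
  have hA2 : (6 : ℝ) ≤ A ^ 2 := by nlinarith
  have hR1' : 1 ≤ R1 := by
    have h1 : (1 : ℝ) ^ 3 ≤ (A * N1) ^ 3 := by
      have h2 : (A * N1) ^ 3 * 6 = A ^ 2 * (6 * A * N1 ^ 3) := by ring
      have h3 : A ^ 2 * 1 ≤ A ^ 2 * (6 * A * N1 ^ 3) :=
        mul_le_mul_of_nonneg_left f1 (by positivity)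
      linarith
    have h4 := le_of_pow_le_pow_left₀ (n := 3) (by norm_num) (by positivity) h1
    rw [hR1]
    linarith
  have hR2' : 1 ≤ R2 := by
    have h1 : (1 : ℝ) ^ 3 ≤ (A * N2) ^ 3 := by
      have h2 : (A * N2) ^ 3 * 6 = A ^ 2 * (6 * A * N2 ^ 3) := by ring
      have h3 : A ^ 2 * 1 ≤ A ^ 2 * (6 * A * N2 ^ 3) :=
        mul_le_mul_of_nonneg_left f2 (by positivity)
      linarith
    have h4 := le_of_pow_le_pow_left₀ (n := 3) (by norm_num) (by positivity) h1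
    rw [hR2]
    linarith
  have hprod : (2 * R0 + 1) * (2 * R1 + 1) * (2 * R2 + 1) ≤ (3 * R0) * (3 * R1) * (3 * R2) := by
    have hp0 : 2 * R0 + 1 ≤ 3 * R0 := by linarith
    have hp1 : 2 * R1 + 1 ≤ 3 * R1 := by linarith
    have hp2 : 2 * R2 + 1 ≤ 3 * R2 := by linarith
    have q0 : (0 : ℝ) ≤ 2 * R0 + 1 := by linarith
    have q1 : (0 : ℝ) ≤ 2 * R1 + 1 := by linarith
    have q2 : (0 : ℝ) ≤ 2 * R2 + 1 := by linarith
    apply mul_le_mul (mul_le_mul hp0 hp1 q1 (by linarith)) hp2 q2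
    exact mul_nonneg (by linarith) (by linarith)
  have hprod' : (3 * R0) * (3 * R1) * (3 * R2) = 1259712 * (A ^ 3 * N1 ^ 3) := by
    rw [hR0, hR1, hR2, hN1e]
    field_simp
    norm_num
  have hpos : (0 : ℝ) < A ^ 3 * N1 ^ 3 := by positivity
  have hn9 : (0 : ℝ) ≤ n ^ 915 := by positivity
  calc (2 * R0 + 1) * (2 * R1 + 1) * (2 * R2 + 1) * n ^ 915
      ≤ (1259712 * (A ^ 3 * N1 ^ 3)) * n ^ 915 := by
        apply mul_le_mul_of_nonneg_right (by rw [← hprod']; exact hprod) hn9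
    _ ≤ (10 ^ 8 * (A ^ 3 * N1 ^ 3)) * n ^ 915 := by
        apply mul_le_mul_of_nonneg_right _ hn9
        exact mul_le_mul_of_nonneg_right (by norm_num) hpos.le
    _ = 10 ^ 8 * A ^ 3 * N1 ^ 3 * n ^ 915 := by ring

end LibHall
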