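import Pool.Agent.LibHall43.E4

set_option autoImplicit false

namespace LibHall

theorem final :
    (∀ C : ℕ, ∃ c : ℝ, 0 < c ∧ ∀ K : ℝ, 1 ≤ K →
      {p : ℤ × ℤ | p.2 ^ 2 ≠ p.1 ^ 3 ∧ |((p.2 ^ 2 - p.1 ^ 3 : ℤ) : ℝ)| ≤ K ∧
        |(p.1 : ℝ)| ≤ K ^ C}.Finite ∧
      ({p : ℤ × ℤ | p.2 ^ 2 ≠ p.1 ^ 3 ∧ |((p.2 ^ 2 - p.1 ^ 3 : ℤ) : ℝ)| ≤ K ∧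
        |(p.1 : ℝ)| ≤ K ^ C}.ncard : ℝ) ≤ c * K ^ (0.98 : ℝ)) ∧
    (∀ C : ℕ, ∃ c : ℝ, 0 < c ∧ ∀ K : ℝ, 1 ≤ K →
      {k : ℤ | k ≠ 0 ∧ |(k : ℝ)| ≤ K ∧ ∃ x y : ℤ, y ^ 2 = x ^ 3 + k ∧ |x| ≤ |k| ^ C}.Finite ∧
      ({k : ℤ | k ≠ 0 ∧ |(k : ℝ)| ≤ K ∧ ∃ x y : ℤ, y ^ 2 = x ^ 3 + k ∧
        |x| ≤ |k| ^ C}.ncard : ℝ) ≤ c * K ^ (0.98 : ℝ)) :=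
  ⟨pairs_version, k_version⟩

end LibHall
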